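import Mathlib
import Pool.Agent.TH796.AL.Alg5

set_option autoImplicit false
set_option linter.unusedSectionVars false

/-!
# Represented germs of real numbers

The machinery of `Pool.Agent.TH796.AL` for germs of sequences of real numbers in place of fixed real numbers.
-/

namespace Pool.Agent.Run7.h103.UN

open Filter Topology Pool.Agent.TH932.Abs Pool.Agent.TH932.Germs Pool.Agent.TH932.Chi
open Pool.Agent.TH796.AL Pool.Agent.TH932.Words Pool.Agent.TH796.AL.Strong
open Pool.Agent.TH796.AL.Final Pool.Agent.TH796.AL.TwoB Pool.Agent.TH796.AL.Grp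
open Pool.Agent.TH796.AL.Nv Pool.Agent.TH796.AL.Ai Pool.Agent.TH796.AL.Lin Pool.Agent.TH796.AL.Alg

variable {m : ℕ} {B : Base m} {L : ℕ → ℝ}

/-- the real germ `x` is approximated to every order by combinations of finitely many bounded germs, with
characters in the subspace `V` -/
def RepH {m : ℕ} (B : Base m) {L : ℕ → ℝ} (hL : Tendsto L atTop atTop)
    (V : Submodule ℝ (Fin m → ℝ)) (x : HR) : Prop :=
  ∃ (Z : Type) (_ : Fintype Z) (z : Z → GG) (C : ℝ),
    (∀ v j, z j ∈ Sv B L v (-C)) ∧ (∀ j, Sint B L (z j)) ∧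
    ∀ E : ℝ, ∃ (P : Z → Rg m hL) (s : GG), (∀ j g, (P j).coeff g ≠ 0 → g ∈ V) ∧
      s = ∑ j, ev B hL (P j) * z j ∧ x - rho s ∈ SR L E

variable {hL : Tendsto L atTop atTop} {V W : Submodule ℝ (Fin m → ℝ)}

lemma RepH.add {x y : HR} (hx : RepH B hL V x) (hy : RepH B hL V y) : RepH B hL V (x + y) := by
  obtain ⟨Z1, i1, z1, C1, h1, g1, r1⟩ := hx
  obtain ⟨Z2, i2, z2, C2, h2, g2, r2⟩ := hy
  refine ⟨Z1 ⊕ Z2, inferInstance, Sum.elim z1 z2, max C1 C2, ?_, ?_, ?_⟩
  · rintro v (j | j)
    · exact (filt_v (B := B) hL v).anti (neg_le_neg (le_max_left _ _)) (h1 v j)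
    · exact (filt_v (B := B) hL v).anti (neg_le_neg (le_max_right _ _)) (h2 v j)
  · rintro (j | j)
    · exact g1 j
    · exact g2 j
  · intro E
    obtain ⟨P1, s1, v1, e1, a1⟩ := r1 E
    obtain ⟨P2, s2, v2, e2, a2⟩ := r2 E
    refine ⟨Sum.elim P1 P2, s1 + s2, ?_, ?_, ?_⟩
    · rintro (j | j) g hg
      · exact v1 j g hg
      · exact v2 j g hg
    · rw [Fintype.sum_sum_type, e1, e2]
      rfl
    · rw [map_add, add_sub_add_comm]
      exact SR_add hL a1 a2

lemma RepH.mul {x y : HR} (hx : RepH B hL V x) (hy : RepH B hL V y) {C D : ℝ} (hC : x ∈ SR L C)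
    (hD : y ∈ SR L D) : RepH B hL V (x * y) := by
  classical
  obtain ⟨Z1, i1, z1, C1, h1, g1, r1⟩ := hx
  obtain ⟨Z2, i2, z2, C2, h2, g2, r2⟩ := hy
  refine ⟨Z1 × Z2, inferInstance, fun p => z1 p.1 * z2 p.2, C1 + C2, ?_, ?_, ?_⟩
  · rintro v ⟨i, j⟩
    have := (filt_v (B := B) hL v).mul_mem (h1 v i) (h2 v j)
    rw [← neg_add] at this
    exact this
  · rintro ⟨i, j⟩
    exact Sint.mul hL (g1 i) (g2 j)
  · intro E
    obtain ⟨P2, s2, v2, e2, a2⟩ := r2 (max D (E - C))
    have hs2 : rho s2 ∈ SR L D := by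
      have e : rho s2 = y + -(y - rho s2) := by ring
      rw [e]
      exact SR_add hL hD (SR_neg hL (SR_anti hL (le_max_left _ _) a2))
    obtain ⟨P1, s1, v1, e1, a1⟩ := r1 (E - D)
    refine ⟨fun p => P1 p.1 * P2 p.2, s1 * s2, ?_, ?_, ?_⟩
    · rintro ⟨i, j⟩ g hg
      have h3 : g ∈ (P1 i * P2 j).coeff.support := Finsupp.mem_support_iff.2 hg
      have h4 := AddMonoidAlgebra.support_coeff_mul_subset (P1 i) (P2 j) h3
      rw [Finset.mem_add] at h4
      obtain ⟨g1', hg1, g2', hg2, rfl⟩ := h4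
      exact V.add_mem (v1 i g1' (Finsupp.mem_support_iff.1 hg1))
        (v2 j g2' (Finsupp.mem_support_iff.1 hg2))
    · rw [Fintype.sum_prod_type, e1, e2, Finset.sum_mul_sum]
      refine Finset.sum_congr rfl fun i _ => Finset.sum_congr rfl fun j _ => ?_
      rw [map_mul]
      ring
    · have e : x * y - rho (s1 * s2) = x * (y - rho s2) + rho s2 * (x - rho s1) := by
        rw [map_mul]; ring
      rw [e]
      refine SR_add hL ?_ ?_
      · have h3 := SR_mul hL hC (SR_anti hL (le_max_right D (E - C)) a2)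
        rwa [add_sub_cancel] at h3
      · have h3 := SR_mul hL hs2 a1
        rwa [add_sub_cancel] at h3

/-- germs of rational numbers of negligible height -/
lemma repH_germ (V : Submodule ℝ (Fin m → ℝ)) {q : GG} (hq : q ∈ KK L hL) : RepH B hL V (rho q) := by
  classical
  refine ⟨Unit, inferInstance, fun _ => 1, 0, ?_, ?_, fun E => ?_⟩
  · intro v _
    rw [neg_zero]
    have := (filt_v (B := B) hL v).alg_mem (1 : KK L hL)
    simpa using this
  · intro _
    have := Sint.alg (B := B) hL (1 : KK L hL)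
    simpa using this
  · refine ⟨fun _ => AddMonoidAlgebra.single 0 (⟨q, hq⟩ : KK L hL), q, ?_, ?_, ?_⟩
    · intro _ g hg
      rw [AddMonoidAlgebra.coeff_single, Finsupp.single_apply] at hg
      by_cases h : (0 : Fin m → ℝ) = g
      · rw [← h]
        exact V.zero_mem
      · rw [if_neg h] at hg
        exact absurd rfl hg
    · simp only [Finset.univ_unique, Finset.sum_singleton, mul_one]
      rw [ev_single, ch_zero, mul_one]
    · rw [sub_self]
      exact SR_zero E

lemma repH_zero : RepH B hL V 0 := by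
  have := repH_germ (B := B) (hL := hL) V (q := 0) (KK L hL).zero_mem
  rwa [map_zero] at this

lemma repH_one : RepH B hL V 1 := by
  have := repH_germ (B := B) (hL := hL) V (q := 1) (KK L hL).one_mem
  rwa [map_one] at this

lemma RepH.neg {x : HR} (hx : RepH B hL V x) {C : ℝ} (hC : x ∈ SR L C) : RepH B hL V (-x) := by
  have h1 := repH_germ (B := B) (hL := hL) V (q := -1) ((KK L hL).neg_mem (KK L hL).one_mem)
  rw [map_neg, map_one] at h1
  have h2 := h1.mul hx (C := 0) (by
    have := SR_cst hL (-1)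
    rwa [map_neg, map_one] at this) hC
  rwa [neg_one_mul] at h2

/-- numbers represented in the sense of the library -/
lemma RepH.of_repV {x : ℝ} (h : RepV B hL V x) : RepH B hL V (gr fun _ => x) := by
  obtain ⟨Z, i, z, C, h1, h2, h3⟩ := h
  refine ⟨Z, i, z, C, h1, h2, fun E => ?_⟩
  obtain ⟨P, s, g1, g2, g3⟩ := h3 E
  refine ⟨P, gm s, g1, g2, ?_⟩
  rw [rho_gm, gr_sub, mem_SR]
  intro ε hε
  filter_upwards [g3, L_nonneg hL] with n h4 h5
  refine h4.trans (Real.exp_le_exp.2 ?_)
  nlinarith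

/-- the bounded represented germs -/
def RR (B : Base m) (hL : Tendsto L atTop atTop) (V : Submodule ℝ (Fin m → ℝ)) : Subring (OO hL) where
  carrier := {h | RepH B hL V (h : HR)}
  mul_mem' := by
    rintro ⟨a, C, hC⟩ ⟨b, D, hD⟩ ha hb
    exact RepH.mul ha hb hC hD
  one_mem' := repH_one
  add_mem' := fun ha hb => RepH.add ha hb
  zero_mem' := repH_zero
  neg_mem' := by
    rintro ⟨a, C, hC⟩ ha
    exact RepH.neg ha hC

/-- the image in the residue field -/
noncomputable def UR (B : Base m) (hL : Tendsto L atTop atTop) (V : Submodule ℝ (Fin m → ℝ)) :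
    Submonoid (FF hL) :=
  (RR B hL V).toSubmonoid.map (res hL : OO hL →* FF hL)

lemma mem_UR {x : FF hL} : x ∈ UR B hL V ↔ ∃ y : OO hL, RepH B hL V (y : HR) ∧ res hL y = x := Iff.rfl

end Pool.Agent.Run7.h103.UN
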