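import Mathlib
import Pool.Agent.Run7.h103.UN.Lim

set_option autoImplicit false
set_option linter.unusedSectionVars false

/-!
# Linear disjointness for represented germs
-/

namespace Pool.Agent.Run7.h103.UN

open Filter Topology Pool.Agent.TH932.Abs Pool.Agent.TH932.Germs Pool.Agent.TH932.Chi
open Pool.Agent.TH796.AL Pool.Agent.TH932.Words Pool.Agent.TH796.AL.Strong
open Pool.Agent.TH796.AL.Final Pool.Agent.TH796.AL.TwoB Pool.Agent.TH796.AL.Grp
open Pool.Agent.TH796.AL.Nv Pool.Agent.TH796.AL.Ai Pool.Agent.TH796.AL.Lin Pool.Agent.TH796.AL.Alg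
open Pool.Agent.TH796.AL.AlgA

variable {m : ℕ} {B : Base m} {L : ℕ → ℝ} {hL : Tendsto L atTop atTop}

/-- expansions in an independent family of functions -/
lemma expandH {V : Submodule ℝ (Fin m → ℝ)} {s : ℕ} {x : Fin s → HR}
    (hx : ∀ j, RepH B hL V (x j)) :
    ∃ (D : Rg m hL) (_ : D ≠ 0) (A : Type) (_ : Fintype A) (F : A → (Fin m → ℝ) → KK L hL)
      (u : Fin s → A → GG), (∀ a, LF B hL (F a)) ∧ (∀ a g, F a g ≠ 0 → g ∈ V) ∧
      (∀ ρ : A → Rg m hL, ∑ a, act (ρ a) (F a) = 0 → ∀ a, ρ a = 0) ∧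
      (∀ j a, Bd B (L := L) (u j a)) ∧
      ∀ j, Rel B hL F (u j) (rho (ev B hL D) * x j) := by
  classical
  obtain ⟨D, hD, Λ, fΛ, w, X, hw, hLF, hV, hrel⟩ := limH x hx
  obtain ⟨J, fJ, f, hind, D1, H, hD1, hH⟩ := exists_indF (fun q : Fin s × Λ => X q.1 q.2)
  refine ⟨D1 * D, mul_ne_zero hD1 hD, J, fJ, fun a => X (f a).1 (f a).2,
    fun j a => ∑ l, ev B hL (H (j, l) a) * w l, fun a => hLF _ _, fun a g => hV _ _ g, hind,
    fun j a => Bd.sum hL _ _ fun l _ => Bd.mul hL (Bd.ev _) (hw l), fun j => ?_⟩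
  have h1 := rel_smul (hLF j) (fun l => Bd.inf (hw l)) (hrel j) D1
  have h2 := (rel_mat (fun l a => H (j, l) a) (fun a => X (f a).1 (f a).2)
    (fun a => hLF _ _) w (fun l => Bd.inf (hw l))
    (rho (ev B hL D1) * (rho (ev B hL D) * x j))).1 (by
      convert h1 using 2 with l
      exact (hH (j, l)).symm)
  rw [map_mul, map_mul, mul_assoc]
  exact h2

/-- small combinations from relations between the coefficients -/
lemma combH {A : Type} [Fintype A] {F : A → (Fin m → ℝ) → KK L hL} {s : ℕ} {x : Fin s → HR}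
    {D : Rg m hL} (hD : D ≠ 0) {u : Fin s → A → GG}
    (hrel : ∀ j, Rel B hL F (u j) (rho (ev B hL D) * x j))
    (c : Fin s → GG) (hc : ∀ j, Bd B (L := L) (c j)) (h0 : ∀ a, ∑ j, c j * u j a = 0) :
    ∀ E : ℝ, ∑ j, rho (c j) * x j ∈ SR L E := by
  have h1 : ∀ j ∈ (Finset.univ : Finset (Fin s)), Rel B hL F (fun a => c j * u j a)
      (rho (c j) * (rho (ev B hL D) * x j)) := fun j _ =>
    rel_scale (hrel j) (Bd.inf (hc j))
  have h2 := rel_sum Finset.univ h1
  simp only [h0] at h2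
  refine small_div hD (B := B) fun E => ?_
  have h3 := small_of_rel h2 E
  have e1 : rho (ev B hL D) * ∑ j, rho (c j) * x j
      = ∑ j, rho (c j) * (rho (ev B hL D) * x j) := by
    rw [Finset.mul_sum]
    exact Finset.sum_congr rfl fun j _ => by ring
  rw [e1]
  exact h3

/-- **Linear disjointness over the bounded germs.** -/
theorem lin_disjH {V W : Submodule ℝ (Fin m → ℝ)} (hVW : Disjoint V W) {s t : ℕ}
    (x : Fin s → HR) (y : Fin t → HR) (hx : ∀ j, RepH B hL V (x j)) (hy : ∀ k, RepH B hL W (y k))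
    (hxb : ∀ j, ∃ C : ℝ, x j ∈ SR L C)
    (hxi : ∀ c : Fin s → RG hL B, (∀ E : ℝ, ∑ j, rho (c j : GG) * x j ∈ SR L E) → ∀ j, c j = 0)
    (hyi : ∀ c : Fin t → RG hL B, (∀ E : ℝ, ∑ j, rho (c j : GG) * y j ∈ SR L E) → ∀ j, c j = 0)
    (γ : Fin s → Fin t → RG hL B)
    (h0 : ∀ E : ℝ, ∑ j, ∑ k, rho (γ j k : GG) * (x j * y k)
      ∈ SR L E) : ∀ j k, γ j k = 0 := by
  classical
  obtain ⟨p, hpV, hpW⟩ := exists_proj hVW
  obtain ⟨D, hD, A, fA, F, u, hFL, hFV, hFi, hu, hFr⟩ := expandH (B := B) (hL := hL) hx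
  obtain ⟨D', hD', A', fA', G, v, hGL, hGW, hGi, hv, hGr⟩ := expandH (B := B) (hL := hL) hy
  set δ : HR := rho (ev B hL D) with hδ
  set δ' : HR := rho (ev B hL D') with hδ'
  have hδb : ∃ C : ℝ, δ ∈ SR L C := by
    obtain ⟨C, hC⟩ := (Bd.ev (B := B) D).2 none
    exact ⟨C, SR_rho hC⟩
  have hδb' : ∃ C : ℝ, δ' ∈ SR L C := by
    obtain ⟨C, hC⟩ := (Bd.ev (B := B) D').2 none
    exact ⟨C, SR_rho hC⟩
  have hxS : ∀ j, ∃ C : ℝ, δ * x j ∈ SR L C := by
    intro j
    obtain ⟨C, hC⟩ := hδb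
    obtain ⟨C', hC'⟩ := hxb j
    exact ⟨_, SR_mul hL hC hC'⟩
  have h1 : ∀ q : A × A', ∑ j, ∑ k, (γ j k : GG) * (u j q.1 * v k q.2) = 0 := by
    have h2 : ∀ j ∈ (Finset.univ : Finset (Fin s)),
        Rel B hL (fun q : A × A' => tens p (F q.1) (G q.2))
        (fun q => ∑ k, (γ j k : GG) * (u j q.1 * v k q.2))
        (∑ k, rho (γ j k : GG) * ((δ * x j) * (δ' * y k))) :=
      fun j _ => rel_sum Finset.univ fun k _ =>
        rel_scale (rel_mul hpV hpW hFL hGL hFV hGW (fun a => hu j a) (fun b => hv k b) (hxS j)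
          (hFr j) (hGr k)) (Bd.inf (γ j k).2)
    have h3 := rel_sum Finset.univ h2
    refine rel_indF (fun q => LF.tens (hFL _) (hGL _))
      (fun ρ hρ => tens_ind Pool.Agent.TH979.ALN.indep hpV hpW hFV hGW hFi hGi ρ hρ)
      (fun q => Bd.sum hL _ _ fun j _ => Bd.sum hL _ _ fun k _ =>
        Bd.mul hL (γ j k).2 (Bd.mul hL (hu _ _) (hv _ _))) kpa_thm su_thm
      (rel_mod h3 fun E => ?_)
    obtain ⟨C, hC⟩ := hδb
    obtain ⟨C', hC'⟩ := hδb'
    have h4 := SR_mul hL (SR_mul hL hC hC') (SR_neg hL (h0 (E - (C + C'))))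
    rw [add_sub_cancel] at h4
    have e1 : 0 - ∑ j, ∑ k, rho (γ j k : GG) * ((δ * x j)
        * (δ' * y k))
        = δ * δ' * -∑ j, ∑ k, rho (γ j k : GG) * (x j * y k) := by
      rw [zero_sub, mul_neg, Finset.mul_sum]
      congr 1
      refine Finset.sum_congr rfl fun j _ => ?_
      rw [Finset.mul_sum]
      exact Finset.sum_congr rfl fun k _ => by ring
    rw [e1]
    exact h4
  -- first step
  have h2 : ∀ b j, ∑ k, (γ j k : GG) * v k b = 0 := by
    intro b
    set c : Fin s → RG hL B := fun j => ⟨∑ k, (γ j k : GG) * v k b,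
      Bd.sum hL _ _ fun k _ => Bd.mul hL (γ j k).2 (hv k b)⟩ with hc
    have h3 := combH (B := B) hD hFr (fun j => (c j : GG)) (fun j => (c j).2) (by
      intro a
      rw [← h1 (a, b)]
      refine Finset.sum_congr rfl fun j _ => ?_
      rw [hc]
      simp only [Finset.sum_mul]
      exact Finset.sum_congr rfl fun k _ => by ring)
    have h4 := hxi c h3
    intro j
    exact congrArg (fun s : RG hL B => (s : GG)) (h4 j)
  intro j k
  have h3 := combH (B := B) hD' hGr (fun k => (γ j k : GG)) (fun k => (γ j k).2) (fun b => h2 b j)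
  exact hyi (fun k => γ j k) h3 k


/-- relations in the residue field -/
lemma rel_zeroH {s : ℕ} (c : Fin s → RG hL B) (x : Fin s → OO hL) :
    ∑ j, phi hL B (c j) * res hL (x j) = 0 ↔
      ∀ E : ℝ, ∑ j, rho (c j : GG) * (x j : HR) ∈ SR L E := by
  have h1 : ∑ j, phi hL B (c j) * res hL (x j) = res hL (∑ j, phi0 hL B (c j) * x j) := by
    rw [map_sum]
    exact Finset.sum_congr rfl fun j _ => by rw [map_mul]; rfl
  rw [h1, res_eq_zero, AddSubmonoidClass.coe_finsetSum]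
  rfl

lemma lift_resH {s t : ℕ} (γ : Fin s → Fin t → RG hL B) (x : Fin s → OO hL) (y : Fin t → OO hL)
    (h : ∑ j, ∑ k, phi hL B (γ j k) * (res hL (x j) * res hL (y k)) = 0) :
    ∀ E : ℝ, ∑ j, ∑ k, rho (γ j k : GG) * ((x j : HR) * (y k : HR)) ∈ SR L E := by
  have h2 : res hL (∑ j, ∑ k, phi0 hL B (γ j k) * (x j * y k)) = 0 := by
    rw [← h, map_sum]
    refine Finset.sum_congr rfl fun j _ => ?_
    rw [map_sum]
    refine Finset.sum_congr rfl fun k _ => ?_
    rw [map_mul, map_mul]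
    rfl
  intro E
  have h3 := (res_eq_zero hL).1 h2 E
  rw [AddSubmonoidClass.coe_finsetSum] at h3
  simp only [AddSubmonoidClass.coe_finsetSum] at h3
  exact h3

lemma keyH {τ : Type} [Fintype τ] (f : τ ≃ Fin (Fintype.card τ)) (z : τ → OO hL)
    (hz : LI (R := RG hL B) fun i => res hL (z i))
    (c : Fin (Fintype.card τ) → RG hL B)
    (hc : ∀ E : ℝ, ∑ j, rho (c j : GG) * (z (f.symm j) : HR) ∈ SR L E) : ∀ j, c j = 0 :=
  keyA (phi hL B) f (fun i => res hL (z i)) 1 one_ne_zero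
    (fun j => res hL (z (f.symm j))) (fun i => by
      rw [Equiv.symm_apply_apply, one_mul]) hz c ((rel_zeroH c fun j => z (f.symm j)).2 hc)

theorem ldH {V W : Submodule ℝ (Fin m → ℝ)} (hVW : Disjoint V W) :
    LD (RG hL B) (UR B hL V) (UR B hL W) := by
  classical
  intro ι κ _ _ x' y' hx' hy' hxi hyi γ h0
  choose x hx hxx using fun i => mem_UR.1 (hx' i)
  choose y hy hyy using fun i => mem_UR.1 (hy' i)
  obtain rfl : (fun i => res hL (x i)) = x' := funext hxx
  obtain rfl : (fun i => res hL (y i)) = y' := funext hyy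
  set e := Fintype.equivFin ι
  set e' := Fintype.equivFin κ
  have h1 := lin_disjH (B := B) (hL := hL) hVW (fun j => (x (e.symm j) : HR))
    (fun j => (y (e'.symm j) : HR)) (fun j => hx _) (fun j => hy _) (fun j => (x (e.symm j)).2)
    (keyH e x hxi) (keyH e' y hyi)
    (fun j k => γ (e.symm j) (e'.symm k)) (lift_resH _ (fun j => x (e.symm j))
      (fun j => y (e'.symm j)) (by
      exact reA (phi hL B) e e' (fun i => res hL (x i)) (fun i => res hL (y i)) 1 1
        (fun j => res hL (x (e.symm j))) (fun i => by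
          rw [Equiv.symm_apply_apply, one_mul]) (fun j => res hL (y (e'.symm j))) (fun i => by
          change res hL (y (e'.symm (e' i))) = _
          rw [Equiv.symm_apply_apply, one_mul]) γ h0))
  intro i k
  have h2 := h1 (e i) (e' k)
  simpa using h2

/-- **The algebraic closures meet in the algebraic closure of the bounded germs.** -/
theorem alg_botH {V W : Submodule ℝ (Fin m → ℝ)} (hVW : Disjoint V W) {z : FF hL}
    (h1 : IsAlgebraic (Algebra.adjoin (RG hL B) (UR B hL V : Set (FF hL))) z)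
    (h2 : IsAlgebraic (Algebra.adjoin (RG hL B) (UR B hL W : Set (FF hL))) z) :
    IsAlgebraic (RG hL B) z :=
  alg_inter (ldH hVW) h1 h2

end Pool.Agent.Run7.h103.UN
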