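import Mathlib
import Pool.Agent.Run7.h103.UN.Ld
import Pool.Agent.Run7.h103.PF.Key

set_option autoImplicit false
set_option linter.unusedSectionVars false

/-!
# Sequences of numbers with predicted digits
-/

namespace Pool.Agent.Run7.h103.UN

section

open Filter Topology Pool.Agent.TH932.Abs Pool.Agent.TH932.Germs Pool.Agent.TH932.Chi
open Pool.Agent.TH932.Words Pool.Agent.TH932.Scale Finset Pool.Agent.R473.TB

/-- the terms of a sequence of numbers with predicted digits -/
theorem termsS (X : AC) {N : ℕ → ℕ} (hLN : ∀ n, X.L n = (N n : ℝ)) (D : ℕ → ℕ → ℤ)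
    (hD : ∀ n k, |D n k| ≤ (X.b : ℤ) - 1) (c0 : ℤ)
    (Ks : ℕ → ℕ) (hK : near X.L (fun n => (Ks n : ℝ)) 0)
    (out : ∀ n, Fin (Ks n) → ℤ) (step : ∀ n, Fin (Ks n) → ℤ → Fin (Ks n))
    (s0 : ∀ n, Fin (Ks n))
    (herr : ∀ i : ℕ, ∃ r : ℕ, ∀ᶠ n in (UU : Filter ℕ), ((Ico (N n) (2 ^ i * N n)).filter
      (fun k => out n (st (step n) (s0 n) (D n) k) ≠ D n k)).card ≤ r) (E : ℝ) :
    ∃ (r : ℕ) (c : Fin r → ℕ → ℚ) (m : Fin r → ℕ → ℕ),
      (∀ i, gm (c i) ∈ X.K) ∧ (∀ i, ∃ B : ℝ, ∀ᶠ n in (UU : Filter ℕ), (m i n : ℝ) ≤ B * X.L n) ∧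
      ∀ᶠ n in (UU : Filter ℕ), |c0 + V X.b (D n) - ((((Zd X.b (D n) (N n) : ℤ) : ℚ) / (X.b : ℚ) ^ N n +
        ∑ i, c i n / (X.b : ℚ) ^ m i n : ℚ) : ℝ)| ≤ Real.exp (-(E * X.L n)) := by
  classical
  have hb := X.hb
  have hb0 := X.b0
  have hlb := X.logb
  have hD' : ∀ n k, |D n k| ≤ (X.b : ℤ) := fun n k => (hD n k).trans (by linarith)
  obtain ⟨i, hi⟩ : ∃ i : ℕ, |E| + 2 ≤ 2 ^ i * Real.log X.b := by
    obtain ⟨i, hi⟩ := pow_unbounded_of_one_lt ((|E| + 2) / Real.log X.b) (one_lt_two (α := ℝ))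
    refine ⟨i, ?_⟩
    rw [div_lt_iff₀ hlb] at hi
    exact hi.le
  obtain ⟨r, hr⟩ := herr i
  set S : ℕ → Finset ℕ := fun n => (Ico (N n) (2 ^ i * N n)).filter
      (fun k => out n (st (step n) (s0 n) (D n) k) ≠ D n k) with hS
  have hlist : ∀ n, ∃ k : Fin r → Option ℕ, (∀ j s, k j = some s → s ∈ S n) ∧
      ((S n).card ≤ r → ∀ f : ℕ → ℝ, ∑ s ∈ S n, f s = ∑ j, (k j).elim 0 f) := by
    intro n
    by_cases h : (S n).card ≤ r
    · obtain ⟨k, h1, h2⟩ := listing r (S n) h
      exact ⟨k, h1, fun _ => h2⟩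
    · exact ⟨fun _ => none, fun j s h => by simp at h, fun h' => absurd h' h⟩
  choose kk hk1 hk2 using hlist
  choose mr dr hr1 hr2 hr3 hr4 using fun n k => rho_rat (out n) (step n) (s0 n) (D n) hb (hD' n) k
  choose mh dh hh1 hh2 hh3 hh4 using fun n => hk_rat (out n) (step n) (s0 n) (D n) hb (N n)
  have hT : near X.L (fun n => ((2 * Ks n + 5 : ℕ) : ℝ)) 0 := by
    have h1 := (hK.const_mul X.tL 2).add (near_const X.tL 5)
    simp only [mul_zero, add_zero] at h1
    refine h1.congr (Eventually.of_forall fun n => ?_)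
    push_cast
    ring
  refine ⟨r + 2, Fin.cons (fun _ => (c0 : ℚ)) (Fin.cons (fun n => (mh n : ℚ) / dh n)
    (fun j n => (kk n j).elim 0 (fun k => (mr n k : ℚ) / dr n k))),
    Fin.cons (fun _ => 0) (Fin.cons N (fun j n => (kk n j).elim 0 id)), ?_, ?_, ?_⟩
  · intro j
    induction j using Fin.cases with
    | zero => rw [Fin.cons_zero]; exact const_mem_K X _
    | succ j =>
      rw [Fin.cons_succ]
      induction j using Fin.cases with
      | zero =>
        rw [Fin.cons_zero]
        exact mem_K X hT hh3 (fun n => by rw [abs_of_pos (hh1 n)]; exact hh2 n)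
          (fun n => (hh1 n).ne')
      | succ j =>
        rw [Fin.cons_succ]
        have e : (fun n => (kk n j).elim 0 (fun k => (mr n k : ℚ) / dr n k)) =
            fun n => (((kk n j).elim 0 (fun k => mr n k) : ℤ) : ℚ) /
              (((kk n j).elim 1 (fun k => dr n k) : ℤ) : ℚ) := by
          funext n
          cases kk n j <;> simp
        rw [e]
        have hbz : (1 : ℤ) ≤ X.b := by exact_mod_cast (by omega : 1 ≤ X.b)
        refine mem_K X hT (fun n => ?_) (fun n => ?_) (fun n => ?_)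
        · cases kk n j with
          | none => simp only [Option.elim_none, abs_zero]; positivity
          | some k => exact hr3 n k
        · cases kk n j with
          | none => simp only [Option.elim_none, abs_one]; exact one_le_pow₀ hbz
          | some k =>
            simp only [Option.elim_some]
            rw [abs_of_pos (hr1 n k)]; exact hr2 n k
        · cases kk n j with
          | none => simp
          | some k => exact (hr1 n k).ne'
  · intro j
    induction j using Fin.cases with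
    | zero =>
      refine ⟨0, Eventually.of_forall fun n => ?_⟩
      rw [Fin.cons_zero]; simp
    | succ j =>
      rw [Fin.cons_succ]
      induction j using Fin.cases with
      | zero =>
        refine ⟨1, Eventually.of_forall fun n => ?_⟩
        rw [Fin.cons_zero, one_mul, hLN]
      | succ j =>
        rw [Fin.cons_succ]
        refine ⟨2 ^ i, Eventually.of_forall fun n => ?_⟩
        rw [hLN]
        cases h : kk n j with
        | none => simp only [Option.elim_none, Nat.cast_zero]; positivity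
        | some k =>
          simp only [Option.elim_some, id_eq]
          have h1 := hk1 n j k h
          rw [hS, mem_filter, mem_Ico] at h1
          exact_mod_cast h1.1.2.le
  · filter_upwards [hr, ev_of_atTop (X.tL.eventually_ge_atTop 1)] with n h1 h2
    rw [hLN] at h2 ⊢
    have hN1 : 1 ≤ N n := by exact_mod_cast h2
    have h3 : N n ≤ 2 ^ i * N n := Nat.le_mul_of_pos_left _ (by positivity)
    have h4 := Pool.Agent.R473.TB.key (out n) (step n) (s0 n) (D n) hb (hD' n) (N n) h3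
    have h5 := V_split hb (hD' n) (2 ^ i * N n)
    have h6 := hk2 n h1 (fun k => rho (out n) (step n) (s0 n) (D n) X.b k / (X.b : ℝ) ^ k)
    have h7 := V_abs hb (e := fun k => D n (2 ^ i * N n + k)) fun k => hD' n _
    have h8 := hk_abs (out n) (step n) (s0 n) (D n) hb (2 ^ i * N n)
    have e1 : ((((Zd X.b (D n) (N n) : ℤ) : ℚ) / (X.b : ℚ) ^ N n + ∑ j : Fin (r + 2),
        (Fin.cons (fun _ => (c0 : ℚ)) (Fin.cons (fun n => (mh n : ℚ) / dh n)
          (fun j n => (kk n j).elim 0 (fun k => (mr n k : ℚ) / dr n k))) :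
            Fin (r + 2) → ℕ → ℚ) j n / (X.b : ℚ) ^ ((Fin.cons (fun _ => 0) (Fin.cons N
            (fun j n => (kk n j).elim 0 id)) : Fin (r + 2) → ℕ → ℕ) j n) : ℚ) : ℝ) =
        (Zd X.b (D n) (N n) : ℝ) / (X.b : ℝ) ^ N n + (c0 + (hk (out n) (step n) (s0 n) (D n) X.b (N n) /
          (X.b : ℝ) ^ N n + ∑ s ∈ S n, rho (out n) (step n) (s0 n) (D n) X.b s / (X.b : ℝ) ^ s)) := by
      rw [Fin.sum_univ_succ, Fin.sum_univ_succ]
      simp only [Fin.cons_zero, Fin.cons_succ]
      push_cast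
      rw [hh4, h6]
      congr 1
      congr 1
      · simp
      · congr 1
        refine sum_congr rfl fun j _ => ?_
        cases kk n j with
        | none => simp
        | some k =>
          simp only [Option.elim_some, id_eq]
          rw [hr4]
          push_cast
          rfl
    rw [e1, h5, h4, Zd_eq hb]
    have e2 : (c0 : ℝ) + (∑ k ∈ range (N n), (D n k : ℝ) / (X.b : ℝ) ^ (k + 1) +
        hk (out n) (step n) (s0 n) (D n) X.b (N n) / (X.b : ℝ) ^ N n -
        hk (out n) (step n) (s0 n) (D n) X.b (2 ^ i * N n) / (X.b : ℝ) ^ (2 ^ i * N n) +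
        ∑ k ∈ (Ico (N n) (2 ^ i * N n)).filter (fun k => out n (st (step n) (s0 n) (D n) k) ≠ D n k),
        rho (out n) (step n) (s0 n) (D n) X.b k / (X.b : ℝ) ^ k +
        V X.b (fun k => D n (2 ^ i * N n + k)) / (X.b : ℝ) ^ (2 ^ i * N n)) -
        (∑ j ∈ range (N n), (D n j : ℝ) / (X.b : ℝ) ^ (j + 1) +
        (c0 + (hk (out n) (step n) (s0 n) (D n) X.b (N n) / (X.b : ℝ) ^ N n +
        ∑ s ∈ S n, rho (out n) (step n) (s0 n) (D n) X.b s / (X.b : ℝ) ^ s))) =
        (V X.b (fun k => D n (2 ^ i * N n + k)) - hk (out n) (step n) (s0 n) (D n) X.b (2 ^ i * N n)) /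
          (X.b : ℝ) ^ (2 ^ i * N n) := by
      rw [hS]
      ring
    rw [e2, abs_div, abs_of_pos (by positivity : (0 : ℝ) < (X.b : ℝ) ^ (2 ^ i * N n))]
    have h9 : |V X.b (fun k => D n (2 ^ i * N n + k)) -
        hk (out n) (step n) (s0 n) (D n) X.b (2 ^ i * N n)| ≤ 4 :=
      (abs_sub _ _).trans (by linarith)
    have h10 : (X.b : ℝ) ^ (2 ^ i * N n) = Real.exp (2 ^ i * Real.log X.b * N n) := by
      rw [← Real.rpow_natCast, Real.rpow_def_of_pos hb0]
      push_cast
      ring_nf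
    rw [div_le_iff₀ (by positivity), h10, ← Real.exp_add]
    refine h9.trans ?_
    have h11 : (2 : ℝ) * N n ≤ -(E * N n) + 2 ^ i * Real.log X.b * N n := by
      have a1 : (|E| + 2) * (N n : ℝ) ≤ 2 ^ i * Real.log X.b * N n := by gcongr
      have a2 : E * (N n : ℝ) ≤ |E| * N n := by
        have := le_abs_self E
        gcongr
      linarith
    have h12 : (4 : ℝ) ≤ Real.exp (2 * N n) := by
      have a1 := Real.add_one_le_exp (1 : ℝ)
      have a2 : Real.exp 2 = Real.exp 1 * Real.exp 1 := by rw [← Real.exp_add]; norm_num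
      have a3 : Real.exp 2 ≤ Real.exp (2 * N n) := Real.exp_le_exp.2 (by linarith)
      have a4 : (4 : ℝ) ≤ Real.exp 1 * Real.exp 1 := by nlinarith
      linarith
    exact h12.trans (Real.exp_le_exp.2 h11)

end

open Filter Topology Pool.Agent.TH932.Abs Pool.Agent.TH932.Germs Pool.Agent.TH932.Chi
open Pool.Agent.TH932.Words Pool.Agent.TH932.Scale Finset
open Pool.Agent.TH796.AL Pool.Agent.TH796.AL.TwoB Pool.Agent.TH796.AL.Ai Pool.Agent.TH796.AL.Grp

/-- integers of negligible size -/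
lemma repH_int {m : ℕ} (B : Base m) {L : ℕ → ℝ} (hL : Tendsto L atTop atTop) (V : Submodule ℝ (Fin m → ℝ)) {q : ℕ → ℚ}
    {d : ℕ → ℤ} (hd : Negl L d) (p : ℕ → ℤ) (hp : Negl L p) (hd0 : ∀ n, d n ≠ 0)
    (hq : ∀ n, q n = (p n : ℚ) / d n) : RepH B hL V (gr fun n => (q n : ℝ)) := by
  have h1 : gm q ∈ KK L hL := ⟨p, d, hp, hd, Eventually.of_forall hd0, by
    congr 1; funext n; exact hq n⟩
  have h2 := repH_germ (B := B) (hL := hL) V h1
  rwa [rho_gm] at h2

section

variable {m : ℕ} (B : Base m) {b : ℕ} (hb : 2 ≤ b) {e : Fin m → ℕ} (hbe : b = ∏ i, B.P i ^ e i)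
  {L : ℕ → ℝ} (hL : Tendsto L atTop atTop)

include hb hbe

/-- a block and few terms -/
theorem repH_add_terms {V : Submodule ℝ (Fin m → ℝ)} (hV : (fun i => (e i : ℝ)) ∈ V) {x : ℕ → ℝ}
    (z : ℕ → ℤ) (h : ℕ → ℕ) {H : ℝ}
    (hH : 0 ≤ H) (hz : ∀ n, |z n| ≤ (b : ℤ) ^ h n) (hh : ∀ n, (h n : ℝ) ≤ H * L n)
    (hE : ∀ E : ℝ, ∃ (r : ℕ) (c : Fin r → ℕ → ℚ) (μ : Fin r → ℕ → ℕ),
      (∀ i, gm (c i) ∈ KK L hL) ∧
      (∀ i, ∃ B' : ℝ, ∀ᶠ n in (UU : Filter ℕ), (μ i n : ℝ) ≤ B' * L n) ∧
      ∀ᶠ n in (UU : Filter ℕ), |x n - (((z n : ℚ) / (b : ℚ) ^ h n +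
        ∑ i, c i n / (b : ℚ) ^ μ i n : ℚ) : ℝ)| ≤ Real.exp (-(E * L n))) :
    RepH B hL V (gr x) := by
  classical
  have hlb : 0 < Real.log b := Real.log_pos (by exact_mod_cast (by omega : 1 < b))
  set D : ℝ := H * Real.log b with hD
  have hD0 : 0 ≤ D := by positivity
  have hhD : ∀ n, (h n : ℝ) * Real.log b ≤ D * L n := by
    intro n
    have h1 := hh n
    calc (h n : ℝ) * Real.log b ≤ H * L n * Real.log b := by gcongr
      _ = D * L n := by rw [hD]; ring
  have hone : (1 : GG) = gm (fun n => (((fun _ => 1 : ℕ → ℤ) n : ℤ) : ℚ) /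
      (b : ℚ) ^ ((fun _ => 0 : ℕ → ℕ) n)) := by
    rw [← gm_one]
    congr 1
    funext n
    simp
  have hL0 : ∀ n, 0 ≤ D * L n := fun n => by
    have h1 := hhD n
    have h2 : 0 ≤ (h n : ℝ) * Real.log b := by positivity
    linarith
  have h0 : ∀ n : ℕ, (((fun _ => 0 : ℕ → ℕ) n : ℕ) : ℝ) * Real.log b ≤ D * L n := by
    intro n
    simpa using hL0 n
  refine ⟨Option Unit, inferInstance, fun j => match j with
    | none => 1
    | some _ => gm (fun n => (z n : ℚ) / (b : ℚ) ^ h n), D, ?_, ?_, fun E => ?_⟩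
  · intro v j
    match j with
    | none =>
      change (1 : GG) ∈ _
      rw [hone]
      exact Pool.Agent.TH914.AL.block_mem B hbe hb hL hD0 h0 (fun n => by simp) v
    | some () => exact Pool.Agent.TH914.AL.block_mem B hbe hb hL hD0 hhD hz v
  · intro j
    match j with
    | none =>
      change Sint B L (1 : GG)
      rw [hone]
      exact Pool.Agent.TH914.AL.block_sint B hbe hb hL hD0 h0
    | some () => exact Pool.Agent.TH914.AL.block_sint B hbe hb hL hD0 (N := z) hhD
  · obtain ⟨r, c, μ, hc, hμ, hE'⟩ := hE E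
    have k3 : ∀ i : Fin r, ∃ (κ : KK L hL) (g : Fin m → ℝ), g ∈ V ∧
        gm (fun n => c i n / (b : ℚ) ^ μ i n) = (κ : GG) * ch B hL g := by
      intro i
      obtain ⟨B', hB'⟩ := hμ i
      obtain ⟨t, ht0, _, ht⟩ := exists_st (L := L) hL (a := fun n => (μ i n : ℝ)) (A := B') (by
        filter_upwards [hB'] with n hn using ⟨by positivity, hn⟩)
      obtain ⟨κ, hκ⟩ := Pool.Agent.Run7.h103.PF.pow_ch B hb hbe hL ht
      refine ⟨⟨gm (c i), hc i⟩ * κ, fun i => -((e i : ℝ) * t), ?_, ?_⟩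
      · have h5 := V.smul_mem (-t) hV
        convert h5 using 1
        funext j
        simp
        ring
      · have e1 : gm (fun n => c i n / (b : ℚ) ^ μ i n) =
            gm (c i) * gm (fun n => 1 / (b : ℚ) ^ μ i n) := by
          rw [gm_mul]; congr 1; funext n; ring
        rw [e1, hκ]
        push_cast
        ring
    choose κ g hg hκ using k3
    refine ⟨fun j => match j with
      | none => ∑ i, AddMonoidAlgebra.single (g i) (κ i)
      | some _ => 1, gm fun n => (z n : ℚ) / (b : ℚ) ^ h n + ∑ i, c i n / (b : ℚ) ^ μ i n, ?_, ?_, ?_⟩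
    · intro j g' hg'
      match j with
      | none =>
        change (∑ i, (AddMonoidAlgebra.single (g i) (κ i) : Rg m hL)).coeff g' ≠ 0 at hg'
        by_contra hcon
        apply hg'
        have h3 : ∀ s : Finset (Fin r),
            (∑ i ∈ s, (AddMonoidAlgebra.single (g i) (κ i) : Rg m hL)).coeff g' = 0 := by
          intro s
          induction s using Finset.induction_on with
          | empty => simp
          | insert a s ha ih =>
            rw [Finset.sum_insert ha, AddMonoidAlgebra.coeff_add, Finsupp.add_apply, ih, add_zero,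
              AddMonoidAlgebra.coeff_single, Finsupp.single_eq_of_ne]
            intro h4
            apply hcon
            rw [h4]
            exact hg a
        exact h3 _
      | some () =>
        change ((1 : Rg m hL)).coeff g' ≠ 0 at hg'
        rw [AddMonoidAlgebra.one_def, AddMonoidAlgebra.coeff_single] at hg'
        have : g' = 0 := by
          by_contra hne
          exact hg' (Finsupp.single_eq_of_ne hne)
        rw [this]
        exact V.zero_mem
    · rw [Fintype.sum_option]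
      simp only [Finset.univ_unique, Finset.sum_singleton, map_one, one_mul, mul_one, map_sum]
      have hsum : ∀ (T : Finset (Fin r)), ∑ i ∈ T, ev B hL (AddMonoidAlgebra.single (g i) (κ i)) =
          gm (fun n => ∑ i ∈ T, c i n / (b : ℚ) ^ μ i n) := by
        intro T
        induction T using Finset.induction_on with
        | empty => simp [← gm_zero]
        | insert a T ha ih =>
          rw [Finset.sum_insert ha, ih, Pool.Agent.TH914.AL.ev_single1, ← hκ, gm_add]
          congr 1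
          funext n
          rw [Finset.sum_insert ha]
      rw [hsum, gm_add]
      congr 1
      funext n
      ring
    · rw [rho_gm, gr_sub, mem_SR]
      intro ε hε
      filter_upwards [hE', L_nonneg hL] with n h4 h5
      refine h4.trans (Real.exp_le_exp.2 ?_)
      nlinarith

/-- numbers whose digits are predicted up to few errors -/
theorem repH_aut {V : Submodule ℝ (Fin m → ℝ)} (hV : (fun i => (e i : ℝ)) ∈ V)
    {N : ℕ → ℕ} (hLN : Tendsto (fun n => (N n : ℝ)) atTop atTop) (D : ℕ → ℕ → ℤ)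
    (hD : ∀ n k, |D n k| ≤ (b : ℤ) - 1)
    (Ks : ℕ → ℕ) (hK : near (fun n => (N n : ℝ)) (fun n => (Ks n : ℝ)) 0)
    (out : ∀ n, Fin (Ks n) → ℤ) (step : ∀ n, Fin (Ks n) → ℤ → Fin (Ks n))
    (s0 : ∀ n, Fin (Ks n))
    (herr : ∀ i : ℕ, ∃ r : ℕ, ∀ᶠ n in (UU : Filter ℕ), ((Ico (N n) (2 ^ i * N n)).filter
      (fun k => out n (Pool.Agent.R473.TB.st (step n) (s0 n) (D n) k) ≠ D n k)).card ≤ r) :
    RepH B hLN V (gr fun n => Pool.Agent.R473.TB.V b (D n)) := by
  have h := termsS (X := ⟨b, b + 1, hb, by omega, ⟨1, -1, by push_cast; ring⟩, b, fun t => (-t, 0),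
    Or.inl ⟨rfl, rfl⟩, fun n => (N n : ℝ), hLN⟩) (N := N) (fun n => rfl) D hD 0 Ks hK out step s0
    herr
  simp only [Int.cast_zero, zero_add] at h
  refine repH_add_terms B hb hbe hLN hV (fun n => Pool.Agent.R473.TB.Zd b (D n) (N n)) N (H := 1)
    zero_le_one (fun n => (Pool.Agent.R473.TB.Zd_abs hb (hD n) (N n)).trans (by linarith))
    (fun n => by rw [one_mul]) h

/-- sequences of numbers whose digits, up to a word of linear complexity, are predicted up to few
errors -/
theorem repH_pred {V : Submodule ℝ (Fin m → ℝ)} (hV : (fun i => (e i : ℝ)) ∈ V)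
    {N : ℕ → ℕ} (hN2 : ∀ n, 2 ≤ N n)
    (hL : Tendsto (fun n => (N n : ℝ)) atTop atTop) {u : ℕ → ℤ} (hu : ∀ k, 0 ≤ u k ∧ u k < b)
    {C : ℝ} (hC : ∀ n : ℕ, 1 ≤ n → (Pool.Agent.R473.TB.blocks u n : ℝ) ≤ C * n) (x : ℕ → ℝ)
    (hx : Negl (fun n => (N n : ℝ)) fun n => ⌊x n⌋)
    (Ks : ℕ → ℕ) (hK : ∀ n : ℕ, (n : ℝ) * Ks n ≤ N n)
    (out : ∀ n, Fin (Ks n) → ℤ) (step : ∀ n, Fin (Ks n) → ℤ → Fin (Ks n))
    (s0 : ∀ n, Fin (Ks n)) (c : ℕ)
    (herr : ∀ n, ∀ i ≤ n, Pool.Agent.R473.TB.errs (out n) (step n) (s0 n)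
        (fun k => Pool.Agent.R473.TB.digit b (x n) k - u k) (2 ^ i * N n) ≤
      Pool.Agent.R473.TB.errs (out n) (step n) (s0 n)
        (fun k => Pool.Agent.R473.TB.digit b (x n) k - u k) (N n) + c * i) :
    RepH B hL V (gr x) := by
  have hy := RepH.of_repV (Pool.Agent.Run7.h103.PF.repV_word B hb hbe hV hN2 hL hu hC)
  have hz := repH_aut B hb hbe hV hL (fun n k => Pool.Agent.R473.TB.digit b (x n) k - u k)
    (fun n k => by
      have h1 := Pool.Agent.R473.TB.digit_mem hb (x n) k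
      have h2 := hu k
      show |Pool.Agent.R473.TB.digit b (x n) k - u k| ≤ (b : ℤ) - 1
      rw [abs_le]
      constructor <;> linarith [h1.1, h1.2, h2.1, h2.2]) Ks (by
      intro ε hε
      obtain ⟨n0, hn0⟩ := exists_nat_gt (1 / ε)
      refine ev_of_atTop ?_
      filter_upwards [eventually_ge_atTop n0, eventually_ge_atTop 1] with n h1 h2
      show |((Ks n : ℕ) : ℝ) - 0 * (N n : ℝ)| ≤ ε * (N n : ℝ)
      rw [zero_mul, sub_zero, abs_of_nonneg (by positivity)]
      have h3 := hK n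
      have h4 : (n0 : ℝ) ≤ n := by exact_mod_cast h1
      have h5 : 1 < ε * n := by
        rw [div_lt_iff₀ hε] at hn0
        nlinarith
      have h6 : (0 : ℝ) ≤ Ks n := by positivity
      calc (Ks n : ℝ) ≤ (ε * n) * Ks n := by nlinarith
        _ = ε * (n * Ks n) := by ring
        _ ≤ ε * N n := by gcongr) out step s0 (by
      intro i
      refine ⟨c * i, ev_of_atTop ?_⟩
      filter_upwards [eventually_ge_atTop i] with n hn
      have h1 := herr n i hn
      have h2 : N n ≤ 2 ^ i * N n := Nat.le_mul_of_pos_left _ (by positivity)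
      rw [Pool.Agent.R473.TB.errs_Ico _ _ _ _ h2] at h1
      omega)
  have hf := repH_int B hL V (q := fun n => (⌊x n⌋ : ℚ)) (d := fun _ => 1) (Negl.one hL)
    (fun n => ⌊x n⌋) hx (fun n => one_ne_zero) (fun n => by simp)
  have h3 := hf.add (hy.add hz)
  rw [gr_add, gr_add] at h3
  convert h3 using 2
  funext n
  have h4 := Pool.Agent.R473.TB.digit_sum hb (x n)
  have h5 := Pool.Agent.R473.TB.V_sub hb (e := fun k => Pool.Agent.R473.TB.digit b (x n) k)
    (f := u) (fun k => by
      rw [abs_of_nonneg (Pool.Agent.R473.TB.digit_mem hb (x n) k).1]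
      exact (Pool.Agent.R473.TB.digit_mem hb (x n) k).2.le) (fun k => by
      rw [abs_of_nonneg (hu k).1]; exact (hu k).2.le)
  rw [h5]
  push_cast
  linarith

end

end Pool.Agent.Run7.h103.UN
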