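import Mathlib
import Pool.Agent.Run7.h103.UN.Aut

set_option autoImplicit false
set_option linter.unusedSectionVars false

/-!
# Uniform theorems on predicted digits
-/

namespace Pool.Agent.Run7.h103.UN

open Filter Topology Pool.Agent.TH932.Abs Pool.Agent.TH932.Germs Pool.Agent.TH932.Chi
open Pool.Agent.TH932.Words Pool.Agent.TH932.Scale Finset
open Pool.Agent.TH796.AL Pool.Agent.TH796.AL.TwoB Pool.Agent.TH796.AL.Ai Pool.Agent.TH796.AL.Grp
open Pool.Agent.TH796.AL.Final Pool.Agent.TH796.AL.Alg Pool.Agent.Run7.h103.PF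
open Pool.Agent.TH796.AL.AlgA

/-- integers of size `e^(A(K+1))` are negligible -/
lemma negl_of_small {N K : ℕ → ℕ} (hN1 : ∀ n, n ≤ N n) (hN2 : ∀ n : ℕ, (n : ℝ) * K n ≤ N n)
    (A : ℝ) {p : ℕ → ℤ} (hp : ∀ n, |(p n : ℝ)| ≤ Real.exp (A * (K n + 1))) :
    Negl (fun n => (N n : ℝ)) p := by
  intro ε hε
  obtain ⟨n0, hn0⟩ := exists_nat_gt (2 * |A| / ε)
  refine ev_of_atTop ?_
  filter_upwards [eventually_ge_atTop n0] with n h1
  refine (hp n).trans (Real.exp_le_exp.2 ?_)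
  have h2 := hN2 n
  have h3 : (n : ℝ) ≤ N n := by exact_mod_cast hN1 n
  have h4 : (n0 : ℝ) ≤ n := by exact_mod_cast h1
  rw [div_lt_iff₀ hε] at hn0
  have h5 : A * (K n + 1) ≤ |A| * (K n + 1) := by gcongr; exact le_abs_self A
  have h6 : 2 * |A| * (K n + 1) ≤ ε * n * (K n + 1) := by
    have : 2 * |A| ≤ ε * n := by nlinarith
    gcongr
  have h7 : (n : ℝ) * (K n + 1) ≤ 2 * N n := by linarith
  nlinarith

lemma floor_small {A : ℝ} {x : ℝ} {K : ℕ} (hx : |x| ≤ Real.exp (A * (K + 1))) :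
    |((⌊x⌋ : ℤ) : ℝ)| ≤ Real.exp ((|A| + 1) * (K + 1)) := by
  have h1 : |((⌊x⌋ : ℤ) : ℝ)| ≤ |x| + 1 := by
    have h2 := Int.floor_le x
    have h3 := Int.lt_floor_add_one x
    rw [abs_le]
    constructor
    · have := neg_abs_le x
      linarith
    · have := le_abs_self x
      linarith
  have h2 : Real.exp (A * (K + 1)) ≤ Real.exp (|A| * (K + 1)) := by
    refine Real.exp_le_exp.2 ?_
    gcongr
    exact le_abs_self A
  have h3 : (1 : ℝ) ≤ Real.exp (|A| * (K + 1)) := Real.one_le_exp (by positivity)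
  have h4 : (2 : ℝ) ≤ Real.exp (K + 1) := by
    have := Real.add_one_le_exp ((K : ℝ) + 1)
    have : (0 : ℝ) ≤ K := by positivity
    linarith
  calc |((⌊x⌋ : ℤ) : ℝ)| ≤ Real.exp (|A| * (K + 1)) * 2 := by linarith
    _ ≤ Real.exp (|A| * (K + 1)) * Real.exp (K + 1) := by gcongr
    _ = _ := by rw [← Real.exp_add]; ring_nf

/-- **Simultaneous representation of sequences.** -/
theorem keyS {ι : Type} [Fintype ι] (b : ι → ℕ) (hb : ∀ i, 2 ≤ b i) (u : ι → ℕ → ℤ) {C : ℝ}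
    (hu : ∀ i, Simple (b i) C (u i)) (A : ℝ) (T : ℕ → ℕ → (ι → ℝ) → Prop)
    (h : ∀ R : ℕ, ∃ (M K : ℕ) (x : ι → ℝ), R * (K + 1) ≤ M ∧
      (∀ i, Good (b i) (u i) (x i) M K (A * Real.log (M / (K + 1)))) ∧
      (∀ i, |x i| ≤ Real.exp (A * (K + 1))) ∧ T M K x) :
    ∃ (m : ℕ) (B : Base m) (N : ℕ → ℕ) (hL : Tendsto (fun n => (N n : ℝ)) atTop atTop)
      (M K : ℕ → ℕ) (x : ℕ → ι → ℝ), (∀ n, 2 ^ n * N n ≤ M n) ∧ (∀ n : ℕ, (n : ℝ) * K n ≤ N n) ∧
      (∀ n, n ≤ N n) ∧ (∀ n i, |x n i| ≤ Real.exp (A * (K n + 1))) ∧ (∀ n, T (M n) (K n) (x n)) ∧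
      ∀ i, RepH B hL (VS B (GA {b i})) (gr fun n => x n i) := by
  classical
  obtain ⟨c, hc⟩ := scales ((Fintype.card ι : ℝ) * A)
  choose R hR using hc
  choose M K x hMK hG hx hT using fun n => h (R n)
  choose Ks hKs o g s hE using hG
  set Fi : ℕ → ι → ℕ → ℕ := fun n i t => Pool.Agent.R473.TB.errs (o n i) (g n i) (s n i)
    (fun j => Pool.Agent.R473.TB.digit (b i) (x n i) j - u i j) t with hFi
  have hFm : ∀ n i, Monotone (Fi n i) := fun n i => Pool.Agent.R473.TB.errs_mono _ _ _ _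
  choose N hN1 hN2 hN3 hN4 hN5 using fun n => hR n (M n) (K n) (hMK n)
    (fun t => ∑ i, Fi n i t) (by
      push_cast
      have h1 : ∑ i, (Fi n i (M n) : ℝ) ≤ ∑ _i : ι, A * Real.log ((M n : ℝ) / (K n + 1)) :=
        Finset.sum_le_sum fun i _ => hE n i
      rw [Finset.sum_const, Finset.card_univ, nsmul_eq_mul] at h1
      linarith) (fun s t hst => Finset.sum_le_sum fun i _ => hFm n i hst)
  have hN : Tendsto N atTop atTop := tendsto_atTop_mono hN1 tendsto_id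
  have hLL : Tendsto (fun n => (N n : ℝ)) atTop atTop := tendsto_natCast_atTop_atTop.comp hN
  obtain ⟨m, B, hB⟩ := exists_base' b hb
  choose e he using hB
  refine ⟨m, B, N, hLL, M, K, x, hN3, hN4, hN1, hx, hT, fun i => ?_⟩
  refine repH_pred B (hb i) (he i) (mem_VS B (hb i) (he i)) hN2 hLL (hu i).alphabet
    (hu i).complexity (fun n => x n i) ?_ (fun n => Ks n i) (fun n => ?_) (fun n => o n i)
    (fun n => g n i) (fun n => s n i) c (fun n j hj => ?_)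
  · exact negl_of_small hN1 hN4 (|A| + 1) fun n => floor_small (hx n i)
  · refine le_trans ?_ (hN4 n)
    have h1 : (Ks n i : ℝ) ≤ K n := by exact_mod_cast hKs n i
    gcongr
  · have h1 : ∑ i, Fi n i (2 ^ j * N n) ≤ ∑ i, Fi n i (N n) + c * j := hN5 n j hj
    rw [← Finset.add_sum_erase _ _ (Finset.mem_univ i),
      ← Finset.add_sum_erase (f := fun i => Fi n i (N n)) _ (Finset.mem_univ i)] at h1
    have h2 : ∑ k ∈ Finset.univ.erase i, Fi n k (N n) ≤
        ∑ k ∈ Finset.univ.erase i, Fi n k (2 ^ j * N n) :=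
      Finset.sum_le_sum fun k _ => hFm n k (Nat.le_mul_of_pos_left _ (by positivity))
    have h3 : Fi n i (2 ^ j * N n) ≤ Fi n i (N n) + c * j := by omega
    exact h3

/-! ### polynomials -/

/-- the value at the point `x` of the polynomial of degree at most `d` in each variable with the
integer coefficients `a` -/
noncomputable def pv {κ : Type} [Fintype κ] [DecidableEq κ] {d : ℕ} (a : (κ → Fin (d + 1)) → ℤ) (x : κ → ℝ) : ℝ :=
  ∑ m, (a m : ℝ) * ∏ i, x i ^ (m i : ℕ)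

/-- germs form a ring -/
noncomputable def grh : (ℕ → ℝ) →+* HR where
  toFun := gr
  map_one' := rfl
  map_mul' _ _ := rfl
  map_zero' := rfl
  map_add' _ _ := rfl

section

variable {m : ℕ} {B : Base m} {L : ℕ → ℝ} {hL : Tendsto L atTop atTop}
  {V : Submodule ℝ (Fin m → ℝ)}

/-- the sequences with bounded represented germs -/
noncomputable def SQ (B : Base m) (hL : Tendsto L atTop atTop) (V : Submodule ℝ (Fin m → ℝ)) :
    Subring (ℕ → ℝ) :=
  ((RR B hL V).map (OO hL).subtype).comap grh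

lemma mem_SQ {f : ℕ → ℝ} : f ∈ SQ B hL V ↔ RepH B hL V (gr f) ∧ ∃ C : ℝ, gr f ∈ SR L C := by
  constructor
  · rintro ⟨⟨y, hy⟩, h1, h2⟩
    have h3 : y = gr f := h2
    subst h3
    exact ⟨h1, hy⟩
  · rintro ⟨h1, h2⟩
    exact ⟨⟨gr f, h2⟩, h1, rfl⟩

lemma pv_mem {κ : Type} [Fintype κ] [DecidableEq κ] {d : ℕ} {a : ℕ → (κ → Fin (d + 1)) → ℤ}
    {x : ℕ → κ → ℝ} (ha : ∀ e, (fun n => (a n e : ℝ)) ∈ SQ B hL V)
    (hx : ∀ i, (fun n => x n i) ∈ SQ B hL V) : (fun n => pv (a n) (x n)) ∈ SQ B hL V := by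
  have h1 : (fun n => pv (a n) (x n)) =
      ∑ e : κ → Fin (d + 1), (fun n => (a n e : ℝ)) * ∏ i, (fun n => x n i) ^ (e i : ℕ) := by
    funext n
    simp [pv, Finset.sum_apply, Finset.prod_apply]
  rw [h1]
  exact Subring.sum_mem _ fun e _ => Subring.mul_mem _ (ha e)
    (Subring.prod_mem _ fun i _ => Subring.pow_mem _ (hx i) _)

end

/-- bounded by `e^(A(K+1))` -/
lemma bdd_of_small {N K : ℕ → ℕ} (hN1 : ∀ n, n ≤ N n) (hN2 : ∀ n : ℕ, (n : ℝ) * K n ≤ N n)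
    (A : ℝ) {f : ℕ → ℝ} (hf : ∀ n, |f n| ≤ Real.exp (A * (K n + 1))) :
    gr f ∈ SR (fun n => (N n : ℝ)) 0 := by
  rw [mem_SR]
  intro ε hε
  obtain ⟨n0, hn0⟩ := exists_nat_gt (2 * |A| / ε)
  refine ev_of_atTop ?_
  filter_upwards [eventually_ge_atTop n0] with n h1
  refine (hf n).trans (Real.exp_le_exp.2 ?_)
  have h2 := hN2 n
  have h3 : (n : ℝ) ≤ N n := by exact_mod_cast hN1 n
  have h4 : (n0 : ℝ) ≤ n := by exact_mod_cast h1
  rw [div_lt_iff₀ hε] at hn0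
  have h5 : A * (K n + 1) ≤ |A| * (K n + 1) := by gcongr; exact le_abs_self A
  have h6 : 2 * |A| * (K n + 1) ≤ ε * n * (K n + 1) := by
    have : 2 * |A| ≤ ε * n := by nlinarith
    gcongr
  have h7 : (n : ℝ) * (K n + 1) ≤ 2 * N n := by linarith
  nlinarith

/-- the number `z` satisfies, up to `e^(-εM)`, an equation whose coefficients are polynomials in
numbers with predicted digits -/
def Bad {κ : Type} [Fintype κ] [DecidableEq κ] (b : ℕ) (u : κ → ℕ → ℤ) (z : ℝ) (d : ℕ)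
    (A ε : ℝ) (M K : ℕ) : Prop :=
  ∃ x : κ → ℝ, (∀ i, Good b (u i) (x i) M K (A * Real.log (M / (K + 1)))) ∧
    (∀ i, |x i| ≤ Real.exp (A * (K + 1))) ∧
    ∃ a : Fin (d + 1) → (κ → Fin (d + 1)) → ℤ, (∀ j e, |(a j e : ℝ)| ≤ Real.exp (A * (K + 1))) ∧
      (∃ j, Real.exp (-(A * (K + 1))) ≤ |pv (a j) x|) ∧
      |∑ j, pv (a j) x * z ^ (j : ℕ)| ≤ Real.exp (-(ε * M))

/-- algebraicity in the residue field -/
lemma alg_of {κ : Type} [Fintype κ] [DecidableEq κ] {m : ℕ} {B : Base m} {N M K : ℕ → ℕ}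
    {hL : Tendsto (fun n => (N n : ℝ)) atTop atTop} {V : Submodule ℝ (Fin m → ℝ)}
    (hM : ∀ n, 2 ^ n * N n ≤ M n) (hK : ∀ n : ℕ, (n : ℝ) * K n ≤ N n) (hN : ∀ n, n ≤ N n)
    {z : ℝ} {d : ℕ} {A ε : ℝ} (hε : 0 < ε) (x : ℕ → κ → ℝ)
    (hx : ∀ i, RepH B hL V (gr fun n => x n i)) (hxA : ∀ n i, |x n i| ≤ Real.exp (A * (K n + 1)))
    (a : ℕ → Fin (d + 1) → (κ → Fin (d + 1)) → ℤ)
    (ha : ∀ n j e, |(a n j e : ℝ)| ≤ Real.exp (A * (K n + 1)))
    (hlow : ∀ n, ∃ j, Real.exp (-(A * (K n + 1))) ≤ |pv (a n j) (x n)|)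
    (hsmall : ∀ n, |∑ j, pv (a n j) (x n) * z ^ (j : ℕ)| ≤ Real.exp (-(ε * M n))) :
    IsAlgebraic (Algebra.adjoin (RG hL B) (UR B hL V : Set (FF hL))) (kst hL z) := by
  classical
  have hxS : ∀ i, (fun n => x n i) ∈ SQ B hL V := fun i =>
    mem_SQ.2 ⟨hx i, 0, bdd_of_small hN hK A fun n => hxA n i⟩
  have haS : ∀ j e, (fun n => (a n j e : ℝ)) ∈ SQ B hL V := fun j e => by
    refine mem_SQ.2 ⟨?_, 0, bdd_of_small hN hK A fun n => ha n j e⟩
    have := repH_int B hL V (q := fun n => (a n j e : ℚ)) (d := fun _ => 1) (Negl.one hL)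
      (fun n => a n j e) (negl_of_small hN hK A fun n => ha n j e) (fun n => one_ne_zero)
      (fun n => by simp)
    simpa using this
  have hp : ∀ j, (fun n => pv (a n j) (x n)) ∈ SQ B hL V := fun j =>
    pv_mem (a := fun n => a n j) (haS j) hxS
  -- the coefficients
  set y : Fin (d + 1) → OO hL := fun j => ⟨gr fun n => pv (a n j) (x n), (mem_SQ.1 (hp j)).2⟩ with hy
  have hyU : ∀ j, res hL (y j) ∈ UR B hL V := fun j => mem_UR.2 ⟨y j, (mem_SQ.1 (hp j)).1, rfl⟩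
  set S := Algebra.adjoin (RG hL B) (UR B hL V : Set (FF hL)) with hS
  set cf : Fin (d + 1) → S := fun j => ⟨res hL (y j), Algebra.subset_adjoin (hyU j)⟩ with hcf
  -- a nonzero coefficient
  obtain ⟨j0, hj0⟩ : ∃ j0, res hL (y j0) ≠ 0 := by
    by_contra hcon
    push Not at hcon
    have h1 : ∀ j, ∀ᶠ n in (UU : Filter ℕ), |pv (a n j) (x n)| ≤
        Real.exp (-(1 - 1 / 2) * (N n : ℝ)) := by
      intro j
      have h2 := (res_eq_zero hL).1 (hcon j) 1
      rw [hy] at h2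
      exact mem_SR.1 h2 (1 / 2) (by norm_num)
    have h2 : ∀ᶠ n in (UU : Filter ℕ), ∀ j, |pv (a n j) (x n)| ≤
        Real.exp (-(1 - 1 / 2) * (N n : ℝ)) := by
      rw [Filter.eventually_all]
      exact h1
    obtain ⟨n0, hn0⟩ := exists_nat_gt (8 * |A| + 1)
    obtain ⟨n, g1, g2⟩ := (h2.and (ev_of_atTop (eventually_ge_atTop n0))).exists
    obtain ⟨j, hj⟩ := hlow n
    have g3 := hj.trans (g1 j)
    rw [Real.exp_le_exp] at g3
    have h3 := hK n
    have h4 : (n : ℝ) ≤ N n := by exact_mod_cast hN n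
    have h5 : (n0 : ℝ) ≤ n := by exact_mod_cast g2
    have h6 : A * (K n + 1) ≤ |A| * (K n + 1) := by gcongr; exact le_abs_self A
    have h7 : 8 * |A| * (K n + 1) ≤ n * (K n + 1) := by
      have : 8 * |A| ≤ n := by linarith
      gcongr
    have h8 : (0 : ℝ) ≤ |A| := abs_nonneg A
    have h9 : (0 : ℝ) < n := by linarith
    nlinarith
  refine ⟨∑ j : Fin (d + 1), Polynomial.monomial (j : ℕ) (cf j), ?_, ?_⟩
  · intro h0
    apply hj0
    have h1 := congrArg (fun P : Polynomial S => P.coeff (j0 : ℕ)) h0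
    simp only [Polynomial.finsetSum_coeff, Polynomial.coeff_monomial, Polynomial.coeff_zero] at h1
    rw [Finset.sum_eq_single j0] at h1
    · rw [if_pos rfl] at h1
      exact congrArg (fun v : S => (v : FF hL)) h1
    · intro j _ hj
      exact if_neg fun h2 => hj (Fin.ext h2)
    · intro h2
      exact absurd (Finset.mem_univ _) h2
  · have h1 : Polynomial.aeval (kst hL z) (∑ j : Fin (d + 1), Polynomial.monomial (j : ℕ) (cf j)) =
        res hL (∑ j, y j * kst0 hL z ^ (j : ℕ)) := by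
      rw [map_sum, map_sum]
      refine Finset.sum_congr rfl fun j _ => ?_
      rw [Polynomial.aeval_monomial, map_mul, map_pow]
      rfl
    rw [h1, res_eq_zero]
    have h2 : ((∑ j, y j * kst0 hL z ^ (j : ℕ) : OO hL) : HR) =
        gr fun n => ∑ j, pv (a n j) (x n) * z ^ (j : ℕ) := by
      have h3 : (fun n => ∑ j, pv (a n j) (x n) * z ^ (j : ℕ)) =
          ∑ j : Fin (d + 1), (fun n => pv (a n j) (x n)) * (fun _ => z) ^ (j : ℕ) := by
        funext n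
        simp [Finset.sum_apply]
      have h4 : gr (fun n => ∑ j, pv (a n j) (x n) * z ^ (j : ℕ)) =
          grh (fun n => ∑ j, pv (a n j) (x n) * z ^ (j : ℕ)) := rfl
      rw [h4, h3, map_sum, AddSubmonoidClass.coe_finsetSum]
      refine Finset.sum_congr rfl fun j _ => ?_
      rw [map_mul, map_pow]
      rfl
    rw [h2]
    intro E
    rw [mem_SR]
    intro δ hδ
    obtain ⟨n0, hn0⟩ := exists_nat_gt (|E| / ε)
    refine ev_of_atTop ?_
    filter_upwards [eventually_ge_atTop n0] with n g1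
    refine (hsmall n).trans (Real.exp_le_exp.2 ?_)
    have g2 : ((2 ^ n * N n : ℕ) : ℝ) ≤ M n := by exact_mod_cast hM n
    push_cast at g2
    have g3 : (n : ℝ) ≤ 2 ^ n := by exact_mod_cast (Nat.lt_two_pow_self (n := n)).le
    have g4 : (n0 : ℝ) ≤ n := by exact_mod_cast g1
    rw [div_lt_iff₀ hε] at hn0
    have g5 : |E| ≤ ε * 2 ^ n := by nlinarith
    have g6 : |E| * N n ≤ ε * 2 ^ n * N n := by gcongr
    have g7 : E * N n ≤ |E| * N n := by gcongr; exact le_abs_self E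
    have g8 : ε * (2 ^ n * N n) ≤ ε * M n := by gcongr
    have g9 : 0 ≤ δ * (N n : ℝ) := by positivity
    nlinarith

/-- **Two groups of bases, uniformly.** -/
theorem pair {κ : Type} [Fintype κ] [DecidableEq κ] {b c : ℕ} (hb : 2 ≤ b) (hc : 2 ≤ c)
    (hbc : GA {b} ⊓ GA {c} = ⊥) (u v : κ → ℕ → ℤ) {C : ℝ} (hu : ∀ i, Simple b C (u i))
    (hv : ∀ i, Simple c C (v i)) {z : ℝ} (hz : Transcendental ℚ z) (hU : ¬ UNumber z)
    (d : ℕ) (A : ℝ) {ε : ℝ} (hε : 0 < ε) :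
    ∃ R : ℕ, ∀ M K : ℕ, R * (K + 1) ≤ M → Bad b u z d A ε M K → Bad c v z d A ε M K → False := by
  by_contra hcon
  push Not at hcon
  obtain ⟨m, B, N, hL, M, K, x, h1, h2, h3, h4, h5, h6⟩ := keyS (ι := κ ⊕ κ)
    (Sum.elim (fun _ => b) fun _ => c) (by rintro (i | i); exacts [hb, hc]) (Sum.elim u v)
    (C := C) (by rintro (i | i); exacts [hu i, hv i]) A
    (fun M K x => (∃ a : Fin (d + 1) → (κ → Fin (d + 1)) → ℤ,
      (∀ j e, |(a j e : ℝ)| ≤ Real.exp (A * (K + 1))) ∧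
      (∃ j, Real.exp (-(A * (K + 1))) ≤ |pv (a j) (fun i => x (Sum.inl i))|) ∧
      |∑ j, pv (a j) (fun i => x (Sum.inl i)) * z ^ (j : ℕ)| ≤ Real.exp (-(ε * M))) ∧
      (∃ a : Fin (d + 1) → (κ → Fin (d + 1)) → ℤ,
      (∀ j e, |(a j e : ℝ)| ≤ Real.exp (A * (K + 1))) ∧
      (∃ j, Real.exp (-(A * (K + 1))) ≤ |pv (a j) (fun i => x (Sum.inr i))|) ∧
      |∑ j, pv (a j) (fun i => x (Sum.inr i)) * z ^ (j : ℕ)| ≤ Real.exp (-(ε * M)))) (by
      intro R
      obtain ⟨M, K, hMK, ⟨x, hx1, hx2, hx3⟩, ⟨y, hy1, hy2, hy3⟩, -⟩ := hcon R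
      refine ⟨M, K, Sum.elim x y, hMK, ?_, ?_, hx3, hy3⟩
      · rintro (i | i)
        · exact hx1 i
        · exact hy1 i
      · rintro (i | i)
        · exact hx2 i
        · exact hy2 i)
  choose a a1 a2 a3 using fun n => (h5 n).1
  choose a' a1' a2' a3' using fun n => (h5 n).2
  have g1 := alg_of (B := B) (hL := hL) (V := VS B (GA {b})) h1 h2 h3 hε
    (fun n i => x n (Sum.inl i)) (fun i => h6 (Sum.inl i)) (fun n i => h4 n _) a a1 a2 a3
  have g2 := alg_of (B := B) (hL := hL) (V := VS B (GA {c})) h1 h2 h3 hε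
    (fun n i => x n (Sum.inr i)) (fun i => h6 (Sum.inr i)) (fun n i => h4 n _) a' a1' a2' a3'
  exact hU (unumber_of_alg hz (alg_botH (disj B hbc) g1 g2))

end Pool.Agent.Run7.h103.UN
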