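import Mathlib
import Pool.Agent.Run7.h103.UN.Main

set_option autoImplicit false
set_option linter.unusedSectionVars false

/-!
# Numbers with predicted digits in two independent bases are near rational numbers, uniformly
-/

namespace Pool.Agent.Run7.h103.UN

open Filter Topology Pool.Agent.TH932.Abs Pool.Agent.TH932.Germs Pool.Agent.TH932.Chi
open Pool.Agent.TH932.Words Pool.Agent.TH932.Scale Finset
open Pool.Agent.TH796.AL Pool.Agent.TH796.AL.TwoB Pool.Agent.TH796.AL.Ai Pool.Agent.TH796.AL.Grp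
open Pool.Agent.TH796.AL.Final Pool.Agent.TH796.AL.Alg Pool.Agent.Run7.h103.PF
open Pool.Agent.TH796.AL.AlgA

section

variable {m : ℕ} {B : Base m} {L : ℕ → ℝ} {hL : Tendsto L atTop atTop}

/-- clearing denominators -/
lemma clearH {s : ℕ} (v : Fin s → RG hL B) (x : Fin s → ℕ → ℝ) (j0 : Fin s) (hb0 : v j0 ≠ 0)
    (hsmall : ∀ E : ℝ, ∑ j, rho (v j : GG) * gr (x j) ∈ SR L E) :
    ∃ (H : ℝ) (c : Fin s → ℕ → ℤ), (∀ᶠ n in (UU : Filter ℕ), c j0 n ≠ 0) ∧
      (∀ j, ∀ᶠ n in (UU : Filter ℕ), |(c j n : ℝ)| ≤ Real.exp (H * L n)) ∧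
      ∀ E : ℝ, ∀ᶠ n in (UU : Filter ℕ), |∑ j, (c j n : ℝ) * x j n| ≤ Real.exp (-(E * L n)) := by
  classical
  choose a ha using fun j => gm_surj (v j : GG)
  have hDBa : ∀ j, ∃ Hj : ℝ, Dir.DB L Hj (a j) := by
    intro j
    obtain ⟨t, ht⟩ := (v j).2.1
    rw [← ha j] at ht
    exact ⟨_, Dir.db_of_RS hL ht⟩
  choose Hj hHj using hDBa
  have hAa : ∀ j, ∃ Cj : ℝ, ∀ᶠ n in (UU : Filter ℕ), |(a j n : ℝ)| ≤ Real.exp (Cj * L n) := by
    intro j
    obtain ⟨t, ht⟩ := (v j).2.2 none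
    have h1 := SR_rho ht
    rw [← ha j, rho_gm, mem_SR] at h1
    refine ⟨-(t - 1), ?_⟩
    filter_upwards [h1 1 one_pos] with n hn
    exact hn
  choose Cj hCj using hAa
  have hdc : ∀ j n, (a j n) * (∏ i, ((a i n).den : ℚ)) = (((a j n).num * ∏ i ∈ Finset.univ.erase j, ((a i n).den : ℤ) : ℤ) : ℚ) := by
    intro j n
    rw [← Finset.mul_prod_erase _ _ (Finset.mem_univ j), ← mul_assoc, Rat.mul_den_eq_num]
    push_cast
    rfl
  refine ⟨∑ j, |Hj j| + ∑ j, |Cj j|, fun j n => (a j n).num * ∏ i ∈ Finset.univ.erase j, ((a i n).den : ℤ), ?_, ?_, ?_⟩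
  · have h1 : gm (a j0) ≠ 0 := by
      rw [ha]
      intro h0
      exact hb0 (Subtype.ext h0)
    filter_upwards [gm_ne_zero.1 h1] with n hn
    refine mul_ne_zero (Rat.num_ne_zero.2 hn) (Finset.prod_ne_zero_iff.2 fun i _ => ?_)
    have := (a i n).den_pos
    omega
  · intro j
    have h1 : ∀ᶠ n in (UU : Filter ℕ), ∀ i, ((a i n).den : ℝ) ≤ Real.exp (Hj i * L n) := by
      rw [Filter.eventually_all]
      exact hHj
    filter_upwards [h1, hCj j, L_nonneg hL] with n h1 h2 h3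
    have e1 : (((a j n).num * ∏ i ∈ Finset.univ.erase j, ((a i n).den : ℤ) : ℤ) : ℝ)
        = (a j n : ℝ) * ∏ i, ((a i n).den : ℝ) := by
      have := congrArg (fun q : ℚ => (q : ℝ)) (hdc j n)
      simp only [Rat.cast_mul, Rat.cast_prod, Rat.cast_natCast, Rat.cast_intCast] at this
      exact this.symm
    have hp : |∏ i, ((a i n).den : ℝ)| = ∏ i, ((a i n).den : ℝ) :=
      abs_of_nonneg (Finset.prod_nonneg fun i _ => Nat.cast_nonneg _)
    rw [e1, abs_mul, hp]
    calc |(a j n : ℝ)| * ∏ i, ((a i n).den : ℝ)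
        ≤ Real.exp (Cj j * L n) * ∏ i, Real.exp (Hj i * L n) := by
          refine mul_le_mul h2 (Finset.prod_le_prod (fun _ _ => Nat.cast_nonneg _)
            fun i _ => h1 i) (Finset.prod_nonneg fun _ _ => Nat.cast_nonneg _) (Real.exp_pos _).le
      _ = Real.exp ((Cj j + ∑ i, Hj i) * L n) := by
          rw [← Real.exp_sum, ← Real.exp_add, ← Finset.sum_mul, add_mul]
      _ ≤ _ := by
          refine Real.exp_le_exp.2 (mul_le_mul_of_nonneg_right ?_ h3)
          have h4 : ∑ i, Hj i ≤ ∑ i, |Hj i| := Finset.sum_le_sum fun i _ => le_abs_self _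
          have h5 : |Cj j| ≤ ∑ i, |Cj i| :=
            Finset.single_le_sum (f := fun i => |Cj i|) (fun _ _ => abs_nonneg _)
              (Finset.mem_univ j)
          have h6 := le_abs_self (Cj j)
          linarith
  · intro E
    have h1 : ∀ᶠ n in (UU : Filter ℕ), ∀ i, ((a i n).den : ℝ) ≤ Real.exp (Hj i * L n) := by
      rw [Filter.eventually_all]
      exact hHj
    have h2 := hsmall (E + 1 + ∑ i, |Hj i|)
    have e2 : ∑ j, rho (v j : GG) * gr (x j)
        = gr (fun n => ∑ j, (a j n : ℝ) * x j n) := by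
      have e3 : ∀ t : Finset (Fin s), ∑ j ∈ t, rho (v j : GG) * gr (x j)
        = gr (fun n => ∑ j ∈ t, (a j n : ℝ) * x j n) := by
        intro t
        induction t using Finset.induction_on with
        | empty => simp only [Finset.sum_empty]; exact gr_zero.symm
        | insert j t hj ih =>
          rw [Finset.sum_insert hj, ih, ← ha j, rho_gm, gr_mul, gr_add]
          simp only [Finset.sum_insert hj]
      exact e3 _
    rw [e2, mem_SR] at h2
    filter_upwards [h1, h2 1 one_pos, L_nonneg hL] with n h1 h2 h3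
    have e1 : ∑ j, ((((a j n).num * ∏ i ∈ Finset.univ.erase j, ((a i n).den : ℤ) : ℤ) : ℝ)) * x j n
        = (∏ i, ((a i n).den : ℝ)) * ∑ j, (a j n : ℝ) * x j n := by
      rw [Finset.mul_sum]
      refine Finset.sum_congr rfl fun j _ => ?_
      have := congrArg (fun q : ℚ => (q : ℝ)) (hdc j n)
      simp only [Rat.cast_mul, Rat.cast_prod, Rat.cast_natCast, Rat.cast_intCast] at this
      rw [← this]
      ring
    rw [e1, abs_mul, abs_of_nonneg (Finset.prod_nonneg fun i _ => Nat.cast_nonneg _)]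
    calc (∏ i, ((a i n).den : ℝ)) * |∑ j, (a j n : ℝ) * x j n|
        ≤ (∏ i, Real.exp (Hj i * L n)) * Real.exp (-(E + 1 + ∑ i, |Hj i| - 1) * L n) := by
          refine mul_le_mul (Finset.prod_le_prod (fun _ _ => Nat.cast_nonneg _)
            fun i _ => h1 i) h2 (abs_nonneg _) (Finset.prod_nonneg fun _ _ => (Real.exp_pos _).le)
      _ = Real.exp ((∑ i, Hj i - (E + ∑ i, |Hj i|)) * L n) := by
          rw [← Real.exp_sum, ← Real.exp_add, ← Finset.sum_mul]
          ring_nf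
      _ ≤ _ := by
          refine Real.exp_le_exp.2 ?_
          have h4 : ∑ i, Hj i ≤ ∑ i, |Hj i| := Finset.sum_le_sum fun i _ => le_abs_self _
          nlinarith

/-- a common element of the two rings is rational -/
lemma rat_of_two {V W : Submodule ℝ (Fin m → ℝ)} (hVW : Disjoint V W) {x y : ℕ → ℝ}
    (hx : x ∈ SQ B hL V) (hy : y ∈ SQ B hL W)
    (hxy : ∀ E : ℝ, ∀ᶠ n in (UU : Filter ℕ), |x n - y n| ≤ Real.exp (-(E * L n))) :
    ∃ (H : ℝ) (p q : ℕ → ℤ), (∀ᶠ n in (UU : Filter ℕ), q n ≠ 0) ∧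
      (∀ᶠ n in (UU : Filter ℕ), |(q n : ℝ)| ≤ Real.exp (H * L n)) ∧
      ∀ E : ℝ, ∀ᶠ n in (UU : Filter ℕ), |(q n : ℝ) * x n - p n| ≤ Real.exp (-(E * L n)) := by
  classical
  obtain ⟨hx1, hx2⟩ := mem_SQ.1 hx
  obtain ⟨hy1, hy2⟩ := mem_SQ.1 hy
  set X : OO hL := ⟨gr x, hx2⟩ with hX
  set Y : OO hL := ⟨gr y, hy2⟩ with hY
  have hXU : res hL X ∈ UR B hL V := mem_UR.2 ⟨X, hx1, rfl⟩
  have hYU : res hL Y ∈ UR B hL W := mem_UR.2 ⟨Y, hy1, rfl⟩
  have hXY : res hL X = res hL Y := by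
    rw [← sub_eq_zero, ← map_sub, res_eq_zero]
    intro E
    change gr x - gr y ∈ SR L E
    rw [gr_sub, mem_SR]
    intro ε hε
    filter_upwards [hxy E, L_nonneg hL] with n h1 h2
    refine h1.trans (Real.exp_le_exp.2 ?_)
    nlinarith
  -- a relation
  have hdep : ¬ LI (R := RG hL B) ![(1 : FF hL), res hL X] := by
    intro hli
    have h1 := ldH (B := B) (hL := hL) hVW (Fin 2) (Fin 2) ![(1 : FF hL), res hL X]
      ![(1 : FF hL), res hL X] (by
        intro i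
        fin_cases i
        · exact (UR B hL V).one_mem
        · exact hXU) (by
        intro i
        fin_cases i
        · exact (UR B hL W).one_mem
        · change res hL X ∈ UR B hL W
          rw [hXY]
          exact hYU) hli hli (fun i j => if i = 0 ∧ j = 1 then 1 else if i = 1 ∧ j = 0 then -1 else 0)
      (by
        simp [Fin.sum_univ_two, algebraMap_eq])
    have h2 := h1 0 1
    simp at h2
  unfold LI at hdep
  push Not at hdep
  obtain ⟨c, hc1, i0, hi0⟩ := hdep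
  rw [Fin.sum_univ_two] at hc1
  simp only [Matrix.cons_val_zero, Matrix.cons_val_one, mul_one] at hc1
  have hc10 : c 1 ≠ 0 := by
    intro h0
    rw [h0, map_zero, zero_mul, add_zero] at hc1
    have h1 : c 0 = 0 := by
      have h2 : phi hL B (c 0) = phi hL B 0 := by rw [map_zero]; exact hc1
      exact phi_injective hL B h2
    fin_cases i0
    · exact hi0 h1
    · exact hi0 h0
  obtain ⟨H, d, g1, g2, g3⟩ := clearH (B := B) (hL := hL) c ![fun _ => 1, x] 1 hc10 (by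
    have h1 := (rel_zeroH c ![1, X]).1 (by
      rw [Fin.sum_univ_two]
      simp only [Matrix.cons_val_zero, Matrix.cons_val_one, map_one, mul_one]
      exact hc1)
    intro E
    have h2 := h1 E
    rw [Fin.sum_univ_two] at h2 ⊢
    exact h2)
  refine ⟨H, fun n => -d 0 n, d 1, g1, g2 1, fun E => ?_⟩
  filter_upwards [g3 E] with n hn
  rw [Fin.sum_univ_two] at hn
  simp only [Matrix.cons_val_zero, Matrix.cons_val_one, mul_one] at hn
  push_cast
  have e : (d 1 n : ℝ) * x n - -(d 0 n : ℝ) = (d 0 n : ℝ) + (d 1 n : ℝ) * x n := by ring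
  rw [e]
  exact hn

end

/-- polynomials with small coefficients in represented sequences -/
lemma pv_SQ {κ : Type} [Fintype κ] [DecidableEq κ] {m : ℕ} {B : Base m} {N K : ℕ → ℕ}
    {hL : Tendsto (fun n => (N n : ℝ)) atTop atTop} {V : Submodule ℝ (Fin m → ℝ)}
    (hK : ∀ n : ℕ, (n : ℝ) * K n ≤ N n) (hN : ∀ n, n ≤ N n)
    {d : ℕ} {A : ℝ} (x : ℕ → κ → ℝ)
    (hx : ∀ i, RepH B hL V (gr fun n => x n i)) (hxA : ∀ n i, |x n i| ≤ Real.exp (A * (K n + 1)))
    (a : ℕ → (κ → Fin (d + 1)) → ℤ)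
    (ha : ∀ n e, |(a n e : ℝ)| ≤ Real.exp (A * (K n + 1))) :
    (fun n => pv (a n) (x n)) ∈ SQ B hL V := by
  refine pv_mem (fun e => ?_) fun i => mem_SQ.2 ⟨hx i, 0, bdd_of_small hN hK A fun n => hxA n i⟩
  refine mem_SQ.2 ⟨?_, 0, bdd_of_small hN hK A fun n => ha n e⟩
  have := repH_int B hL V (q := fun n => (a n e : ℚ)) (d := fun _ => 1) (Negl.one hL)
    (fun n => a n e) (negl_of_small hN hK A fun n => ha n e) (fun n => one_ne_zero)
    (fun n => by simp)
  simpa using this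

/-- **Numbers with predicted digits in two independent bases are near rational numbers.** -/
theorem near_rational {κ κ' : Type} [Fintype κ] [DecidableEq κ] [Fintype κ'] [DecidableEq κ']
    {b c : ℕ} (hb : 2 ≤ b) (hc : 2 ≤ c)
    (hbc : GA {b} ⊓ GA {c} = ⊥) (u : κ → ℕ → ℤ) (v : κ' → ℕ → ℤ) {C : ℝ}
    (hu : ∀ i, Simple b C (u i)) (hv : ∀ i, Simple c C (v i))
    (d : ℕ) (A E : ℝ) {ε η : ℝ} (hε : 0 < ε) (hη : 0 < η) :
    ∃ R : ℕ, ∀ M K : ℕ, R * (K + 1) ≤ M → ∀ (x : κ → ℝ) (y : κ' → ℝ)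
      (a : (κ → Fin (d + 1)) → ℤ) (a' : (κ' → Fin (d + 1)) → ℤ),
      (∀ i, Good b (u i) (x i) M K (A * Real.log (M / (K + 1)))) →
      (∀ i, Good c (v i) (y i) M K (A * Real.log (M / (K + 1)))) →
      (∀ i, |x i| ≤ Real.exp (A * (K + 1))) → (∀ i, |y i| ≤ Real.exp (A * (K + 1))) →
      (∀ e, |(a e : ℝ)| ≤ Real.exp (A * (K + 1))) → (∀ e, |(a' e : ℝ)| ≤ Real.exp (A * (K + 1))) →
      ∀ w : ℝ, |w - pv a x| ≤ Real.exp (-(ε * M)) → |w - pv a' y| ≤ Real.exp (-(ε * M)) →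
      ∃ p q : ℤ, 1 ≤ q ∧ (q : ℝ) ≤ Real.exp (η * M) ∧
        |w - p / q| ≤ ((q : ℝ) * Real.exp (K + 1)) ^ (-E) := by
  by_contra hcon
  push Not at hcon
  obtain ⟨m, B, N, hL, M, K, x, h1, h2, h3, h4, h5, h6⟩ := keyS (ι := κ ⊕ κ')
    (Sum.elim (fun _ => b) fun _ => c) (by rintro (i | i); exacts [hb, hc]) (Sum.elim u v)
    (C := C) (by rintro (i | i); exacts [hu i, hv i]) A
    (fun M K x => ∃ (a : (κ → Fin (d + 1)) → ℤ) (a' : (κ' → Fin (d + 1)) → ℤ),
      (∀ e, |(a e : ℝ)| ≤ Real.exp (A * (K + 1))) ∧ (∀ e, |(a' e : ℝ)| ≤ Real.exp (A * (K + 1))) ∧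
      ∃ w : ℝ, |w - pv a (fun i => x (Sum.inl i))| ≤ Real.exp (-(ε * M)) ∧
      |w - pv a' (fun i => x (Sum.inr i))| ≤ Real.exp (-(ε * M)) ∧
      ∀ p q : ℤ, 1 ≤ q → (q : ℝ) ≤ Real.exp (η * M) →
        ((q : ℝ) * Real.exp (K + 1)) ^ (-E) < |w - p / q|) (by
      intro R
      obtain ⟨M, K, hMK, x, y, a, a', g1, g2, g3, g4, g5, g6, w, g7, g7', g8⟩ := hcon R
      refine ⟨M, K, Sum.elim x y, hMK, ?_, ?_, a, a', g5, g6, w, g7, g7',
        fun p q hq1 hq2 => g8 p q hq1 hq2⟩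
      · rintro (i | i)
        · exact g1 i
        · exact g2 i
      · rintro (i | i)
        · exact g3 i
        · exact g4 i)
  choose a a' a1 a2 w a3 a3' a4 using h5
  have k1 := pv_SQ (B := B) (hL := hL) (V := VS B (GA {b})) h2 h3
    (fun n i => x n (Sum.inl i)) (fun i => h6 (Sum.inl i)) (fun n i => h4 n _) a a1
  have k2 := pv_SQ (B := B) (hL := hL) (V := VS B (GA {c})) h2 h3
    (fun n i => x n (Sum.inr i)) (fun i => h6 (Sum.inr i)) (fun n i => h4 n _) a' a2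
  have hexp : ∀ F δ : ℝ, 0 < δ → ∀ᶠ n in (UU : Filter ℕ), F * N n ≤ δ * M n := by
    intro F δ hδ
    obtain ⟨n0, hn0⟩ := exists_nat_gt (|F| / δ)
    refine ev_of_atTop ?_
    filter_upwards [eventually_ge_atTop n0] with n g1
    have g2 : ((2 ^ n * N n : ℕ) : ℝ) ≤ M n := by exact_mod_cast h1 n
    push_cast at g2
    have g3 : (n : ℝ) ≤ 2 ^ n := by exact_mod_cast (Nat.lt_two_pow_self (n := n)).le
    have g4 : (n0 : ℝ) ≤ n := by exact_mod_cast g1
    rw [div_lt_iff₀ hδ] at hn0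
    have g5 : |F| ≤ δ * 2 ^ n := by nlinarith
    have g6 : |F| * N n ≤ δ * 2 ^ n * N n := by gcongr
    have g7 : F * N n ≤ |F| * N n := by gcongr; exact le_abs_self F
    have g8 : δ * (2 ^ n * N n) ≤ δ * M n := by gcongr
    linarith
  have htwo : ∀ n : ℕ, 1 ≤ n → (2 : ℝ) ≤ Real.exp (N n) := by
    intro n hn
    have g1 : (1 : ℝ) ≤ N n := by exact_mod_cast hn.trans (h3 n)
    have := Real.add_one_le_exp (N n : ℝ)
    linarith
  obtain ⟨H, p, q, q1, q2, q3⟩ := rat_of_two (disj B hbc) k1 k2 (fun E => by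
    filter_upwards [hexp (E + 1) ε hε, ev_of_atTop (eventually_ge_atTop 1)] with n hn hn1
    have g1 : |pv (a n) (fun i => x n (Sum.inl i)) - pv (a' n) (fun i => x n (Sum.inr i))| ≤
        2 * Real.exp (-(ε * M n)) := by
      have e0 : pv (a n) (fun i => x n (Sum.inl i)) - pv (a' n) (fun i => x n (Sum.inr i)) =
          -(w n - pv (a n) (fun i => x n (Sum.inl i))) +
          (w n - pv (a' n) (fun i => x n (Sum.inr i))) := by ring
      rw [e0]
      refine (abs_add_le _ _).trans ?_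
      rw [abs_neg]
      linarith [a3 n, a3' n]
    refine g1.trans ?_
    calc 2 * Real.exp (-(ε * M n)) ≤ Real.exp (N n) * Real.exp (-(ε * M n)) := by
          gcongr
          exact htwo n hn1
      _ = Real.exp (N n - ε * M n) := by rw [← Real.exp_add]; ring_nf
      _ ≤ _ := Real.exp_le_exp.2 (by linarith))
  obtain ⟨n, r1, r2, r3, r4, r5, r6⟩ := (q1.and (q2.and ((q3 (|E| * (|H| + 2) + 1)).and
    ((hexp |H| η hη).and ((ev_of_atTop (eventually_ge_atTop 1)).and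
      (hexp (|E| * (|H| + 2) + 1) ε hε)))))).exists
  set q' : ℤ := |q n| with hq'
  set p' : ℤ := (q n).sign * p n with hp'
  have hq'1 : 1 ≤ q' := Int.one_le_abs r1
  have hq'r : (q' : ℝ) = |(q n : ℝ)| := by rw [hq']; push_cast; rfl
  have hq'0 : (0 : ℝ) < q' := by exact_mod_cast (by omega : 0 < q')
  have hNn : (n : ℝ) ≤ N n := by exact_mod_cast h3 n
  have hn1 : (1 : ℝ) ≤ n := by exact_mod_cast r5
  have hN0 : (0 : ℝ) ≤ N n := by positivity
  have hqH : (q' : ℝ) ≤ Real.exp (|H| * N n) := by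
    rw [hq'r]
    refine r2.trans (Real.exp_le_exp.2 ?_)
    gcongr
    exact le_abs_self H
  have s1 := a4 n p' q' hq'1 (hqH.trans (Real.exp_le_exp.2 (by simpa using r4)))
  refine absurd s1 (not_lt.2 ?_)
  have e1 : pv (a n) (fun i => x n (Sum.inl i)) - (p' : ℝ) / q' =
      ((q n).sign : ℝ) * ((q n : ℝ) * pv (a n) (fun i => x n (Sum.inl i)) - p n) / q' := by
    have h7 : ((q n).sign : ℝ) * (q n : ℝ) = q' := by
      rw [hq']
      exact_mod_cast Int.sign_mul_self_eq_abs (q n)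
    rw [eq_div_iff hq'0.ne', sub_mul, div_mul_cancel₀ _ hq'0.ne', mul_sub, ← mul_assoc, h7, hp']
    push_cast
    ring
  have e2 : |((q n).sign : ℝ)| = 1 := by
    rcases lt_or_gt_of_ne r1 with h7 | h7
    · rw [Int.sign_eq_neg_one_of_neg h7]; norm_num
    · rw [Int.sign_eq_one_of_pos h7]; norm_num
  have hK1 : (K n : ℝ) + 1 ≤ 2 * N n := by
    have := h2 n
    have h8 : (0 : ℝ) ≤ K n := by positivity
    nlinarith
  have e3 : Real.exp (-(|E| * (|H| + 2) * N n)) ≤ ((q' : ℝ) * Real.exp (K n + 1)) ^ (-E) := by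
    have t1 : (1 : ℝ) ≤ (q' : ℝ) * Real.exp (K n + 1) := by
      have t2 : (1 : ℝ) ≤ q' := by exact_mod_cast hq'1
      have t3 : (1 : ℝ) ≤ Real.exp (K n + 1) := Real.one_le_exp (by positivity)
      nlinarith
    have t2 : (q' : ℝ) * Real.exp (K n + 1) ≤ Real.exp ((|H| + 2) * N n) := by
      calc (q' : ℝ) * Real.exp (K n + 1) ≤ Real.exp (|H| * N n) * Real.exp (2 * N n) := by
            gcongr
        _ = _ := by rw [← Real.exp_add]; ring_nf
    have t0 : (0 : ℝ) < (q' : ℝ) * Real.exp (K n + 1) := by linarith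
    have t3 : ((q' : ℝ) * Real.exp (K n + 1)) ^ (-|E|) ≤ ((q' : ℝ) * Real.exp (K n + 1)) ^ (-E) :=
      Real.rpow_le_rpow_of_exponent_le t1 (neg_le_neg (le_abs_self E))
    refine le_trans ?_ t3
    rw [Real.rpow_neg t0.le, Real.exp_neg]
    gcongr
    calc ((q' : ℝ) * Real.exp (K n + 1)) ^ |E| ≤ (Real.exp ((|H| + 2) * N n)) ^ |E| :=
          Real.rpow_le_rpow t0.le t2 (abs_nonneg _)
      _ = _ := by rw [← Real.exp_mul]; ring_nf
  have e4 : |(q n : ℝ) * pv (a n) (fun i => x n (Sum.inl i)) - p n| / (q' : ℝ) ≤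
      Real.exp (-((|E| * (|H| + 2) + 1) * N n)) := by
    calc |(q n : ℝ) * pv (a n) (fun i => x n (Sum.inl i)) - p n| / (q' : ℝ)
        ≤ |(q n : ℝ) * pv (a n) (fun i => x n (Sum.inl i)) - p n| / 1 := by
          gcongr
          exact_mod_cast hq'1
      _ ≤ _ := by rw [div_one]; exact r3
  have e5 : |w n - pv (a n) (fun i => x n (Sum.inl i))| ≤
      Real.exp (-((|E| * (|H| + 2) + 1) * N n)) :=
    (a3 n).trans (Real.exp_le_exp.2 (by linarith))
  calc |w n - (p' : ℝ) / q'| = |(w n - pv (a n) (fun i => x n (Sum.inl i))) +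
        (pv (a n) (fun i => x n (Sum.inl i)) - (p' : ℝ) / q')| := by ring_nf
    _ ≤ |w n - pv (a n) (fun i => x n (Sum.inl i))| +
        |pv (a n) (fun i => x n (Sum.inl i)) - (p' : ℝ) / q'| := abs_add_le _ _
    _ = |w n - pv (a n) (fun i => x n (Sum.inl i))| +
        |(q n : ℝ) * pv (a n) (fun i => x n (Sum.inl i)) - p n| / (q' : ℝ) := by
        rw [e1, abs_div, abs_mul, e2, one_mul, abs_of_pos hq'0]
    _ ≤ Real.exp (-((|E| * (|H| + 2) + 1) * N n)) + Real.exp (-((|E| * (|H| + 2) + 1) * N n)) :=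
        add_le_add e5 e4
    _ = 2 * Real.exp (-((|E| * (|H| + 2) + 1) * N n)) := by ring
    _ ≤ Real.exp (N n) * Real.exp (-((|E| * (|H| + 2) + 1) * N n)) := by
        gcongr
        exact htwo n r5
    _ = Real.exp (-(|E| * (|H| + 2) * N n)) := by rw [← Real.exp_add]; ring_nf
    _ ≤ _ := e3

end Pool.Agent.Run7.h103.UN
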