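import Mathlib
import Pool.Agent.Run7.h103.UN.Rat
import Pool.Agent.Run7.h103.PF.Defs

set_option autoImplicit false

/-!
# Uniform results on predictable numbers: definitions used in the statements
-/

namespace Pool.Agent.Run7.h103.UN

open Pool.Agent.Run7.h103.PF

/-- the value at the point `x` of the polynomial of degree at most `d` in each of its `k` variables
with the integer coefficients `a` (`a e` is the coefficient of `∏ X_i ^ (e i)`) -/
noncomputable def value {k d : ℕ} (a : (Fin k → Fin (d + 1)) → ℤ) (x : Fin k → ℝ) : ℝ :=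
  ∑ e, (a e : ℝ) * ∏ i, x i ^ (e i : ℕ)

/-- The numbers `x_1, ..., x_k` have absolute value at most `e ^ (A (K + 1))`, and for each of them
some automaton with at most `K` states which reads the differences between the digits of `x_i` in
base `b` and the letters of `u_i` and predicts the next one makes at most `A log (M / (K + 1))`
errors among the first `M` places. -/
def Predictable {k : ℕ} (b : ℕ) (u : Fin k → ℕ → ℤ) (A : ℝ) (M K : ℕ) (x : Fin k → ℝ) : Prop :=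
  ∀ i, |x i| ≤ Real.exp (A * (K + 1)) ∧
    ¬ Unpredictable b (u i) (x i) M K (A * Real.log (M / (K + 1)))

/-- all coefficients are at most `e ^ (A (K + 1))` in absolute value -/
def SmallCoeff {k d : ℕ} (A : ℝ) (K : ℕ) (a : (Fin k → Fin (d + 1)) → ℤ) : Prop :=
  ∀ e, |(a e : ℝ)| ≤ Real.exp (A * (K + 1))

/-- there is a rational number `p / q` with `1 ≤ q ≤ e ^ (η M)` and
`|y - p / q| ≤ (q e ^ (K + 1)) ^ (-E)` -/
def NearRational (E η : ℝ) (M K : ℕ) (y : ℝ) : Prop :=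
  ∃ p q : ℤ, 1 ≤ q ∧ (q : ℝ) ≤ Real.exp (η * M) ∧
    |y - p / q| ≤ ((q : ℝ) * Real.exp (K + 1)) ^ (-E)

/-! ### comparison with the library -/

lemma good_of {b : ℕ} {u : ℕ → ℤ} {x : ℝ} {M K : ℕ} {E : ℝ} (h : ¬ Unpredictable b u x M K E) :
    Good b u x M K E := by
  unfold Unpredictable at h
  push Not at h
  obtain ⟨k, hk, P, hP⟩ := h
  refine ⟨k, hk, P.out, P.step, P.start, ?_⟩
  rw [errors_eq] at hP
  exact hP

lemma digit_add_int (b : ℕ) (x : ℝ) (n : ℤ) (k : ℕ) : digit b (x + n) k = digit b x k := by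
  unfold digit
  have h1 : (b : ℝ) ^ (k + 1) * (x + n) = (b : ℝ) ^ (k + 1) * x + (((b : ℤ) ^ (k + 1) * n : ℤ) : ℝ) := by
    push_cast
    ring
  have h2 : (b : ℤ) ^ (k + 1) * n = b * ((b : ℤ) ^ k * n) := by ring
  rw [h1, Int.floor_add_intCast, h2, Int.add_mul_emod_self_left]

lemma unpredictable_add_int {b : ℕ} {u : ℕ → ℤ} {x : ℝ} {M K : ℕ} {E : ℝ} (n : ℤ) :
    Unpredictable b u (x + n) M K E ↔ Unpredictable b u x M K E := by
  unfold Unpredictable
  simp only [digit_add_int]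

/-- **Numbers near values at predictable numbers in two bases.** -/
theorem near_rational_pair {b c : ℕ} (hb : 2 ≤ b) (hc : 2 ≤ c) (hbc : Independent b c) {k : ℕ}
    (u v : Fin k → ℕ → ℤ) {C : ℝ} (hu : ∀ i, SimpleWord b C (u i)) (hv : ∀ i, SimpleWord c C (v i))
    (d : ℕ) (A E : ℝ) {ε η : ℝ} (hε : 0 < ε) (hη : 0 < η) :
    ∃ R : ℕ, ∀ M K : ℕ, R * (K + 1) ≤ M → ∀ (w : ℝ) (x y : Fin k → ℝ)
      (a a' : (Fin k → Fin (d + 1)) → ℤ), Predictable b u A M K x → Predictable c v A M K y →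
      SmallCoeff A K a → SmallCoeff A K a' → |w - value a x| ≤ Real.exp (-(ε * M)) →
      |w - value a' y| ≤ Real.exp (-(ε * M)) → NearRational E η M K w := by
  obtain ⟨R, hR⟩ := near_rational (κ := Fin k) (κ' := Fin k) hb hc
    (Pool.Agent.TH796.AL.Ai.group_inf hb hc hbc) u v
    (fun i => simple_of (hu i)) (fun i => simple_of (hv i)) d A E hε hη
  exact ⟨R, fun M K hMK w x y a a' hx hy ha ha' h1 h2 => hR M K hMK x y a a'
    (fun i => good_of (hx i).2) (fun i => good_of (hy i).2) (fun i => (hx i).1)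
    (fun i => (hy i).1) ha ha' w h1 h2⟩

/-- the same for a finite set of bases -/
theorem near_rational_all (F : Finset ℕ) (hF2 : ∀ b ∈ F, 2 ≤ b)
    (hF : ∀ b ∈ F, ∀ c ∈ F, b ≠ c → Independent b c) {k : ℕ} (u : ℕ → Fin k → ℕ → ℤ) {C : ℝ}
    (hu : ∀ b ∈ F, ∀ i, SimpleWord b C (u b i)) (d : ℕ) (A E : ℝ) {ε η : ℝ} (hε : 0 < ε)
    (hη : 0 < η) :
    ∃ R : ℕ, ∀ M K : ℕ, R * (K + 1) ≤ M → ∀ w : ℝ, ¬ NearRational E η M K w →
      ∃ c : ℕ, ∀ b ∈ F, b ≠ c → ∀ (x : Fin k → ℝ) (a : (Fin k → Fin (d + 1)) → ℤ),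
        Predictable b (u b) A M K x → SmallCoeff A K a →
        Real.exp (-(ε * M)) < |w - value a x| := by
  classical
  have h1 : ∀ p : F × F, ∃ R : ℕ, (p.1 : ℕ) ≠ p.2 → ∀ M K : ℕ, R * (K + 1) ≤ M →
      ∀ (w : ℝ) (x y : Fin k → ℝ) (a a' : (Fin k → Fin (d + 1)) → ℤ),
      Predictable p.1 (u p.1) A M K x → Predictable p.2 (u p.2) A M K y →
      SmallCoeff A K a → SmallCoeff A K a' → |w - value a x| ≤ Real.exp (-(ε * M)) →
      |w - value a' y| ≤ Real.exp (-(ε * M)) → NearRational E η M K w := by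
    intro p
    by_cases hp : (p.1 : ℕ) = p.2
    · exact ⟨0, fun h => absurd hp h⟩
    · obtain ⟨R, hR⟩ := near_rational_pair (hF2 _ p.1.2) (hF2 _ p.2.2)
        (hF _ p.1.2 _ p.2.2 hp) (u p.1) (u p.2) (hu _ p.1.2) (hu _ p.2.2) d A E hε hη
      exact ⟨R, fun _ => hR⟩
  choose R hR using h1
  refine ⟨∑ p, R p, fun M K hMK w hw => ?_⟩
  have hRp : ∀ p, R p * (K + 1) ≤ M := fun p => le_trans (Nat.mul_le_mul_right _
    (Finset.single_le_sum (f := R) (fun _ _ => Nat.zero_le _) (Finset.mem_univ p))) hMK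
  by_cases hex : ∃ c ∈ F, ∃ (x : Fin k → ℝ) (a : (Fin k → Fin (d + 1)) → ℤ),
      Predictable c (u c) A M K x ∧ SmallCoeff A K a ∧ |w - value a x| ≤ Real.exp (-(ε * M))
  · obtain ⟨c, hc, y, a', g1, g2, g3⟩ := hex
    refine ⟨c, fun b hb hbc x a h2 h3 => ?_⟩
    by_contra hcon
    exact hw (hR (⟨b, hb⟩, ⟨c, hc⟩) hbc M K (hRp _) w x y a a' h2 g1 h3 g2 (not_lt.1 hcon) g3)
  · refine ⟨0, fun b hb _ x a h2 h3 => ?_⟩
    by_contra hcon
    exact hex ⟨b, hb, x, a, h2, h3, not_lt.1 hcon⟩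

end Pool.Agent.Run7.h103.UN
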