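import Mathlib
import Pool.Agent.Run7.h103.UN.Defs

set_option autoImplicit false

/-!
# Polynomials with coefficients in predictable numbers, and linear forms
-/

namespace Pool.Agent.Run7.h103.UN

open Pool.Agent.Run7.h103.PF

/-- **Measure over predictable numbers, for all bases but one.** -/
theorem measure_all (F : Finset ℕ) (hF2 : ∀ b ∈ F, 2 ≤ b)
    (hF : ∀ b ∈ F, ∀ c ∈ F, b ≠ c → Independent b c) {k : ℕ} (u : ℕ → Fin k → ℕ → ℤ) {C : ℝ}
    (hu : ∀ b ∈ F, ∀ i, SimpleWord b C (u b i)) {z : ℝ} (hz : Transcendental ℚ z)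
    (hU : ¬ UNumber z) (d : ℕ) (A : ℝ) {ε : ℝ} (hε : 0 < ε) :
    ∃ R : ℕ, ∀ M K : ℕ, R * (K + 1) ≤ M → ∃ c : ℕ, ∀ b ∈ F, b ≠ c →
      ∀ (x : Fin k → ℝ) (a : Fin (d + 1) → (Fin k → Fin (d + 1)) → ℤ),
        Predictable b (u b) A M K x → (∀ j, SmallCoeff A K (a j)) →
        (∃ j, Real.exp (-(A * (K + 1))) ≤ |value (a j) x|) →
        Real.exp (-(ε * M)) < |∑ j, value (a j) x * z ^ (j : ℕ)| := by
  classical
  have h1 : ∀ p : F × F, ∃ R : ℕ, (p.1 : ℕ) ≠ p.2 → ∀ M K : ℕ, R * (K + 1) ≤ M →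
      Bad (p.1 : ℕ) (u p.1) z d A ε M K → Bad (p.2 : ℕ) (u p.2) z d A ε M K → False := by
    intro p
    by_cases hp : (p.1 : ℕ) = p.2
    · exact ⟨0, fun h => absurd hp h⟩
    · obtain ⟨R, hR⟩ := pair (κ := Fin k) (hF2 _ p.1.2) (hF2 _ p.2.2)
        (Pool.Agent.TH796.AL.Ai.group_inf (hF2 _ p.1.2) (hF2 _ p.2.2) (hF _ p.1.2 _ p.2.2 hp))
        (u p.1) (u p.2) (fun i => simple_of (hu _ p.1.2 i)) (fun i => simple_of (hu _ p.2.2 i))
        hz hU d A hε
      exact ⟨R, fun _ => hR⟩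
  choose R hR using h1
  refine ⟨∑ p, R p, fun M K hMK => ?_⟩
  have hRp : ∀ p, R p * (K + 1) ≤ M := fun p => le_trans (Nat.mul_le_mul_right _
    (Finset.single_le_sum (f := R) (fun _ _ => Nat.zero_le _) (Finset.mem_univ p))) hMK
  have hbad : ∀ b (x : Fin k → ℝ) (a : Fin (d + 1) → (Fin k → Fin (d + 1)) → ℤ),
      Predictable b (u b) A M K x → (∀ j, SmallCoeff A K (a j)) →
      (∃ j, Real.exp (-(A * (K + 1))) ≤ |value (a j) x|) →
      |∑ j, value (a j) x * z ^ (j : ℕ)| ≤ Real.exp (-(ε * M)) → Bad b (u b) z d A ε M K :=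
    fun b x a g1 g2 g3 g4 => ⟨x, fun i => good_of (g1 i).2, fun i => (g1 i).1, a, g2, g3, g4⟩
  by_cases hex : ∃ c ∈ F, Bad c (u c) z d A ε M K
  · obtain ⟨c, hc, hcb⟩ := hex
    refine ⟨c, fun b hb hbc x a g1 g2 g3 => ?_⟩
    by_contra hcon
    exact hR (⟨b, hb⟩, ⟨c, hc⟩) hbc M K (hRp _) (hbad b x a g1 g2 g3 (not_lt.1 hcon)) hcb
  · refine ⟨0, fun b hb _ x a g1 g2 g3 => ?_⟩
    by_contra hcon
    exact hex ⟨b, hb, hbad b x a g1 g2 g3 (not_lt.1 hcon)⟩

/-! ### polynomials -/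

/-- a monomial -/
def mono {k d : ℕ} (e : Fin k → Fin (d + 1)) (n : ℤ) : (Fin k → Fin (d + 1)) → ℤ :=
  fun e' => if e' = e then n else 0

lemma value_mono {k d : ℕ} (e : Fin k → Fin (d + 1)) (n : ℤ) (x : Fin k → ℝ) :
    value (mono e n) x = n * ∏ i, x i ^ (e i : ℕ) := by
  unfold value mono
  rw [Finset.sum_eq_single e]
  · simp
  · intro e' _ he
    simp [he]
  · intro h
    exact absurd (Finset.mem_univ _) h

lemma value_add {k d : ℕ} (a a' : (Fin k → Fin (d + 1)) → ℤ) (x : Fin k → ℝ) :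
    value (a + a') x = value a x + value a' x := by
  unfold value
  rw [← Finset.sum_add_distrib]
  refine Finset.sum_congr rfl fun e _ => ?_
  rw [Pi.add_apply]
  push_cast
  ring

lemma value_zero {k d : ℕ} (x : Fin k → ℝ) : value (0 : (Fin k → Fin (d + 1)) → ℤ) x = 0 := by
  unfold value
  simp

lemma small_mono {k d : ℕ} {A : ℝ} {K : ℕ} {e : Fin k → Fin (d + 1)} {n : ℤ}
    (h : |(n : ℝ)| ≤ Real.exp (A * (K + 1))) : SmallCoeff A K (mono e n) := by
  intro e'
  unfold mono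
  split_ifs
  · exact h
  · simpa using (Real.exp_pos _).le

lemma small_zero {k d : ℕ} {A : ℝ} {K : ℕ} :
    SmallCoeff A K (0 : (Fin k → Fin (d + 1)) → ℤ) := by
  intro e'
  simpa using (Real.exp_pos _).le

lemma exp_mono {A B : ℝ} (h : A ≤ B) (K : ℕ) : Real.exp (A * (K + 1)) ≤ Real.exp (B * (K + 1)) :=
  Real.exp_le_exp.2 (by gcongr)

/-- absorbing a constant -/
lemma exp_const {c : ℝ} (A : ℝ) (K : ℕ) :
    c * Real.exp (A * (K + 1)) ≤ Real.exp ((A + |c|) * (K + 1)) := by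
  have h1 : c ≤ Real.exp (|c| * (K + 1)) := by
    have h2 := Real.add_one_le_exp (|c| * ((K : ℝ) + 1))
    have h3 : |c| ≤ |c| * ((K : ℝ) + 1) := by
      have : (0 : ℝ) ≤ K := Nat.cast_nonneg K
      nlinarith [abs_nonneg c]
    have h4 := le_abs_self c
    linarith
  calc c * Real.exp (A * (K + 1)) ≤ Real.exp (|c| * (K + 1)) * Real.exp (A * (K + 1)) := by
        gcongr
    _ = _ := by rw [← Real.exp_add]; ring_nf

lemma small_add {k d : ℕ} {A : ℝ} {K : ℕ} {a a' : (Fin k → Fin (d + 1)) → ℤ}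
    (h : SmallCoeff A K a) (h' : SmallCoeff A K a') : SmallCoeff (A + 2) K (a + a') := by
  intro e
  rw [Pi.add_apply]
  push_cast
  refine (abs_add_le _ _).trans ?_
  have h1 := exp_const (c := 2) A K
  rw [abs_of_pos (by norm_num : (0 : ℝ) < 2)] at h1
  linarith [h e, h' e]

lemma SmallCoeff.mono_A {k d : ℕ} {A B : ℝ} (hAB : A ≤ B) {K : ℕ}
    {a : (Fin k → Fin (d + 1)) → ℤ} (h : SmallCoeff A K a) : SmallCoeff B K a :=
  fun e => (h e).trans (exp_mono hAB K)

lemma log_nonneg_of {R M K : ℕ} (hR : 1 ≤ R) (hMK : R * (K + 1) ≤ M) :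
    0 ≤ Real.log ((M : ℝ) / (K + 1)) := by
  refine Real.log_nonneg ?_
  rw [le_div_iff₀ (by positivity), one_mul]
  have hM1 : K + 1 ≤ M := le_trans (Nat.le_mul_of_pos_left _ hR) hMK
  exact_mod_cast hM1

lemma not_unpredictable_mono {b : ℕ} {u : ℕ → ℤ} {x : ℝ} {M K : ℕ} {A B : ℝ} (hAB : A ≤ B)
    (hlog : 0 ≤ Real.log ((M : ℝ) / (K + 1)))
    (h : ¬ Unpredictable b u x M K (A * Real.log (M / (K + 1)))) :
    ¬ Unpredictable b u x M K (B * Real.log (M / (K + 1))) :=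
  fun h1 => h fun k hk P => (mul_le_mul_of_nonneg_right hAB hlog).trans_lt (h1 k hk P)

/-- `2 e^(A(K+1)) e^(-εM) ≤ e^(-εM/2)` -/
lemma absorb {A ε : ℝ} (hε : 0 < ε) (c : ℝ) : ∃ R : ℕ, 1 ≤ R ∧ ∀ M K : ℕ, R * (K + 1) ≤ M →
    c * Real.exp (A * (K + 1)) * Real.exp (-(ε * M)) ≤ Real.exp (-(ε / 2 * M)) := by
  obtain ⟨R, hR⟩ := exists_nat_gt (abs (A + |c|) * (2 / ε) + 1)
  refine ⟨R, ?_, fun M K hMK => ?_⟩
  · have h1 : 0 ≤ abs (A + |c|) * (2 / ε) := by positivity
    have h2 : (1 : ℝ) ≤ R := by linarith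
    exact_mod_cast h2
  · have h1 : (R : ℝ) * (K + 1) ≤ M := by exact_mod_cast hMK
    have h2 : abs (A + |c|) * (K + 1) ≤ ε / 2 * M := by
      have h3 : abs (A + |c|) * (2 / ε) ≤ R := by linarith
      have h4 : abs (A + |c|) ≤ ε / 2 * R := by
        have h5 : abs (A + |c|) = abs (A + |c|) * (2 / ε) * (ε / 2) := by field_simp
        rw [h5, mul_comm (ε / 2)]
        gcongr
      calc abs (A + |c|) * ((K : ℝ) + 1) ≤ ε / 2 * R * (K + 1) := by gcongr
        _ = ε / 2 * (R * (K + 1)) := by ring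
        _ ≤ _ := by gcongr
    have h3 : (A + |c|) * ((K : ℝ) + 1) ≤ abs (A + |c|) * (K + 1) := by
      gcongr
      exact le_abs_self _
    calc c * Real.exp (A * (K + 1)) * Real.exp (-(ε * M)) ≤
        Real.exp ((A + |c|) * (K + 1)) * Real.exp (-(ε * M)) := by
          gcongr
          exact exp_const A K
      _ = Real.exp ((A + |c|) * (K + 1) - ε * M) := by rw [← Real.exp_add]; ring_nf
      _ ≤ _ := Real.exp_le_exp.2 (by linarith)

/-- **Integer multiples of `z` are far from integer combinations of two predictable numbers.** -/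
theorem lin_two (F : Finset ℕ) (hF2 : ∀ b ∈ F, 2 ≤ b)
    (hF : ∀ b ∈ F, ∀ c ∈ F, b ≠ c → Independent b c) (u : ℕ → ℕ → ℤ) {C : ℝ}
    (hu : ∀ b ∈ F, SimpleWord b C (u b)) {z : ℝ} (hz : Transcendental ℚ z)
    (hU : ¬ UNumber z) (A : ℝ) {ε : ℝ} (hε : 0 < ε) :
    ∃ R : ℕ, 1 ≤ R ∧ ∀ M K : ℕ, R * (K + 1) ≤ M → ∃ c : ℕ, ∀ b ∈ F, b ≠ c →
      ∀ (D l r s : ℤ) (x y : ℝ), D ≠ 0 → |(D : ℝ)| ≤ Real.exp (A * (K + 1)) →
        |(r : ℝ)| ≤ Real.exp (A * (K + 1)) → |(s : ℝ)| ≤ Real.exp (A * (K + 1)) →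
        ¬ Unpredictable b (u b) x M K (A * Real.log (M / (K + 1))) →
        ¬ Unpredictable b (u b) y M K (A * Real.log (M / (K + 1))) →
        Real.exp (-(ε * M)) < |D * z + l + r * x + s * y| := by
  set A0 : ℝ := |A| + abs (4 + |z|) with hA0
  have hA0A : |A| ≤ A0 := by rw [hA0]; linarith [abs_nonneg (4 + |z|)]
  have hA00 : 0 ≤ A0 := (abs_nonneg A).trans hA0A
  set B : ℝ := A0 + 2 + 2 with hB
  obtain ⟨R, hR⟩ := measure_all F hF2 hF (k := 2) (fun b _ => u b) (fun b hb _ => hu b hb) hz hU 1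
    B hε
  refine ⟨R + 1, by omega, fun M K hMK => ?_⟩
  obtain ⟨c, hc⟩ := hR M K (le_trans (Nat.mul_le_mul_right _ (Nat.le_succ R)) hMK)
  have hlog := log_nonneg_of (by omega : 1 ≤ R + 1) hMK
  refine ⟨c, fun b hb hbc D l r s x y hD0 hD hr hs hx hy => ?_⟩
  by_contra hcon
  push Not at hcon
  -- pass to fractional parts
  set l' : ℤ := l + r * ⌊x⌋ + s * ⌊y⌋ with hl'
  have e0 : (D : ℝ) * z + l + r * x + s * y = D * z + l' + r * Int.fract x + s * Int.fract y := by
    rw [hl']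
    push_cast
    rw [Int.fract, Int.fract]
    ring
  rw [e0] at hcon
  have hexp1 : (1 : ℝ) ≤ Real.exp (|A| * (K + 1)) := Real.one_le_exp (by positivity)
  have hAe : Real.exp (A * (K + 1)) ≤ Real.exp (|A| * (K + 1)) := exp_mono (le_abs_self A) K
  have hl'b : |(l' : ℝ)| ≤ Real.exp (A0 * (K + 1)) := by
    have g1 : (l' : ℝ) = (D * z + l' + r * Int.fract x + s * Int.fract y) - D * z -
        r * Int.fract x - s * Int.fract y := by ring
    have g2 : |(D * z + l' + r * Int.fract x + s * Int.fract y)| ≤ 1 :=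
      hcon.trans (Real.exp_le_one_iff.2 (by
        have : 0 ≤ ε * (M : ℝ) := by positivity
        linarith))
    have g3 : |(D : ℝ) * z| ≤ Real.exp (|A| * (K + 1)) * |z| := by
      rw [abs_mul]
      gcongr
      exact hD.trans hAe
    have g4 : |(r : ℝ) * Int.fract x| ≤ Real.exp (|A| * (K + 1)) * 1 := by
      rw [abs_mul, abs_of_nonneg (Int.fract_nonneg x)]
      gcongr
      · exact hr.trans hAe
      · exact (Int.fract_lt_one x).le
    have g5 : |(s : ℝ) * Int.fract y| ≤ Real.exp (|A| * (K + 1)) * 1 := by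
      rw [abs_mul, abs_of_nonneg (Int.fract_nonneg y)]
      gcongr
      · exact hs.trans hAe
      · exact (Int.fract_lt_one y).le
    have g6 : |(l' : ℝ)| ≤ (4 + |z|) * Real.exp (|A| * (K + 1)) := by
      rw [g1]
      have k1 := abs_sub ((D * z + l' + r * Int.fract x + s * Int.fract y) - D * z -
        r * Int.fract x) (s * Int.fract y)
      have k2 := abs_sub ((D * z + l' + r * Int.fract x + s * Int.fract y) - D * z)
        (r * Int.fract x)
      have k3 := abs_sub (D * z + l' + r * Int.fract x + s * Int.fract y) (D * z)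
      linarith
    exact g6.trans (exp_const |A| K)
  have hDb : |(D : ℝ)| ≤ Real.exp (A0 * (K + 1)) := hD.trans (hAe.trans (exp_mono hA0A K))
  have hrb : |(r : ℝ)| ≤ Real.exp (A0 * (K + 1)) := hr.trans (hAe.trans (exp_mono hA0A K))
  have hsb : |(s : ℝ)| ≤ Real.exp (A0 * (K + 1)) := hs.trans (hAe.trans (exp_mono hA0A K))
  set a0 : (Fin 2 → Fin 2) → ℤ := mono ![0, 0] l' + mono ![1, 0] r + mono ![0, 1] s with ha0
  set a1 : (Fin 2 → Fin 2) → ℤ := mono ![0, 0] D with ha1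
  have v0 : value (d := 1) a0 ![Int.fract x, Int.fract y] =
      l' + r * Int.fract x + s * Int.fract y := by
    rw [ha0, value_add, value_add, value_mono, value_mono, value_mono]
    simp [Fin.prod_univ_two]
  have v1 : value (d := 1) a1 ![Int.fract x, Int.fract y] = D := by
    rw [ha1, value_mono]
    simp [Fin.prod_univ_two]
  have hfr : ∀ w : ℝ, ¬ Unpredictable b (u b) w M K (A * Real.log (M / (K + 1))) →
      |Int.fract w| ≤ Real.exp (B * (K + 1)) ∧
        ¬ Unpredictable b (u b) (Int.fract w) M K (B * Real.log (M / (K + 1))) := by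
    intro w hw
    refine ⟨?_, not_unpredictable_mono (A := A) ?_ hlog fun h => hw ?_⟩
    · rw [abs_of_nonneg (Int.fract_nonneg w)]
      exact (Int.fract_lt_one w).le.trans (Real.one_le_exp (by positivity))
    · have := le_abs_self A
      rw [hB]
      linarith
    · rw [← Int.fract_add_floor w]
      exact (unpredictable_add_int ⌊w⌋).2 h
  have h1 := hc b hb hbc ![Int.fract x, Int.fract y] ![a0, a1] (by
    intro i
    fin_cases i
    · exact hfr x hx
    · exact hfr y hy) (by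
    intro j
    fin_cases j
    · exact small_add ((small_add (small_mono hl'b) (small_mono hrb)))
        ((small_mono hsb).mono_A (by linarith))
    · exact (small_mono hDb).mono_A (by rw [hB]; linarith)) ⟨1, by
      change _ ≤ |value (d := 1) a1 ![Int.fract x, Int.fract y]|
      rw [v1]
      have g1 : (1 : ℝ) ≤ |(D : ℝ)| := by exact_mod_cast Int.one_le_abs hD0
      refine le_trans ?_ g1
      rw [Real.exp_le_one_iff]
      have : 0 ≤ B * ((K : ℝ) + 1) := by positivity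
      linarith⟩
  rw [Fin.sum_univ_two] at h1
  simp only [Matrix.cons_val_zero, Matrix.cons_val_one, Fin.val_zero, Fin.val_one, pow_zero,
    pow_one, mul_one] at h1
  rw [v0, v1] at h1
  have e1 : (l' : ℝ) + r * Int.fract x + s * Int.fract y + D * z =
      D * z + l' + r * Int.fract x + s * Int.fract y := by ring
  rw [e1] at h1
  linarith

end Pool.Agent.Run7.h103.UN
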