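import Mathlib
import Pool.Agent.Run7.h103.UN.Meas

set_option autoImplicit false

/-!
# Predictable linear forms
-/

namespace Pool.Agent.Run7.h103.UN

open Pool.Agent.Run7.h103.PF

/-- The integers `m` and `n` are at most `e ^ (A (K + 1))` in absolute value, and for some integers `l`
and `1 ≤ q ≤ e ^ (A (K + 1))` the number `(m t + n z + l) / q` is equal, up to `e ^ (-ε M) / q`, to a
number `y` with predictable digits: some automaton with at most `K` states which reads the differences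
between the digits of `y` in base `b` and the letters of `u` and predicts the next one makes at most
`A log (M / (K + 1))` errors among the first `M` places. -/
def PredictableForm (b : ℕ) (u : ℕ → ℤ) (A ε : ℝ) (M K : ℕ) (t z : ℝ) (m n : ℤ) : Prop :=
  |(m : ℝ)| ≤ Real.exp (A * (K + 1)) ∧ |(n : ℝ)| ≤ Real.exp (A * (K + 1)) ∧
    ∃ (q l : ℤ) (y : ℝ), 1 ≤ q ∧ (q : ℝ) ≤ Real.exp (A * (K + 1)) ∧
      |q * y - (m * t + n * z + l)| ≤ Real.exp (-(ε * M)) ∧
      ¬ Unpredictable b u y M K (A * Real.log (M / (K + 1)))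

lemma exp_sq_le {A : ℝ} {K : ℕ} {x y : ℝ} (hx : |x| ≤ Real.exp (A * (K + 1)))
    (hy : |y| ≤ Real.exp (A * (K + 1))) : |x * y| ≤ Real.exp (2 * A * (K + 1)) := by
  rw [abs_mul]
  calc |x| * |y| ≤ Real.exp (A * (K + 1)) * Real.exp (A * (K + 1)) := by gcongr
    _ = _ := by rw [← Real.exp_add]; ring_nf

/-- **All predictable forms lie on one line.** -/
theorem forms (F : Finset ℕ) (hF2 : ∀ b ∈ F, 2 ≤ b)
    (hF : ∀ b ∈ F, ∀ c ∈ F, b ≠ c → Independent b c) (u : ℕ → ℕ → ℤ) {C : ℝ}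
    (hu : ∀ b ∈ F, SimpleWord b C (u b)) {z : ℝ} (hz : Transcendental ℚ z)
    (hU : ¬ UNumber z) (A : ℝ) {ε : ℝ} (hε : 0 < ε) :
    ∃ R : ℕ, ∀ M K : ℕ, R * (K + 1) ≤ M → ∃ c : ℕ, ∀ b ∈ F, b ≠ c →
      ∀ t : ℝ, ∃ m₀ n₀ : ℤ, m₀ ≠ 0 ∧ ∀ m n : ℤ,
        PredictableForm b (u b) A ε M K t z m n → m * n₀ = n * m₀ := by
  obtain ⟨R1, hR1, h1⟩ := lin_two F hF2 hF u hu hz hU (2 * |A| + 2) (half_pos hε)
  obtain ⟨R2, hR2, h2⟩ := absorb (A := A) hε 2
  refine ⟨R1 + R2, fun M K hMK => ?_⟩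
  obtain ⟨c, hc⟩ := h1 M K (le_trans (Nat.mul_le_mul_right _ (by omega)) hMK)
  have hab := h2 M K (le_trans (Nat.mul_le_mul_right _ (by omega)) hMK)
  have hlog := log_nonneg_of (by omega : 1 ≤ R1 + R2) hMK
  refine ⟨c, fun b hb hbc t => ?_⟩
  have hAA := le_abs_self A
  have hA0 := abs_nonneg A
  have hA1 : A ≤ 2 * |A| + 2 := by linarith
  have b1 : ∀ w : ℝ, |w| ≤ Real.exp (A * (K + 1)) → |w| ≤ Real.exp ((2 * |A| + 2) * (K + 1)) :=
    fun w hw => hw.trans (exp_mono hA1 K)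
  have b2 : ∀ w v : ℝ, |w| ≤ Real.exp (A * (K + 1)) → |v| ≤ Real.exp (A * (K + 1)) →
      |w * v| ≤ Real.exp ((2 * |A| + 2) * (K + 1)) := fun w v hw hv =>
    (exp_sq_le hw hv).trans (exp_mono (by linarith) K)
  have b3 : ∀ w v w' v' : ℝ, |w| ≤ Real.exp (A * (K + 1)) → |v| ≤ Real.exp (A * (K + 1)) →
      |w'| ≤ Real.exp (A * (K + 1)) → |v'| ≤ Real.exp (A * (K + 1)) →
      |w * v - w' * v'| ≤ Real.exp ((2 * |A| + 2) * (K + 1)) := by
    intro w v w' v' g1 g2 g3 g4
    have k1 := abs_sub (w * v) (w' * v')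
    have k2 := exp_sq_le g1 g2
    have k3 := exp_sq_le g3 g4
    have k4 := exp_const (c := 2) (2 * A) K
    rw [abs_of_pos (by norm_num : (0 : ℝ) < 2)] at k4
    have k5 := exp_mono (show 2 * A + 2 ≤ 2 * |A| + 2 by linarith) K
    linarith
  -- forms without `t`
  have claim2 : ∀ n : ℤ, PredictableForm b (u b) A ε M K t z 0 n → n = 0 := by
    rintro n ⟨-, hn, q, l, y, hq1, hq, hy, hyp⟩
    by_contra hn0
    have hq' : |(q : ℝ)| ≤ Real.exp (A * (K + 1)) := by
      rw [abs_of_pos (by exact_mod_cast (by omega : 0 < q))]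
      exact hq
    have g := hc b hb hbc n l (-q) 0 y y hn0 (b1 _ hn) (by
      push_cast
      rw [abs_neg]
      exact b1 _ hq') (by simpa using (Real.exp_pos _).le)
      (not_unpredictable_mono hA1 hlog hyp) (not_unpredictable_mono hA1 hlog hyp)
    have e : (n : ℝ) * z + l + ((-q : ℤ) : ℝ) * y + ((0 : ℤ) : ℝ) * y =
        -(q * y - (((0 : ℤ) : ℝ) * t + n * z + l)) := by
      push_cast
      ring
    rw [e, abs_neg] at g
    have g2 : Real.exp (-(ε * M)) ≤ Real.exp (-(ε / 2 * M)) := by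
      refine Real.exp_le_exp.2 ?_
      have : 0 ≤ ε * (M : ℝ) := by positivity
      linarith
    exact absurd (hy.trans g2) (not_le.2 g)
  have claim1 : ∀ m n m' n' : ℤ, PredictableForm b (u b) A ε M K t z m n →
      PredictableForm b (u b) A ε M K t z m' n' → m * n' = n * m' := by
    rintro m n m' n' ⟨hm, hn, q, l, y, hq1, hq, hy, hyp⟩ ⟨hm', hn', q', l', y', hq1', hq', hy', hyp'⟩
    by_contra hne
    have hqa : |(q : ℝ)| ≤ Real.exp (A * (K + 1)) := by
      rw [abs_of_pos (by exact_mod_cast (by omega : 0 < q))]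
      exact hq
    have hqa' : |(q' : ℝ)| ≤ Real.exp (A * (K + 1)) := by
      rw [abs_of_pos (by exact_mod_cast (by omega : 0 < q'))]
      exact hq'
    have g := hc b hb hbc (m * n' - n * m') (m * l' - m' * l) (m' * q) (-(m * q')) y y'
      (sub_ne_zero.2 hne) (by
        push_cast
        exact b3 _ _ _ _ hm hn' hn hm') (by
        push_cast
        exact b2 _ _ hm' hqa) (by
        push_cast
        rw [abs_neg]
        exact b2 _ _ hm hqa') (not_unpredictable_mono hA1 hlog hyp)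
      (not_unpredictable_mono hA1 hlog hyp')
    have e : ((m * n' - n * m' : ℤ) : ℝ) * z + ((m * l' - m' * l : ℤ) : ℝ) +
        ((m' * q : ℤ) : ℝ) * y + ((-(m * q') : ℤ) : ℝ) * y' =
        m' * (q * y - (m * t + n * z + l)) - m * (q' * y' - (m' * t + n' * z + l')) := by
      push_cast
      ring
    rw [e] at g
    have g2 := abs_sub (m' * (q * y - (m * t + n * z + l))) (m * (q' * y' - (m' * t + n' * z + l')))
    rw [abs_mul, abs_mul] at g2
    have g3 : |(m' : ℝ)| * |q * y - (m * t + n * z + l)| ≤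
        Real.exp (A * (K + 1)) * Real.exp (-(ε * M)) := by gcongr
    have g4 : |(m : ℝ)| * |q' * y' - (m' * t + n' * z + l')| ≤
        Real.exp (A * (K + 1)) * Real.exp (-(ε * M)) := by gcongr
    linarith
  by_cases hex : ∃ m n : ℤ, m ≠ 0 ∧ PredictableForm b (u b) A ε M K t z m n
  · obtain ⟨m₀, n₀, hm₀, hp₀⟩ := hex
    exact ⟨m₀, n₀, hm₀, fun m n hp => claim1 m n m₀ n₀ hp hp₀⟩
  · push Not at hex
    refine ⟨1, 0, one_ne_zero, fun m n hp => ?_⟩
    have hm : m = 0 := by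
      by_contra hm
      exact hex m n hm hp
    subst hm
    rw [claim2 n hp]
    rfl

end Pool.Agent.Run7.h103.UN
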