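import Mathlib
import Pool.Agent.Run7.h103.UN.Defs

set_option autoImplicit false
set_option linter.unusedSectionVars false

/-!
# Algebraic numbers and represented germs
-/

namespace Pool.Agent.Run7.h103.UN

open Filter Topology Pool.Agent.TH932.Abs Pool.Agent.TH932.Germs Pool.Agent.TH932.Chi
open Pool.Agent.TH932.Words Pool.Agent.TH932.Scale Finset
open Pool.Agent.TH796.AL Pool.Agent.TH796.AL.TwoB Pool.Agent.TH796.AL.Ai Pool.Agent.TH796.AL.Grp
open Pool.Agent.TH796.AL.Final Pool.Agent.TH796.AL.Alg Pool.Agent.Run7.h103.PF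
open Pool.Agent.TH796.AL.AlgA Pool.Agent.TH796.AL.Lin Pool.Agent.TH796.AL.Nv

/-- **Represented numbers are linearly disjoint from real algebraic numbers.** -/
theorem lindisjH {m : ℕ} {B : Base m} {L : ℕ → ℝ} {hL : Tendsto L atTop atTop}
    {V : Submodule ℝ (Fin m → ℝ)} {k : ℕ} {β : Fin k → ℝ} (halg : ∀ l, IsAlgebraic ℚ (β l))
    (hβ : LinearIndependent ℚ β) (r : Fin k → HR) (hrep : ∀ l, RepH B hL V (r l))
    (hsum : ∀ E : ℝ, ∑ l, algebraMap ℝ HR (β l) * r l ∈ SR L E) (l : Fin k) (E0 : ℝ) :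
    r l ∈ SR L E0 := by
  classical
  have h := kpa_thm
  have hsu := su_thm
  have hj := disj_thm
  -- the number field
  set F : IntermediateField ℚ ℝ := IntermediateField.adjoin ℚ (Set.range β) with hF
  have hfin : FiniteDimensional ℚ F := by
    apply IntermediateField.finiteDimensional_adjoin
    rintro _ ⟨l, rfl⟩
    exact (halg l).isIntegral
  have hβF : ∀ l, β l ∈ F := fun l => IntermediateField.subset_adjoin ℚ _ ⟨l, rfl⟩
  choose Zl fZ z C hz1 hz2 hz3 using hrep
  -- the joint family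
  set zz : (Σ l, Zl l) → GG := fun i => z i.1 i.2 with hzz
  set CC : ℝ := ∑ l, |C l| with hCC
  have hCl : ∀ l, C l ≤ CC := fun l => (le_abs_self _).trans
    (Finset.single_le_sum (f := fun l => |C l|) (fun _ _ => abs_nonneg _) (Finset.mem_univ l))
  obtain ⟨J, fJ, f, hind, D, H, hD, hDH⟩ := exists_ind (B := B) hL zz
  have hb1 : ∀ v j, zz (f j) ∈ Sv B L v (-CC) := fun v j =>
    (filt_v hL v).anti (neg_le_neg (hCl _)) (hz1 _ v _)
  obtain ⟨K0, hK⟩ := h m B L hL F hfin J fJ (fun j => zz (f j)) CC hind hb1 (fun j => hz2 _ _)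
  obtain ⟨t0, ht0⟩ := ev_low (B := B) hL h hsu hD
  have hinv := SR_inv hL t0 _ ht0
  -- an upper bound for `D`
  obtain ⟨t1, ht1⟩ : ∃ t1 : ℝ, rho (ev B hL D) ∈ SR L t1 := by
    refine ⟨-∑ g ∈ D.coeff.support, |lv B none g|, ?_⟩
    rw [ev_sum, map_sum]
    refine SR_sum hL _ _ fun g hg => ?_
    have h1 : ((D.coeff g : KK L hL) : GG) * ch B hL g ∈ Sv B L none (lv B none g) := by
      have := (filt_v (B := B) hL none).mul_mem ((filt_v (B := B) hL none).alg_mem (D.coeff g))
        (ch_mem (B := B) hL none g)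
      rw [zero_add] at this
      exact this
    refine SR_anti hL ?_ (SR_rho h1)
    have h2 : |lv B none g| ≤ ∑ g ∈ D.coeff.support, |lv B none g| :=
      Finset.single_le_sum (f := fun g => |lv B none g|) (fun _ _ => abs_nonneg _) hg
    have h3 := neg_abs_le (lv B none g)
    linarith
  set E : ℝ := |E0| + 1 + |t0| + |t1| + |K0| + |CC| with hE
  choose P s hs0 hs1 hs2 using fun l => hz3 l E
  -- the small combination
  set Gs : HR := ∑ l, algebraMap ℝ HR (β l) * rho (s l) with hGs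
  have hG : Gs ∈ SR L E := by
    have e1 : Gs = ∑ l, algebraMap ℝ HR (β l) * r l -
        ∑ l, algebraMap ℝ HR (β l) * (r l - rho (s l)) := by
      rw [← Finset.sum_sub_distrib]
      exact Finset.sum_congr rfl fun l _ => by ring
    rw [e1]
    refine SR_sub hL (hsum E) (SR_sum hL _ _ fun l _ => ?_)
    have := SR_mul hL (SR_cst hL (β l)) (hs2 l)
    rwa [zero_add] at this
  set Q : Fin k → J → Rg m hL := fun l i => ∑ j, P l j * H ⟨l, j⟩ i with hQ
  set A : J → RgA F m hL := fun i => ∑ l,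
    AddMonoidAlgebra.single 0 (algebraMap F (KA F hL) ⟨β l, hβF l⟩) * incR hL F (Q l i) with hA
  have hDs : ∀ l, ev B hL D * s l = ∑ i, ev B hL (Q l i) * zz (f i) := by
    intro l
    rw [hs1 l, Finset.mul_sum]
    have e1 : ∀ j, ev B hL D * (ev B hL (P l j) * z l j)
        = ∑ i, ev B hL (P l j * H ⟨l, j⟩ i) * zz (f i) := by
      intro j
      have e2 := hDH ⟨l, j⟩
      have e3 : zz ⟨l, j⟩ = z l j := rfl
      rw [e3] at e2
      rw [mul_left_comm, e2, Finset.mul_sum]
      refine Finset.sum_congr rfl fun i _ => ?_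
      rw [map_mul, mul_assoc]
    simp only [e1]
    rw [Finset.sum_comm]
    refine Finset.sum_congr rfl fun i _ => ?_
    rw [hQ]
    simp only []
    rw [map_sum, Finset.sum_mul]
  have hAs : ∑ i, evA F B hL (A i) * rho (zz (f i)) ∈ SR L (t1 + E) := by
    have e1 : ∑ i, evA F B hL (A i) * rho (zz (f i)) = rho (ev B hL D) * Gs := by
      have e2 : ∀ i, evA F B hL (A i) = ∑ l, algebraMap ℝ HR (β l) * rho (ev B hL (Q l i)) := by
        intro i
        rw [hA]
        simp only []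
        rw [map_sum]
        refine Finset.sum_congr rfl fun l _ => ?_
        rw [map_mul, evA_single0, evA_incR]
      simp only [e2, Finset.sum_mul]
      rw [Finset.sum_comm, hGs, Finset.mul_sum]
      refine Finset.sum_congr rfl fun l _ => ?_
      rw [mul_left_comm, ← map_mul, hDs l, map_sum, Finset.mul_sum]
      refine Finset.sum_congr rfl fun i _ => ?_
      rw [map_mul, mul_assoc]
    rw [e1]
    exact SR_mul hL ht1 hG
  have hsupp : ∀ l i g, (Q l i).coeff g ≠ 0 → t1 + E ≤ lv B none g + K0 := by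
    intro l i g hg
    refine hK A (t1 + E) hAs i g ?_
    intro h0
    have h1 : ∑ l, algebraMap ℝ HR (β l) * rho ((Q l i).coeff g : GG) = 0 := by
      have h2 := congrArg (fun x : KA F hL => (x : HR)) h0
      rw [hA] at h2
      simp only [] at h2
      rw [AddMonoidAlgebra.coeff_sum, Finsupp.finsetSum_apply] at h2
      have h3 : ∀ l, (AddMonoidAlgebra.single 0 (algebraMap F (KA F hL) ⟨β l, hβF l⟩)
          * incR hL F (Q l i)).coeff g
          = algebraMap F (KA F hL) ⟨β l, hβF l⟩ * inc hL F ((Q l i).coeff g) := by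
        intro l
        rw [AddMonoidAlgebra.coeff_single_zero_mul, incR_coeff]
      simp only [h3] at h2
      have h4 : ((∑ l, algebraMap F (KA F hL) ⟨β l, hβF l⟩ * inc hL F ((Q l i).coeff g) :
          KA F hL) : HR) = ∑ l, algebraMap ℝ HR (β l) * rho ((Q l i).coeff g : GG) := by
        rw [AddSubmonoidClass.coe_finsetSum]
        rfl
      rw [h4] at h2
      exact h2
    have h5 := hj (Fin k) inferInstance β hβ (fun l => ((Q l i).coeff g : GG)) h1 l
    exact hg (Subtype.ext h5)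
  -- all germs are negligible
  have h1 : ev B hL D * s l ∈ Sv B L none (t1 + E - K0 - CC) := by
    rw [hDs l]
    refine Finset.sum_induction _ (fun g => g ∈ Sv B L none (t1 + E - K0 - CC))
      (fun _ _ => (filt_v hL none).add_mem) ((filt_v hL none).zero_mem _) fun i _ => ?_
    have h2 : ev B hL (Q l i) ∈ Sv B L none (t1 + E - K0) := by
      rw [ev_sum]
      refine Finset.sum_induction _ (fun g => g ∈ Sv B L none (t1 + E - K0))
        (fun _ _ => (filt_v hL none).add_mem) ((filt_v hL none).zero_mem _) fun g hg => ?_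
      have h3 := hsupp l i g (Finsupp.mem_support_iff.1 hg)
      have := (filt_v (B := B) hL none).mul_mem
        ((filt_v (B := B) hL none).alg_mem ((Q l i).coeff g)) (ch_mem (B := B) hL none g)
      rw [zero_add] at this
      exact (filt_v hL none).anti (by linarith) this
    have h3 := (filt_v hL none).mul_mem h2 (hb1 none i)
    rw [← sub_eq_add_neg] at h3
    exact h3
  have h2 : rho (s l) ∈ SR L E0 := by
    have h3 := SR_mul hL hinv (SR_rho h1)
    have hne : rho (ev B hL D) ≠ 0 := fun h0 => ht0 (by rw [h0]; exact SR_zero _)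
    rw [map_mul, inv_mul_cancel_left₀ hne] at h3
    refine SR_anti hL ?_ h3
    have := le_abs_self t0
    have := neg_abs_le t1
    have := le_abs_self K0
    have := le_abs_self CC
    have := le_abs_self E0
    linarith
  have h3 : E0 ≤ E := by
    have := le_abs_self E0
    have := abs_nonneg t0
    have := abs_nonneg t1
    have := abs_nonneg K0
    have := abs_nonneg CC
    linarith
  have e : r l = (r l - rho (s l)) + rho (s l) := by ring
  rw [e]
  exact SR_add hL (SR_anti hL h3 (hs2 l)) h2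

lemma RepH.mono {m : ℕ} {B : Base m} {L : ℕ → ℝ} {hL : Tendsto L atTop atTop}
    {V W : Submodule ℝ (Fin m → ℝ)} (h : V ≤ W) {x : HR} (hx : RepH B hL V x) :
    RepH B hL W x := by
  obtain ⟨Z, i, z, C, h1, h2, h3⟩ := hx
  refine ⟨Z, i, z, C, h1, h2, fun E => ?_⟩
  obtain ⟨P, s, g1, g2, g3⟩ := h3 E
  exact ⟨P, s, fun j g hg => h (g1 j g hg), g2, g3⟩

/-- a lower bound contradicts negligibility -/
lemma not_negl {N K : ℕ → ℕ} (hN : ∀ n, n ≤ N n) (hK : ∀ n : ℕ, (n : ℝ) * K n ≤ N n) (A : ℝ)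
    {s : ℕ} {f : ℕ → Fin s → ℝ} (hlow : ∀ n, ∃ j, Real.exp (-(A * (K n + 1))) ≤ |f n j|)
    (h : ∀ j, gr (fun n => f n j) ∈ SR (fun n => (N n : ℝ)) 1) : False := by
  have h1 : ∀ j, ∀ᶠ n in (UU : Filter ℕ), |f n j| ≤ Real.exp (-(1 - 1 / 2) * (N n : ℝ)) :=
    fun j => mem_SR.1 (h j) (1 / 2) (by norm_num)
  have h2 : ∀ᶠ n in (UU : Filter ℕ), ∀ j, |f n j| ≤ Real.exp (-(1 - 1 / 2) * (N n : ℝ)) := by
    rw [Filter.eventually_all]
    exact h1
  obtain ⟨n0, hn0⟩ := exists_nat_gt (8 * |A| + 1)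
  obtain ⟨n, g1, g2⟩ := (h2.and (ev_of_atTop (eventually_ge_atTop n0))).exists
  obtain ⟨j, hj⟩ := hlow n
  have g3 := hj.trans (g1 j)
  rw [Real.exp_le_exp] at g3
  have h3 := hK n
  have h4 : (n : ℝ) ≤ N n := by exact_mod_cast hN n
  have h5 : (n0 : ℝ) ≤ n := by exact_mod_cast g2
  have h6 : A * (K n + 1) ≤ |A| * (K n + 1) := by gcongr; exact le_abs_self A
  have h7 : 8 * |A| * (K n + 1) ≤ n * (K n + 1) := by
    have : 8 * |A| ≤ n := by linarith
    gcongr
  have h8 : (0 : ℝ) ≤ |A| := abs_nonneg A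
  have h9 : (0 : ℝ) < n := by linarith
  nlinarith

/-- **Combinations of algebraic numbers with coefficients in predictable numbers.** -/
theorem roth {s : ℕ} (β : Fin s → ℝ) (halg : ∀ l, IsAlgebraic ℚ (β l))
    (hβ : LinearIndependent ℚ β) {κ : Type} [Fintype κ] [DecidableEq κ] (b : κ → ℕ)
    (hb : ∀ i, 2 ≤ b i) (u : κ → ℕ → ℤ) {C : ℝ} (hu : ∀ i, Simple (b i) C (u i))
    (d : ℕ) (A : ℝ) {ε : ℝ} (hε : 0 < ε) :
    ∃ R : ℕ, ∀ M K : ℕ, R * (K + 1) ≤ M → ∀ (x : κ → ℝ) (a : Fin s → (κ → Fin (d + 1)) → ℤ),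
      (∀ i, Good (b i) (u i) (x i) M K (A * Real.log (M / (K + 1)))) →
      (∀ i, |x i| ≤ Real.exp (A * (K + 1))) → (∀ l e, |(a l e : ℝ)| ≤ Real.exp (A * (K + 1))) →
      (∃ l, Real.exp (-(A * (K + 1))) ≤ |pv (a l) x|) →
      Real.exp (-(ε * M)) < |∑ l, β l * pv (a l) x| := by
  by_contra hcon
  push Not at hcon
  obtain ⟨m, B, N, hL, M, K, x, h1, h2, h3, h4, h5, h6⟩ := keyS b hb u hu A
    (fun M K x => ∃ a : Fin s → (κ → Fin (d + 1)) → ℤ,
      (∀ l e, |(a l e : ℝ)| ≤ Real.exp (A * (K + 1))) ∧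
      (∃ l, Real.exp (-(A * (K + 1))) ≤ |pv (a l) x|) ∧
      |∑ l, β l * pv (a l) x| ≤ Real.exp (-(ε * M))) (by
      intro R
      obtain ⟨M, K, hMK, x, a, g1, g2, g3, g4, g5⟩ := hcon R
      exact ⟨M, K, x, hMK, g1, g2, a, g3, g4, g5⟩)
  choose a a1 a2 a3 using h5
  have hS : ∀ l, (fun n => pv (a n l) (x n)) ∈ SQ B hL (⊤ : Submodule ℝ (Fin m → ℝ)) := fun l =>
    pv_SQ (K := K) h2 h3 x (fun i => RepH.mono le_top (h6 i)) h4 (fun n => a n l) fun n => a1 n l
  refine not_negl h3 h2 A a2 fun l => ?_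
  refine lindisjH halg hβ (fun l => gr fun n => pv (a n l) (x n)) (fun l => (mem_SQ.1 (hS l)).1)
    (fun E => ?_) l 1
  have e1 : ∑ l, algebraMap ℝ HR (β l) * gr (fun n => pv (a n l) (x n)) =
      gr fun n => ∑ l, β l * pv (a n l) (x n) := by
    have e2 : (fun n => ∑ l, β l * pv (a n l) (x n)) =
        ∑ l : Fin s, (fun _ => β l) * (fun n => pv (a n l) (x n)) := by
      funext n
      simp [Finset.sum_apply]
    have e3 : gr (fun n => ∑ l, β l * pv (a n l) (x n)) =
        grh (fun n => ∑ l, β l * pv (a n l) (x n)) := rfl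
    rw [e3, e2, map_sum]
    exact Finset.sum_congr rfl fun l _ => by rw [map_mul]; rfl
  rw [e1, mem_SR]
  intro δ hδ
  obtain ⟨n0, hn0⟩ := exists_nat_gt (|E| / ε)
  refine ev_of_atTop ?_
  filter_upwards [eventually_ge_atTop n0] with n g1
  refine (a3 n).trans (Real.exp_le_exp.2 ?_)
  have g2 : ((2 ^ n * N n : ℕ) : ℝ) ≤ M n := by exact_mod_cast h1 n
  push_cast at g2
  have g3 : (n : ℝ) ≤ 2 ^ n := by exact_mod_cast (Nat.lt_two_pow_self (n := n)).le
  have g4 : (n0 : ℝ) ≤ n := by exact_mod_cast g1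
  rw [div_lt_iff₀ hε] at hn0
  have g5 : |E| ≤ ε * 2 ^ n := by nlinarith
  have g6 : |E| * N n ≤ ε * 2 ^ n * N n := by gcongr
  have g7 : E * N n ≤ |E| * N n := by gcongr; exact le_abs_self E
  have g8 : ε * (2 ^ n * N n) ≤ ε * M n := by gcongr
  have g9 : 0 ≤ δ * (N n : ℝ) := by positivity
  nlinarith

end Pool.Agent.Run7.h103.UN
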