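import Mathlib
import Pool.Agent.Run7.h103.UN.Meas
import Pool.Agent.Run7.h103.UN.Algs

set_option autoImplicit false
set_option linter.unusedSectionVars false

/-!
# Numbers with a predictable rational multiple
-/

namespace Pool.Agent.Run7.h103.UN

open Filter Topology Pool.Agent.TH932.Abs Pool.Agent.TH932.Germs Pool.Agent.TH932.Chi
open Pool.Agent.TH932.Words Pool.Agent.TH932.Scale Finset
open Pool.Agent.TH796.AL Pool.Agent.TH796.AL.TwoB Pool.Agent.TH796.AL.Ai Pool.Agent.TH796.AL.Grp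
open Pool.Agent.TH796.AL.Final Pool.Agent.TH796.AL.Alg Pool.Agent.Run7.h103.PF
open Pool.Agent.TH796.AL.AlgA

/-- some number `(m w + l) / q` with `m ≠ 0` is predictable, up to a small error -/
def Near (b : ℕ) (u : ℕ → ℤ) (A ε : ℝ) (M K : ℕ) (w : ℝ) : Prop :=
  ∃ (m q l : ℤ) (y : ℝ), m ≠ 0 ∧ |(m : ℝ)| ≤ Real.exp (A * (K + 1)) ∧ 1 ≤ q ∧
    (q : ℝ) ≤ Real.exp (A * (K + 1)) ∧ |q * y - (m * w + l)| ≤ Real.exp (-(ε * M)) ∧
    Good b u y M K (A * Real.log (M / (K + 1)))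

lemma digitB_add_int (b : ℕ) (x : ℝ) (n : ℤ) (k : ℕ) :
    Pool.Agent.R473.TB.digit b (x + n) k = Pool.Agent.R473.TB.digit b x k :=
  digit_add_int b x n k

lemma good_fract {b : ℕ} {u : ℕ → ℤ} {y : ℝ} {M K : ℕ} {E : ℝ} (h : Good b u y M K E) :
    Good b u (Int.fract y) M K E := by
  obtain ⟨k, hk, o, g, s, h1⟩ := h
  refine ⟨k, hk, o, g, s, ?_⟩
  have e : ∀ j, Pool.Agent.R473.TB.digit b y j = Pool.Agent.R473.TB.digit b (Int.fract y) j := by
    intro j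
    rw [← digitB_add_int b (Int.fract y) ⌊y⌋ j, Int.fract_add_floor]
  simp only [← e]
  exact h1

lemma good_monoE {b : ℕ} {u : ℕ → ℤ} {y : ℝ} {M K : ℕ} {E F : ℝ} (hEF : E ≤ F)
    (h : Good b u y M K E) : Good b u y M K F := by
  obtain ⟨k, hk, o, g, s, h1⟩ := h
  exact ⟨k, hk, o, g, s, h1.trans hEF⟩

/-- negligible changes -/
lemma RepH.congr {m : ℕ} {B : Base m} {L : ℕ → ℝ} {hL : Tendsto L atTop atTop}
    {V : Submodule ℝ (Fin m → ℝ)} {x y : HR} (hx : RepH B hL V x)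
    (h : ∀ E : ℝ, y - x ∈ SR L E) : RepH B hL V y := by
  obtain ⟨Z, i, z, C, h1, h2, h3⟩ := hx
  refine ⟨Z, i, z, C, h1, h2, fun E => ?_⟩
  obtain ⟨P, s, g1, g2, g3⟩ := h3 E
  refine ⟨P, s, g1, g2, ?_⟩
  have e : y - rho s = (y - x) + (x - rho s) := by ring
  rw [e]
  exact SR_add hL (h E) g3

/-- `e^(-εM)` is negligible -/
lemma small_of_M {N M : ℕ → ℕ} (hM : ∀ n, 2 ^ n * N n ≤ M n) {ε : ℝ} (hε : 0 < ε) {f : ℕ → ℝ}
    (hf : ∀ n, |f n| ≤ Real.exp (-(ε * M n))) (E : ℝ) : gr f ∈ SR (fun n => (N n : ℝ)) E := by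
  rw [mem_SR]
  intro δ hδ
  obtain ⟨n0, hn0⟩ := exists_nat_gt (|E| / ε)
  refine ev_of_atTop ?_
  filter_upwards [eventually_ge_atTop n0] with n g1
  refine (hf n).trans (Real.exp_le_exp.2 ?_)
  have g2 : ((2 ^ n * N n : ℕ) : ℝ) ≤ M n := by exact_mod_cast hM n
  push_cast at g2
  have g3 : (n : ℝ) ≤ 2 ^ n := by exact_mod_cast (Nat.lt_two_pow_self (n := n)).le
  have g4 : (n0 : ℝ) ≤ n := by exact_mod_cast g1
  rw [div_lt_iff₀ hε] at hn0
  have g5 : |E| ≤ ε * 2 ^ n := by nlinarith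
  have g6 : |E| * N n ≤ ε * 2 ^ n * N n := by gcongr
  have g7 : E * N n ≤ |E| * N n := by gcongr; exact le_abs_self E
  have g8 : ε * (2 ^ n * N n) ≤ ε * M n := by gcongr
  have g9 : 0 ≤ δ * (N n : ℝ) := by positivity
  nlinarith

/-- **Simultaneous representation of sequences of numbers with predictable multiples.** -/
theorem keyN {ι : Type} [Fintype ι] (b : ι → ℕ) (hb : ∀ i, 2 ≤ b i) (u : ι → ℕ → ℤ) {C : ℝ}
    (hu : ∀ i, Simple (b i) C (u i)) (A : ℝ) {ε : ℝ} (hε : 0 < ε)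
    (T : ℕ → ℕ → (ι → ℝ) → Prop)
    (h : ∀ R : ℕ, ∃ (M K : ℕ) (x : ι → ℝ), R * (K + 1) ≤ M ∧
      (∀ i, Near (b i) (u i) A ε M K (x i)) ∧
      (∀ i, |x i| ≤ Real.exp (A * (K + 1))) ∧ T M K x) :
    ∃ (m : ℕ) (B : Base m) (N : ℕ → ℕ) (hL : Tendsto (fun n => (N n : ℝ)) atTop atTop)
      (M K : ℕ → ℕ) (x : ℕ → ι → ℝ), (∀ n, 2 ^ n * N n ≤ M n) ∧ (∀ n : ℕ, (n : ℝ) * K n ≤ N n) ∧
      (∀ n, n ≤ N n) ∧ (∀ n i, |x n i| ≤ Real.exp (A * (K n + 1))) ∧ (∀ n, T (M n) (K n) (x n)) ∧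
      ∀ i, RepH B hL (VS B (GA {b i})) (gr fun n => x n i) := by
  classical
  set A' : ℝ := |A| with hA'
  set A2 : ℝ := 2 * |A| + 3 with hA2
  obtain ⟨m, B, N, hL, M, K, y, h1, h2, h3, h4, h5, h6⟩ := keyS b hb u hu A'
    (fun M K y => ∃ (x : ι → ℝ) (mm q l : ι → ℤ), (∀ i, mm i ≠ 0) ∧
      (∀ i, |(mm i : ℝ)| ≤ Real.exp (A2 * (K + 1))) ∧
      (∀ i, |(q i : ℝ)| ≤ Real.exp (A2 * (K + 1))) ∧
      (∀ i, |(l i : ℝ)| ≤ Real.exp (A2 * (K + 1))) ∧
      (∀ i, |q i * y i - (mm i * x i + l i)| ≤ Real.exp (-(ε * M))) ∧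
      (∀ i, |x i| ≤ Real.exp (A * (K + 1))) ∧ T M K x) (by
    intro R
    obtain ⟨M, K, x, hMK, g1, g2, g3⟩ := h (R + 1)
    choose mm q l y k1 k2 k3 k4 k5 k6 using g1
    have hlog := log_nonneg_of (by omega : 1 ≤ R + 1) hMK
    have hAA := le_abs_self A
    have hA0 := abs_nonneg A
    have hexp1 : (1 : ℝ) ≤ Real.exp (|A| * (K + 1)) := Real.one_le_exp (by positivity)
    have hAe : Real.exp (A * (K + 1)) ≤ Real.exp (|A| * (K + 1)) := exp_mono hAA K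
    refine ⟨M, K, fun i => Int.fract (y i),
      le_trans (Nat.mul_le_mul_right _ (Nat.le_succ R)) hMK, fun i => ?_, fun i => ?_,
      x, mm, q, fun i => l i - q i * ⌊y i⌋, k1, fun i => ?_, fun i => ?_, fun i => ?_, fun i => ?_,
      g2, g3⟩
    · exact good_fract (good_monoE (mul_le_mul_of_nonneg_right hAA hlog) (k6 i))
    · rw [abs_of_nonneg (Int.fract_nonneg _)]
      exact (Int.fract_lt_one _).le.trans hexp1
    · exact (k2 i).trans (exp_mono (by rw [hA2]; linarith) K)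
    · rw [abs_of_pos (by exact_mod_cast (by have := k3 i; omega : 0 < q i))]
      exact (k4 i).trans (exp_mono (by rw [hA2]; linarith) K)
    · have e : (((l i - q i * ⌊y i⌋ : ℤ)) : ℝ) = -(q i * y i - (mm i * x i + l i)) * (-1) * (-1)
          + q i * Int.fract (y i) - mm i * x i + 0 := by
        push_cast
        rw [Int.fract]
        ring
      have hqa : |(q i : ℝ)| ≤ Real.exp (|A| * (K + 1)) := by
        rw [abs_of_pos (by exact_mod_cast (by have := k3 i; omega : 0 < q i))]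
        exact (k4 i).trans hAe
      have t1 : |(q i : ℝ) * Int.fract (y i)| ≤ Real.exp (|A| * (K + 1)) * 1 := by
        rw [abs_mul, abs_of_nonneg (Int.fract_nonneg (y i))]
        gcongr
        exact (Int.fract_lt_one _).le
      have t2 : |(mm i : ℝ) * x i| ≤ Real.exp (|A| * (K + 1)) * Real.exp (|A| * (K + 1)) := by
        rw [abs_mul]
        gcongr
        · exact (k2 i).trans hAe
        · exact (g2 i).trans hAe
      have t3 : |q i * y i - (mm i * x i + l i)| ≤ 1 := (k5 i).trans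
        (Real.exp_le_one_iff.2 (by
          have : 0 ≤ ε * (M : ℝ) := by positivity
          linarith))
      have t4 : |(((l i - q i * ⌊y i⌋ : ℤ)) : ℝ)| ≤
          3 * (Real.exp (|A| * (K + 1)) * Real.exp (|A| * (K + 1))) := by
        have e2 : (((l i - q i * ⌊y i⌋ : ℤ)) : ℝ) = (q i * Int.fract (y i) - mm i * x i) -
            (q i * y i - (mm i * x i + l i)) := by
          push_cast
          rw [Int.fract]
          ring
        rw [e2]
        have s1 := abs_sub (q i * Int.fract (y i) - mm i * x i)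
          (q i * y i - (mm i * x i + l i))
        have s2 := abs_sub ((q i : ℝ) * Int.fract (y i)) (mm i * x i)
        nlinarith
      refine t4.trans ?_
      have s3 := exp_const (c := 3) (2 * |A|) K
      rw [abs_of_pos (by norm_num : (0 : ℝ) < 3)] at s3
      have s4 : Real.exp (|A| * (K + 1)) * Real.exp (|A| * (K + 1)) =
          Real.exp (2 * |A| * (K + 1)) := by
        rw [← Real.exp_add]; ring_nf
      rw [s4]
      exact s3
    · have e : (q i : ℝ) * Int.fract (y i) - (mm i * x i + ((l i - q i * ⌊y i⌋ : ℤ) : ℝ)) =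
          q i * y i - (mm i * x i + l i) := by
        push_cast
        rw [Int.fract]
        ring
      rw [e]
      exact k5 i)
  choose x mm q l k1 k2 k3 k4 k5 k6 k7 using h5
  refine ⟨m, B, N, hL, M, K, x, h1, h2, h3, k6, k7, fun i => ?_⟩
  have hm1 : ∀ n, (1 : ℝ) ≤ |(mm n i : ℝ)| := fun n => by
    exact_mod_cast Int.one_le_abs (k1 n i)
  have r1 : RepH B hL (VS B (GA {b i})) (gr fun n => (((q n i : ℚ) / (mm n i : ℚ) : ℚ) : ℝ)) :=
    repH_int B hL _ (negl_of_small h3 h2 A2 fun n => k2 n i) (fun n => q n i)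
      (negl_of_small h3 h2 A2 fun n => k3 n i) (fun n => k1 n i) (fun n => rfl)
  have r2 : RepH B hL (VS B (GA {b i})) (gr fun n => (((-l n i : ℤ) : ℚ) / (mm n i : ℚ) : ℚ)) :=
    repH_int B hL _ (negl_of_small h3 h2 A2 fun n => k2 n i) (fun n => -l n i)
      (negl_of_small h3 h2 A2 fun n => by
        push_cast
        rw [abs_neg]
        exact k4 n i) (fun n => k1 n i) (fun n => rfl)
  have r3 : gr (fun n => (((q n i : ℚ) / (mm n i : ℚ) : ℚ) : ℝ)) ∈ SR (fun n => (N n : ℝ)) 0 :=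
    bdd_of_small h3 h2 A2 fun n => by
      push_cast
      rw [abs_div]
      refine (div_le_self (abs_nonneg _) (hm1 n)).trans (k3 n i)
  have r4 : gr (fun n => y n i) ∈ SR (fun n => (N n : ℝ)) 0 :=
    bdd_of_small h3 h2 A' fun n => h4 n i
  have r5 := ((r1.mul (h6 i) r3 r4).add r2)
  rw [gr_mul, gr_add] at r5
  refine r5.congr fun E => ?_
  rw [gr_sub]
  refine small_of_M h1 hε (fun n => ?_) E
  have hm0 : (mm n i : ℝ) ≠ 0 := by exact_mod_cast k1 n i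
  have e : x n i - ((((q n i : ℚ) / (mm n i : ℚ) : ℚ) : ℝ) * y n i +
      ((((-l n i : ℤ) : ℚ) / (mm n i : ℚ) : ℚ) : ℝ)) =
      -((q n i * y n i - (mm n i * x n i + l n i)) / mm n i) := by
    push_cast
    field_simp
    ring
  rw [e, abs_neg, abs_div]
  exact (div_le_self (abs_nonneg _) (hm1 n)).trans (k5 n i)

/-- the number `z` satisfies, up to `e^(-εM)`, an equation whose coefficients are polynomials in
numbers with predictable multiples -/
def BadN {κ : Type} [Fintype κ] [DecidableEq κ] (b : ℕ) (u : κ → ℕ → ℤ) (z : ℝ) (d : ℕ)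
    (A ε : ℝ) (M K : ℕ) : Prop :=
  ∃ x : κ → ℝ, (∀ i, Near b (u i) A ε M K (x i)) ∧
    (∀ i, |x i| ≤ Real.exp (A * (K + 1))) ∧
    ∃ a : Fin (d + 1) → (κ → Fin (d + 1)) → ℤ, (∀ j e, |(a j e : ℝ)| ≤ Real.exp (A * (K + 1))) ∧
      (∃ j, Real.exp (-(A * (K + 1))) ≤ |pv (a j) x|) ∧
      |∑ j, pv (a j) x * z ^ (j : ℕ)| ≤ Real.exp (-(ε * M))

/-- **Two groups of bases, uniformly.** -/
theorem pairN {κ : Type} [Fintype κ] [DecidableEq κ] {b c : ℕ} (hb : 2 ≤ b) (hc : 2 ≤ c)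
    (hbc : GA {b} ⊓ GA {c} = ⊥) (u v : κ → ℕ → ℤ) {C : ℝ} (hu : ∀ i, Simple b C (u i))
    (hv : ∀ i, Simple c C (v i)) {z : ℝ} (hz : Transcendental ℚ z)
    (hU : ¬ Pool.Agent.TH796.AL.Ai.UNumber z) (d : ℕ) (A : ℝ) {ε : ℝ} (hε : 0 < ε) :
    ∃ R : ℕ, ∀ M K : ℕ, R * (K + 1) ≤ M → BadN b u z d A ε M K → BadN c v z d A ε M K → False := by
  by_contra hcon
  push Not at hcon
  obtain ⟨m, B, N, hL, M, K, x, h1, h2, h3, h4, h5, h6⟩ := keyN (ι := κ ⊕ κ)
    (Sum.elim (fun _ => b) fun _ => c) (by rintro (i | i); exacts [hb, hc]) (Sum.elim u v)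
    (C := C) (by rintro (i | i); exacts [hu i, hv i]) A hε
    (fun M K x => (∃ a : Fin (d + 1) → (κ → Fin (d + 1)) → ℤ,
      (∀ j e, |(a j e : ℝ)| ≤ Real.exp (A * (K + 1))) ∧
      (∃ j, Real.exp (-(A * (K + 1))) ≤ |pv (a j) (fun i => x (Sum.inl i))|) ∧
      |∑ j, pv (a j) (fun i => x (Sum.inl i)) * z ^ (j : ℕ)| ≤ Real.exp (-(ε * M))) ∧
      (∃ a : Fin (d + 1) → (κ → Fin (d + 1)) → ℤ,
      (∀ j e, |(a j e : ℝ)| ≤ Real.exp (A * (K + 1))) ∧
      (∃ j, Real.exp (-(A * (K + 1))) ≤ |pv (a j) (fun i => x (Sum.inr i))|) ∧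
      |∑ j, pv (a j) (fun i => x (Sum.inr i)) * z ^ (j : ℕ)| ≤ Real.exp (-(ε * M)))) (by
      intro R
      obtain ⟨M, K, hMK, ⟨x, hx1, hx2, hx3⟩, ⟨y, hy1, hy2, hy3⟩, -⟩ := hcon R
      refine ⟨M, K, Sum.elim x y, hMK, ?_, ?_, hx3, hy3⟩
      · rintro (i | i)
        · exact hx1 i
        · exact hy1 i
      · rintro (i | i)
        · exact hx2 i
        · exact hy2 i)
  choose a a1 a2 a3 using fun n => (h5 n).1
  choose a' a1' a2' a3' using fun n => (h5 n).2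
  have g1 := alg_of (B := B) (hL := hL) (V := VS B (GA {b})) h1 h2 h3 hε
    (fun n i => x n (Sum.inl i)) (fun i => h6 (Sum.inl i)) (fun n i => h4 n _) a a1 a2 a3
  have g2 := alg_of (B := B) (hL := hL) (V := VS B (GA {c})) h1 h2 h3 hε
    (fun n i => x n (Sum.inr i)) (fun i => h6 (Sum.inr i)) (fun n i => h4 n _) a' a1' a2' a3'
  exact hU (unumber_of_alg hz (alg_botH (disj B hbc) g1 g2))

/-- Some number `(m w + l) / q` with integers `m ≠ 0`, `l` and `q ≥ 1`, where `|m|` and `q` are at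
most `e ^ (A (K + 1))`, is equal, up to `e ^ (-ε M) / q`, to a number `y` with predictable digits:
some automaton with at most `K` states which reads the differences between the digits of `y` in base
`b` and the letters of `u` and predicts the next one makes at most `A log (M / (K + 1))` errors among
the first `M` places. -/
def PredictableMultiple (b : ℕ) (u : ℕ → ℤ) (A ε : ℝ) (M K : ℕ) (w : ℝ) : Prop :=
  ∃ (m q l : ℤ) (y : ℝ), m ≠ 0 ∧ |(m : ℝ)| ≤ Real.exp (A * (K + 1)) ∧ 1 ≤ q ∧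
    (q : ℝ) ≤ Real.exp (A * (K + 1)) ∧ |q * y - (m * w + l)| ≤ Real.exp (-(ε * M)) ∧
    ¬ Unpredictable b u y M K (A * Real.log (M / (K + 1)))

lemma near_of {b : ℕ} {u : ℕ → ℤ} {A ε : ℝ} {M K : ℕ} {w : ℝ}
    (h : PredictableMultiple b u A ε M K w) : Near b u A ε M K w := by
  obtain ⟨m, q, l, y, h1, h2, h3, h4, h5, h6⟩ := h
  exact ⟨m, q, l, y, h1, h2, h3, h4, h5, good_of h6⟩

lemma PredictableMultiple.mono_A {b : ℕ} {u : ℕ → ℤ} {A B ε : ℝ} {M K : ℕ} {w : ℝ} (hAB : A ≤ B)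
    (hlog : 0 ≤ Real.log ((M : ℝ) / (K + 1))) (h : PredictableMultiple b u A ε M K w) :
    PredictableMultiple b u B ε M K w := by
  obtain ⟨m, q, l, y, h1, h2, h3, h4, h5, h6⟩ := h
  exact ⟨m, q, l, y, h1, h2.trans (exp_mono hAB K), h3, h4.trans (exp_mono hAB K), h5,
    not_unpredictable_mono hAB hlog h6⟩

lemma PredictableMultiple.neg {b : ℕ} {u : ℕ → ℤ} {A ε : ℝ} {M K : ℕ} {w : ℝ}
    (h : PredictableMultiple b u A ε M K w) : PredictableMultiple b u A ε M K (-w) := by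
  obtain ⟨m, q, l, y, h1, h2, h3, h4, h5, h6⟩ := h
  refine ⟨-m, q, l, y, neg_ne_zero.2 h1, ?_, h3, h4, ?_, h6⟩
  · push_cast
    rwa [abs_neg]
  · have e : (q : ℝ) * y - (((-m : ℤ) : ℝ) * -w + l) = q * y - (m * w + l) := by
      push_cast
      ring
    rwa [e]

/-- **Measure over predictable numbers, for all bases but one.** -/
theorem measure_allN (F : Finset ℕ) (hF2 : ∀ b ∈ F, 2 ≤ b)
    (hF : ∀ b ∈ F, ∀ c ∈ F, b ≠ c → Independent b c) {k : ℕ} (u : ℕ → Fin k → ℕ → ℤ) {C : ℝ}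
    (hu : ∀ b ∈ F, ∀ i, SimpleWord b C (u b i)) {z : ℝ} (hz : Transcendental ℚ z)
    (hU : ¬ Pool.Agent.Run7.h103.PF.UNumber z) (d : ℕ) (A : ℝ) {ε : ℝ} (hε : 0 < ε) :
    ∃ R : ℕ, ∀ M K : ℕ, R * (K + 1) ≤ M → ∃ c : ℕ, ∀ b ∈ F, b ≠ c →
      ∀ (x : Fin k → ℝ) (a : Fin (d + 1) → (Fin k → Fin (d + 1)) → ℤ),
        (∀ i, PredictableMultiple b (u b i) A ε M K (x i)) →
        (∀ i, |x i| ≤ Real.exp (A * (K + 1))) → (∀ j, SmallCoeff A K (a j)) →
        (∃ j, Real.exp (-(A * (K + 1))) ≤ |value (a j) x|) →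
        Real.exp (-(ε * M)) < |∑ j, value (a j) x * z ^ (j : ℕ)| := by
  classical
  have h1 : ∀ p : F × F, ∃ R : ℕ, (p.1 : ℕ) ≠ p.2 → ∀ M K : ℕ, R * (K + 1) ≤ M →
      BadN (p.1 : ℕ) (u p.1) z d A ε M K → BadN (p.2 : ℕ) (u p.2) z d A ε M K → False := by
    intro p
    by_cases hp : (p.1 : ℕ) = p.2
    · exact ⟨0, fun h => absurd hp h⟩
    · obtain ⟨R, hR⟩ := pairN (κ := Fin k) (hF2 _ p.1.2) (hF2 _ p.2.2)
        (Pool.Agent.TH796.AL.Ai.group_inf (hF2 _ p.1.2) (hF2 _ p.2.2) (hF _ p.1.2 _ p.2.2 hp))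
        (u p.1) (u p.2) (fun i => simple_of (hu _ p.1.2 i)) (fun i => simple_of (hu _ p.2.2 i))
        hz hU d A hε
      exact ⟨R, fun _ => hR⟩
  choose R hR using h1
  refine ⟨∑ p, R p, fun M K hMK => ?_⟩
  have hRp : ∀ p, R p * (K + 1) ≤ M := fun p => le_trans (Nat.mul_le_mul_right _
    (Finset.single_le_sum (f := R) (fun _ _ => Nat.zero_le _) (Finset.mem_univ p))) hMK
  have hbad : ∀ b (x : Fin k → ℝ) (a : Fin (d + 1) → (Fin k → Fin (d + 1)) → ℤ),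
      (∀ i, PredictableMultiple b (u b i) A ε M K (x i)) →
      (∀ i, |x i| ≤ Real.exp (A * (K + 1))) → (∀ j, SmallCoeff A K (a j)) →
      (∃ j, Real.exp (-(A * (K + 1))) ≤ |value (a j) x|) →
      |∑ j, value (a j) x * z ^ (j : ℕ)| ≤ Real.exp (-(ε * M)) → BadN b (u b) z d A ε M K :=
    fun b x a g1 g2 g3 g4 g5 => ⟨x, fun i => near_of (g1 i), g2, a, g3, g4, g5⟩
  by_cases hex : ∃ c ∈ F, BadN c (u c) z d A ε M K
  · obtain ⟨c, hc, hcb⟩ := hex
    refine ⟨c, fun b hb hbc x a g1 g2 g3 g4 => ?_⟩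
    by_contra hcon
    exact hR (⟨b, hb⟩, ⟨c, hc⟩) hbc M K (hRp _) (hbad b x a g1 g2 g3 g4 (not_lt.1 hcon)) hcb
  · refine ⟨0, fun b hb _ x a g1 g2 g3 g4 => ?_⟩
    by_contra hcon
    exact hex ⟨b, hb, hbad b x a g1 g2 g3 g4 (not_lt.1 hcon)⟩

lemma value_X {k d : ℕ} (j : Fin k) (n : ℤ) (x : Fin k → ℝ) :
    value (d := d + 1) (mono (Pi.single j 1) n) x = n * x j := by
  rw [value_mono, Finset.prod_eq_single j]
  · simp
  · intro i _ hi
    rw [Pi.single_eq_of_ne hi]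
    simp
  · intro h
    exact absurd (Finset.mem_univ _) h

lemma value_const {k d : ℕ} (n : ℤ) (x : Fin k → ℝ) :
    value (d := d) (mono 0 n) x = n := by
  rw [value_mono]
  simp

/-- monic polynomials with predictable coefficients -/
theorem monic_all (F : Finset ℕ) (hF2 : ∀ b ∈ F, 2 ≤ b)
    (hF : ∀ b ∈ F, ∀ c ∈ F, b ≠ c → Independent b c) {d : ℕ} (u : ℕ → Fin d → ℕ → ℤ) {C : ℝ}
    (hu : ∀ b ∈ F, ∀ i, SimpleWord b C (u b i)) {z : ℝ} (hz : Transcendental ℚ z)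
    (hU : ¬ Pool.Agent.Run7.h103.PF.UNumber z) (A : ℝ) {ε : ℝ} (hε : 0 < ε) :
    ∃ R : ℕ, 1 ≤ R ∧ ∀ M K : ℕ, R * (K + 1) ≤ M → ∃ c : ℕ, ∀ b ∈ F, b ≠ c →
      ∀ x : Fin d → ℝ, (∀ i, PredictableMultiple b (u b i) A ε M K (x i)) →
        (∀ i, |x i| ≤ Real.exp (A * (K + 1))) →
        Real.exp (-(ε * M)) < |z ^ d + ∑ j, x j * z ^ (j : ℕ)| := by
  obtain ⟨R, hR⟩ := measure_allN F hF2 hF u hu hz hU (d + 1) |A| hε
  refine ⟨R + 1, by omega, fun M K hMK => ?_⟩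
  have hlog := log_nonneg_of (by omega : 1 ≤ R + 1) hMK
  obtain ⟨c, hc⟩ := hR M K (le_trans (Nat.mul_le_mul_right _ (Nat.le_succ R)) hMK)
  refine ⟨c, fun b hb hbc x hx hxA => ?_⟩
  have hone : (1 : ℝ) ≤ Real.exp (|A| * (K + 1)) := Real.one_le_exp (by positivity)
  set a : Fin (d + 1 + 1) → (Fin d → Fin (d + 1 + 1)) → ℤ := fun j =>
    if h : (j : ℕ) < d then mono (Pi.single ⟨j, h⟩ 1) 1 else
      if (j : ℕ) = d then mono 0 1 else 0 with ha
  have ha1 : ∀ j : Fin d, a j.castSucc.castSucc = mono (Pi.single j 1) 1 := by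
    intro j
    rw [ha]
    simp
  have ha2 : a (Fin.last d).castSucc = mono 0 1 := by
    rw [ha]
    simp
  have ha3 : a (Fin.last (d + 1)) = 0 := by
    rw [ha]
    simp
  have h1 := hc b hb hbc x a (fun i => (hx i).mono_A (le_abs_self A) hlog)
    (fun i => (hxA i).trans (exp_mono (le_abs_self A) K)) (by
    intro j
    rw [ha]
    simp only []
    split_ifs
    · exact small_mono (by simpa using hone)
    · exact small_mono (by simpa using hone)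
    · exact small_zero) ⟨(Fin.last d).castSucc, by
    rw [ha2, value_const]
    simp only [Int.cast_one, abs_one]
    rw [Real.exp_le_one_iff]
    have : 0 ≤ |A| * ((K : ℝ) + 1) := by positivity
    linarith⟩
  rw [Fin.sum_univ_castSucc, Fin.sum_univ_castSucc] at h1
  simp only [ha1, ha2, ha3, value_X, value_const, value_zero, Int.cast_one, one_mul, zero_mul,
    add_zero, Fin.val_castSucc, Fin.val_last] at h1
  rwa [add_comm] at h1

/-- **Measure over predictable numbers, for all bases but one**, with a finite set of words. -/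
theorem measure_allW (F : Finset ℕ) (hF2 : ∀ b ∈ F, 2 ≤ b)
    (hF : ∀ b ∈ F, ∀ c ∈ F, b ≠ c → Independent b c) (k : ℕ) {W : Type} [Finite W]
    (u : ℕ → W → ℕ → ℤ) {C : ℝ}
    (hu : ∀ b ∈ F, ∀ i, SimpleWord b C (u b i)) {z : ℝ} (hz : Transcendental ℚ z)
    (hU : ¬ Pool.Agent.Run7.h103.PF.UNumber z) (d : ℕ) (A : ℝ) {ε : ℝ} (hε : 0 < ε) :
    ∃ R : ℕ, 1 ≤ R ∧ ∀ M K : ℕ, R * (K + 1) ≤ M → ∃ c : ℕ, ∀ b ∈ F, b ≠ c →
      ∀ (σ : Fin k → W) (x : Fin k → ℝ) (a : Fin (d + 1) → (Fin k → Fin (d + 1)) → ℤ),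
        (∀ i, PredictableMultiple b (u b (σ i)) A ε M K (x i)) →
        (∀ i, |x i| ≤ Real.exp (A * (K + 1))) → (∀ j, SmallCoeff A K (a j)) →
        (∃ j, Real.exp (-(A * (K + 1))) ≤ |value (a j) x|) →
        Real.exp (-(ε * M)) < |∑ j, value (a j) x * z ^ (j : ℕ)| := by
  classical
  have : Fintype W := Fintype.ofFinite W
  have h1 : ∀ p : (F × F) × ((Fin k → W) × (Fin k → W)), ∃ R : ℕ, (p.1.1 : ℕ) ≠ p.1.2 →
      ∀ M K : ℕ, R * (K + 1) ≤ M →
      BadN (p.1.1 : ℕ) (fun i => u p.1.1 (p.2.1 i)) z d A ε M K →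
      BadN (p.1.2 : ℕ) (fun i => u p.1.2 (p.2.2 i)) z d A ε M K → False := by
    intro p
    by_cases hp : (p.1.1 : ℕ) = p.1.2
    · exact ⟨0, fun h => absurd hp h⟩
    · obtain ⟨R, hR⟩ := pairN (κ := Fin k) (hF2 _ p.1.1.2) (hF2 _ p.1.2.2)
        (Pool.Agent.TH796.AL.Ai.group_inf (hF2 _ p.1.1.2) (hF2 _ p.1.2.2)
          (hF _ p.1.1.2 _ p.1.2.2 hp))
        (fun i => u p.1.1 (p.2.1 i)) (fun i => u p.1.2 (p.2.2 i))
        (fun i => simple_of (hu _ p.1.1.2 _)) (fun i => simple_of (hu _ p.1.2.2 _))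
        hz hU d A hε
      exact ⟨R, fun _ => hR⟩
  choose R hR using h1
  refine ⟨∑ p, R p + 1, by omega, fun M K hMK => ?_⟩
  have hRp : ∀ p, R p * (K + 1) ≤ M := fun p => le_trans (Nat.mul_le_mul_right _
    ((Finset.single_le_sum (f := R) (fun _ _ => Nat.zero_le _) (Finset.mem_univ p)).trans
      (Nat.le_succ _))) hMK
  have hbad : ∀ b (σ : Fin k → W) (x : Fin k → ℝ) (a : Fin (d + 1) → (Fin k → Fin (d + 1)) → ℤ),
      (∀ i, PredictableMultiple b (u b (σ i)) A ε M K (x i)) →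
      (∀ i, |x i| ≤ Real.exp (A * (K + 1))) → (∀ j, SmallCoeff A K (a j)) →
      (∃ j, Real.exp (-(A * (K + 1))) ≤ |value (a j) x|) →
      |∑ j, value (a j) x * z ^ (j : ℕ)| ≤ Real.exp (-(ε * M)) →
      BadN b (fun i => u b (σ i)) z d A ε M K :=
    fun b σ x a g1 g2 g3 g4 g5 => ⟨x, fun i => near_of (g1 i), g2, a, g3, g4, g5⟩
  by_cases hex : ∃ c ∈ F, ∃ σ : Fin k → W, BadN c (fun i => u c (σ i)) z d A ε M K
  · obtain ⟨c, hc, τ, hcb⟩ := hex
    refine ⟨c, fun b hb hbc σ x a g1 g2 g3 g4 => ?_⟩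
    by_contra hcon
    exact hR ((⟨b, hb⟩, ⟨c, hc⟩), (σ, τ)) hbc M K (hRp _)
      (hbad b σ x a g1 g2 g3 g4 (not_lt.1 hcon)) hcb
  · refine ⟨0, fun b hb _ σ x a g1 g2 g3 g4 => ?_⟩
    by_contra hcon
    exact hex ⟨b, hb, σ, hbad b σ x a g1 g2 g3 g4 (not_lt.1 hcon)⟩

end Pool.Agent.Run7.h103.UN
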