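import Mathlib
import Pool.Agent.TH796.AL.AlgA

set_option autoImplicit false
set_option linter.unusedSectionVars false

/-!
# Sums of linearly disjoint spaces and spaces of small dimension
-/

namespace Pool.Agent.Run7.h103.UN

open Pool.Agent.TH796.AL.AlgA

section field

variable {k V : Type} [Field k] [AddCommGroup V] [Module k V]

/-- intersecting with a subspace of small codimension -/
lemma finrank_le_inf {S U T : Submodule k V} [FiniteDimensional k S] [FiniteDimensional k T]
    (h : S ≤ U ⊔ T) : Module.finrank k S ≤ Module.finrank k (S ⊓ U : Submodule k V) +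
      Module.finrank k T := by
  have h1 := LinearMap.finrank_range_add_finrank_ker (U.mkQ.domRestrict S)
  have h2 : Module.finrank k (LinearMap.ker (U.mkQ.domRestrict S)) ≤
      Module.finrank k (S ⊓ U : Submodule k V) := by
    have e : (LinearMap.ker (U.mkQ.domRestrict S)).map S.subtype ≤ S ⊓ U := by
      rintro _ ⟨x, hx, rfl⟩
      refine ⟨x.2, ?_⟩
      have h3 : U.mkQ (x : V) = 0 := hx
      simpa using h3
    have h3 : Module.finrank k ((LinearMap.ker (U.mkQ.domRestrict S)).map S.subtype) =
        Module.finrank k (LinearMap.ker (U.mkQ.domRestrict S)) :=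
      LinearEquiv.finrank_eq
        (Submodule.equivMapOfInjective S.subtype S.injective_subtype _).symm
    rw [← h3]
    exact Submodule.finrank_mono e
  have h3 : Module.finrank k (LinearMap.range (U.mkQ.domRestrict S)) ≤ Module.finrank k T := by
    have e : LinearMap.range (U.mkQ.domRestrict S) ≤ T.map U.mkQ := by
      rintro _ ⟨x, rfl⟩
      obtain ⟨u, hu, t, ht, hut⟩ := Submodule.mem_sup.1 (h x.2)
      refine ⟨t, ht, ?_⟩
      change U.mkQ t = U.mkQ (x : V)
      rw [← hut, map_add]
      have : U.mkQ u = 0 := by simpa using hu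
      rw [this, zero_add]
    exact (Submodule.finrank_mono e).trans (Submodule.finrank_map_le _ _)
  omega

/-- **The rank is at most `2 D + 1`.** -/
lemma finrank_le_two {S U W T T' P : Submodule k V} [FiniteDimensional k S]
    [FiniteDimensional k T] [FiniteDimensional k T'] [FiniteDimensional k P] {D : ℕ}
    (hUW : U ⊓ W ≤ P) (hP : Module.finrank k P ≤ 1) (h : S ≤ U ⊔ T) (h' : S ≤ W ⊔ T')
    (hT : Module.finrank k T ≤ D) (hT' : Module.finrank k T' ≤ D) :
    Module.finrank k S ≤ 2 * D + 1 := by
  have h1 := finrank_le_inf h
  have : FiniteDimensional k (S ⊓ U : Submodule k V) :=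
    Submodule.finiteDimensional_of_le inf_le_left
  have h2 := finrank_le_inf (S := S ⊓ U) (U := W) (T := T') (inf_le_left.trans h')
  have h3 : Module.finrank k ((S ⊓ U) ⊓ W : Submodule k V) ≤ Module.finrank k P := by
    refine Submodule.finrank_mono ?_
    rw [inf_assoc]
    exact inf_le_right.trans hUW
  omega

end field

section frac

variable {R F : Type} [CommRing R] [IsDomain R] [Field F] [Algebra R F] [FaithfulSMul R F]
variable (k : Type) [Field k] [Algebra R k] [IsFractionRing R k] [Algebra k F] [IsScalarTower R k F]

/-- linear independence over the ring and its fraction field -/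
lemma li_iff {ι : Type} [Fintype ι] {x : ι → F} : LI (R := R) x ↔ LinearIndependent k x := by
  rw [← LinearIndependent.iff_fractionRing R k, Fintype.linearIndependent_iff]
  unfold LI
  simp only [Algebra.smul_def]

/-- the spans of linearly disjoint submonoids meet in the constants -/
lemma inf_span {U W : Submonoid F} (h : LD R U W) :
    Submodule.span k (U : Set F) ⊓ Submodule.span k (W : Set F) ≤ Submodule.span k {1} := by
  classical
  have key : ∀ X : Submonoid F, ∃ b : Set F, b ⊆ X ∧ (1 : F) ∈ b ∧ (X : Set F) ⊆ Submodule.span k b ∧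
      LinearIndependent k ((↑) : b → F) := by
    intro X
    obtain ⟨b, h1, h2, h3, h4⟩ := exists_linearIndepOn_id_extension (K := k) (s := {(1 : F)})
      (t := (X : Set F)) (LinearIndepOn.singleton (v := id) (one_ne_zero))
      (Set.singleton_subset_iff.2 X.one_mem)
    exact ⟨b, h1, h2 rfl, h3, h4⟩
  rintro z ⟨hz1, hz2⟩
  obtain ⟨b, b1, b2, b3, b4⟩ := key U
  obtain ⟨c, c1, c2, c3, c4⟩ := key W
  have hzb : z ∈ Submodule.span k b := (Submodule.span_le.2 b3) hz1
  have hzc : z ∈ Submodule.span k c := (Submodule.span_le.2 c3) hz2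
  obtain ⟨l, hl⟩ := (Finsupp.mem_span_iff_linearCombination k b z).1 hzb
  obtain ⟨l', hl'⟩ := (Finsupp.mem_span_iff_linearCombination k c z).1 hzc
  set one1 : b := ⟨1, b2⟩ with hone1
  set one2 : c := ⟨1, c2⟩ with hone2
  set s := insert one1 l.support with hs
  set t := insert one2 l'.support with ht
  have e1 : ∑ i : s, l i • ((i : b) : F) = z := by
    rw [← hl, Finsupp.linearCombination_apply, Finset.sum_coe_sort s (fun i : b => l i • (i : F))]
    rw [Finsupp.sum]
    refine (Finset.sum_subset (Finset.subset_insert _ _) fun i _ hi => ?_).symm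
    rw [Finsupp.notMem_support_iff.1 hi, zero_smul]
  have e2 : ∑ i : t, l' i • ((i : c) : F) = z := by
    rw [← hl', Finsupp.linearCombination_apply, Finset.sum_coe_sort t (fun i : c => l' i • (i : F))]
    rw [Finsupp.sum]
    refine (Finset.sum_subset (Finset.subset_insert _ _) fun i _ hi => ?_).symm
    rw [Finsupp.notMem_support_iff.1 hi, zero_smul]
  set o1 : s := ⟨one1, Finset.mem_insert_self _ _⟩ with ho1
  set o2 : t := ⟨one2, Finset.mem_insert_self _ _⟩ with ho2
  set g : s × t → k := fun p => (if p.2 = o2 then l p.1 else 0) - if p.1 = o1 then l' p.2 else 0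
    with hg
  obtain ⟨d, hd⟩ := IsLocalization.exist_integer_multiples_of_finite (nonZeroDivisors R) g
  choose γ hγ using hd
  have hsum : ∑ i : s, ∑ j : t, g (i, j) • (((i : b) : F) * ((j : c) : F)) = 0 := by
    have h1 : ∀ i : s, ∑ j : t, g (i, j) • (((i : b) : F) * ((j : c) : F)) =
        l i • ((i : b) : F) - if i = o1 then z else 0 := by
      intro i
      simp only [hg, sub_smul, Finset.sum_sub_distrib]
      congr 1
      · rw [Finset.sum_eq_single o2]
        · simp [ho2, hone2]
        · intro j _ hj
          simp [hj]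
        · intro h0
          exact absurd (Finset.mem_univ _) h0
      · by_cases hi : i = o1
        · simp only [hi, if_true]
          rw [← e2]
          refine Finset.sum_congr rfl fun j _ => ?_
          simp [ho1, hone1]
        · simp [hi]
    rw [Finset.sum_congr rfl fun i _ => h1 i, Finset.sum_sub_distrib, e1]
    simp
  have h2 := h s t (fun i => ((i : b) : F)) (fun j => ((j : c) : F)) (fun i => b1 (i : b).2)
    (fun j => c1 (j : c).2) ((li_iff k).2 (b4.comp _ Subtype.val_injective))
    ((li_iff k).2 (c4.comp _ Subtype.val_injective)) (fun i j => γ (i, j)) (by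
      have h3 : ∀ i : s, ∀ j : t, algebraMap R F (γ (i, j)) * (((i : b) : F) * ((j : c) : F)) =
          algebraMap R F (d : R) * (g (i, j) • (((i : b) : F) * ((j : c) : F))) := by
        intro i j
        have h4 := hγ (i, j)
        have h5 : algebraMap R F (γ (i, j)) = algebraMap R F (d : R) * algebraMap k F (g (i, j)) := by
          rw [IsScalarTower.algebraMap_apply R k F, h4, Algebra.smul_def, map_mul,
            ← IsScalarTower.algebraMap_apply R k F]
        rw [h5, Algebra.smul_def]
        ring
      rw [Finset.sum_congr rfl fun i _ => Finset.sum_congr rfl fun j _ => h3 i j]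
      simp only [← Finset.mul_sum]
      rw [hsum, mul_zero])
  have hd0 : algebraMap R k (d : R) ≠ 0 := by
    intro h0
    exact nonZeroDivisors.ne_zero d.2 ((IsFractionRing.injective R k) (by rw [h0, map_zero]))
  have h3 : ∀ i : s, i ≠ o1 → l i = 0 := by
    intro i hi
    have h4 := hγ (i, o2)
    rw [h2 i o2, map_zero] at h4
    have h5 : g (i, o2) = 0 := by
      have h6 : algebraMap R k (d : R) * g (i, o2) = 0 := by
        rw [← Algebra.smul_def]
        exact h4.symm
      exact (mul_eq_zero.1 h6).resolve_left hd0
    simpa [hg, hi] using h5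
  rw [← e1, Finset.sum_eq_single o1]
  · rw [Submodule.mem_span_singleton]
    exact ⟨l o1, by simp [ho1, hone1]⟩
  · intro i _ hi
    rw [h3 i hi, zero_smul]
  · intro h0
    exact absurd (Finset.mem_univ _) h0

end frac

end Pool.Agent.Run7.h103.UN
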