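import Mathlib
import Pool.Agent.Run7.h103.UN.Rank

set_option autoImplicit false
set_option linter.unusedSectionVars false

/-!
# Three relations over linearly disjoint spaces
-/

namespace Pool.Agent.Run7.h103.UN

open Pool.Agent.TH796.AL.AlgA Module

section frac

variable {R F : Type} [CommRing R] [IsDomain R] [Field F] [Algebra R F] [FaithfulSMul R F]
variable (k : Type) [Field k] [Algebra R k] [IsFractionRing R k] [Algebra k F] [IsScalarTower R k F]

/-- linear disjointness of the spans -/
lemma span_disjoint {U W : Submonoid F} (h : LD R U W) :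
    (Submodule.span k (U : Set F)).LinearDisjoint (Submodule.span k (W : Set F)) := by
  classical
  have key : ∀ X : Submonoid F, ∃ (b : Set F) (β : Basis b k (Submodule.span k (X : Set F))),
      ∀ e : b, (β e : F) = e ∧ (e : F) ∈ X := by
    intro X
    obtain ⟨b, h1, -, h3, h4⟩ := exists_linearIndepOn_id_extension (K := k) (s := ∅)
      (t := (X : Set F)) (linearIndependent_empty k F) (Set.empty_subset _)
    have hspan : Submodule.span k (Set.range ((↑) : b → F)) = Submodule.span k (X : Set F) := by
      rw [Subtype.range_coe]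
      exact le_antisymm (Submodule.span_mono h1) (Submodule.span_le.2 h3)
    have h5 : LinearIndependent k ((↑) : b → F) := h4
    refine ⟨b, (Basis.span h5).map (LinearEquiv.ofEq _ _ hspan),
      fun e => ⟨?_, h1 e.2⟩⟩
    rw [Basis.map_apply, LinearEquiv.coe_ofEq_apply, Basis.span_apply]
  obtain ⟨b, β, hβ⟩ := key U
  obtain ⟨c, γ, hγ⟩ := key W
  refine Submodule.LinearDisjoint.of_basis_mul _ _ β γ ?_
  have hb : LinearIndependent k (fun e : b => (e : F)) := by
    have h1 := β.linearIndependent.map' (Submodule.subtype _) (Submodule.ker_subtype _)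
    have e : (Submodule.subtype _ ∘ β) = fun e : b => (e : F) := funext fun e => (hβ e).1
    rwa [e] at h1
  have hc : LinearIndependent k (fun e : c => (e : F)) := by
    have h1 := γ.linearIndependent.map' (Submodule.subtype _) (Submodule.ker_subtype _)
    have e : (Submodule.subtype _ ∘ γ) = fun e : c => (e : F) := funext fun e => (hγ e).1
    rwa [e] at h1
  simp only [(hβ _).1, (hγ _).1]
  rw [linearIndependent_iff']
  intro s g hg
  set S := s.image Prod.fst with hS
  set T := s.image Prod.snd with hT
  set g' : S × T → k := fun p => if ((p.1 : b), (p.2 : c)) ∈ s then g (p.1, p.2) else 0 with hg'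
  obtain ⟨d, hd⟩ := IsLocalization.exist_integer_multiples_of_finite (nonZeroDivisors R) g'
  choose δ hδ using hd
  have hd0 : algebraMap R k (d : R) ≠ 0 := by
    intro h0
    exact nonZeroDivisors.ne_zero d.2 ((IsFractionRing.injective R k) (by rw [h0, map_zero]))
  have hsum : ∑ i : S, ∑ j : T, g' (i, j) • (((i : b) : F) * ((j : c) : F)) = 0 := by
    have e1 : ∑ i : S, ∑ j : T, g' (i, j) • (((i : b) : F) * ((j : c) : F)) =
        ∑ i ∈ S, ∑ j ∈ T, (if (i, j) ∈ s then g (i, j) else 0) • ((i : F) * (j : F)) := by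
      rw [← Finset.sum_coe_sort S (fun i => ∑ j ∈ T, (if (i, j) ∈ s then g (i, j) else 0) •
        ((i : F) * (j : F)))]
      refine Finset.sum_congr rfl fun i _ => ?_
      rw [← Finset.sum_coe_sort T (fun j => (if ((i : b), j) ∈ s then g (i, j) else 0) •
        (((i : b) : F) * (j : F)))]
    rw [e1, ← Finset.sum_product', ← hg]
    symm
    refine Finset.sum_subset_zero_on_sdiff (fun p hp => ?_) (fun p hp => ?_) (fun p hp => ?_)
    · exact Finset.mem_product.2 ⟨Finset.mem_image_of_mem _ hp, Finset.mem_image_of_mem _ hp⟩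
    · have : (p.1, p.2) ∉ s := (Finset.mem_sdiff.1 hp).2
      rw [if_neg this, zero_smul]
    · have : (p.1, p.2) ∈ s := hp
      rw [if_pos this]
  have h2 := h S T (fun i => ((i : b) : F)) (fun j => ((j : c) : F)) (fun i => (hβ i).2)
    (fun j => (hγ j).2) ((li_iff k).2 (hb.comp _ Subtype.val_injective))
    ((li_iff k).2 (hc.comp _ Subtype.val_injective)) (fun i j => δ (i, j)) (by
      have h3 : ∀ i : S, ∀ j : T, algebraMap R F (δ (i, j)) * (((i : b) : F) * ((j : c) : F)) =
          algebraMap R F (d : R) * (g' (i, j) • (((i : b) : F) * ((j : c) : F))) := by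
        intro i j
        have h5 : algebraMap R F (δ (i, j)) = algebraMap R F (d : R) * algebraMap k F (g' (i, j)) := by
          rw [IsScalarTower.algebraMap_apply R k F, hδ (i, j), Algebra.smul_def, map_mul,
            ← IsScalarTower.algebraMap_apply R k F]
        rw [h5, Algebra.smul_def]
        ring
      rw [Finset.sum_congr rfl fun i _ => Finset.sum_congr rfl fun j _ => h3 i j]
      simp only [← Finset.mul_sum]
      rw [hsum, mul_zero])
  intro p hp
  have h4 := hδ (⟨p.1, Finset.mem_image_of_mem _ hp⟩, ⟨p.2, Finset.mem_image_of_mem _ hp⟩)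
  rw [h2, map_zero] at h4
  have h6 : algebraMap R k (d : R) * g' (⟨p.1, Finset.mem_image_of_mem _ hp⟩,
      ⟨p.2, Finset.mem_image_of_mem _ hp⟩) = 0 := by
    rw [← Algebra.smul_def]
    exact h4.symm
  have h7 := (mul_eq_zero.1 h6).resolve_left hd0
  rw [hg'] at h7
  have h8 : ((p.1 : b), (p.2 : c)) ∈ s := hp
  simpa [h8] using h7

end frac

section rel

variable {k F : Type} [Field k] [Field F] [Algebra k F]

/-- applying a functional to one side of a relation -/
lemma functional {M N : Submodule k F} (h : M.LinearDisjoint N) {n : ℕ} (u w : Fin n → F)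
    (hu : ∀ i, u i ∈ M) (hw : ∀ i, w i ∈ N) (h0 : ∑ i, u i * w i = 0) (f : F →ₗ[k] k) :
    ∑ i, algebraMap k F (f (u i)) * w i = 0 := by
  set t : TensorProduct k M N := ∑ i, (⟨u i, hu i⟩ : M) ⊗ₜ[k] (⟨w i, hw i⟩ : N) with ht
  have h1 : M.mulMap N t = 0 := by
    rw [ht, map_sum]
    simp only [Submodule.mulMap_tmul]
    exact h0
  have h2 : t = 0 := h.injective (by rw [h1, map_zero])
  set G : TensorProduct k M N →ₗ[k] F :=
    TensorProduct.lift (((LinearMap.lsmul k F).flip.compl₁₂ (LinearMap.id : F →ₗ[k] F)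
      (f ∘ₗ M.subtype)).flip.compl₂ N.subtype) with hG
  have h3 : G t = ∑ i, algebraMap k F (f (u i)) * w i := by
    rw [ht, map_sum]
    refine Finset.sum_congr rfl fun i _ => ?_
    rw [hG, TensorProduct.lift.tmul]
    simp [Algebra.smul_def]
  rw [← h3, h2, map_zero]

/-- **Three relations.** -/
theorem three_rel {M N P Q : Submodule k F} (h1 : M.LinearDisjoint N) (h2 : P.LinearDisjoint Q)
    (hPQ : ∀ x ∈ P, ∀ y ∈ Q, x * y ∈ N) (p q r z : Fin 3 → F) (hp : ∀ i, p i ∈ M)
    (hq : ∀ i, q i ∈ P) (hr : ∀ i, r i ∈ Q) (hp0 : ∃ i, p i ≠ 0) (hq0 : ∃ i, q i ≠ 0)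
    (hr0 : ∃ i, r i ≠ 0)
    (hz : ∀ v : Fin 3 → k, ∑ i, algebraMap k F (v i) * z i = 0 → ∀ i, v i = 0)
    (ep : ∑ i, p i * z i = 0) (eq : ∑ i, q i * z i = 0) (er : ∑ i, r i * z i = 0) : False := by
  have sep : ∀ x : F, x ≠ 0 → ∃ f : F →ₗ[k] k, f x ≠ 0 := by
    intro x hx
    by_contra hcon
    push Not at hcon
    exact hx ((Module.forall_dual_apply_eq_zero_iff k x).1 hcon)
  have hz0 : ∃ j, z j ≠ 0 := by
    by_contra hcon
    push Not at hcon
    have := hz (fun _ => 1) (by simp [hcon]) 0
    exact one_ne_zero this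
  obtain ⟨j, hj⟩ := hz0
  rw [Fin.sum_univ_three] at ep eq er
  set c : Fin 3 → F := ![q 1 * r 2 - q 2 * r 1, q 2 * r 0 - q 0 * r 2, q 0 * r 1 - q 1 * r 0] with hc
  have hcz : ∀ i l, c i * z l = c l * z i := by
    have e1 : c 0 * z 1 = c 1 * z 0 := by
      simp only [hc, Matrix.cons_val_zero, Matrix.cons_val_one]
      linear_combination r 2 * eq - q 2 * er
    have e2 : c 1 * z 2 = c 2 * z 1 := by
      simp only [hc, Matrix.cons_val_one, Matrix.cons_val]
      linear_combination r 0 * eq - q 0 * er
    have e3 : c 2 * z 0 = c 0 * z 2 := by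
      simp only [hc, Matrix.cons_val_zero, Matrix.cons_val]
      linear_combination r 1 * eq - q 1 * er
    intro i l
    fin_cases i <;> fin_cases l <;> first
      | rfl
      | exact e1
      | exact e2
      | exact e3
      | exact e1.symm
      | exact e2.symm
      | exact e3.symm
  by_cases hc0 : ∀ i, c i = 0
  · -- the two vectors are parallel
    obtain ⟨l, hl⟩ := hr0
    obtain ⟨i0, hi0⟩ := hq0
    obtain ⟨f, hf⟩ := sep _ hi0
    have hpar : ∀ i, q i * r l - q l * r i = 0 := by
      have e1 : q 1 * r 2 - q 2 * r 1 = 0 := hc0 0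
      have e2 : q 2 * r 0 - q 0 * r 2 = 0 := hc0 1
      have e3 : q 0 * r 1 - q 1 * r 0 = 0 := hc0 2
      intro i
      fin_cases i <;> fin_cases l <;> simp only [Fin.zero_eta, Fin.mk_one, Fin.reduceFinMk] <;>
        first
        | exact sub_self _
        | exact e1
        | exact e2
        | exact e3
        | linear_combination -e1
        | linear_combination -e2
        | linear_combination -e3
    have h3 : ∀ i, algebraMap k F (f (q i)) * r l - algebraMap k F (f (q l)) * r i = 0 := by
      intro i
      have h4 := functional h2 ![q i, -q l] ![r l, r i] (by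
        intro s
        fin_cases s
        · exact hq i
        · exact P.neg_mem (hq l)) (by
        intro s
        fin_cases s
        · exact hr l
        · exact hr i) (by
        rw [Fin.sum_univ_two]
        simp only [Matrix.cons_val_zero, Matrix.cons_val_one]
        linear_combination hpar i) f
      rw [Fin.sum_univ_two] at h4
      simp only [Matrix.cons_val_zero, Matrix.cons_val_one, map_neg] at h4
      linear_combination h4
    have h4 := hz (fun i => f (q i)) (by
      have h5 : r l * ∑ i, algebraMap k F (f (q i)) * z i = 0 := by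
        rw [Fin.sum_univ_three]
        linear_combination z 0 * h3 0 + z 1 * h3 1 + z 2 * h3 2 +
          algebraMap k F (f (q l)) * er
      exact (mul_eq_zero.1 h5).resolve_left hl) i0
    exact hf h4
  · push Not at hc0
    obtain ⟨l, hl⟩ := hc0
    obtain ⟨i0, hi0⟩ := hp0
    obtain ⟨f, hf⟩ := sep _ hi0
    have hcN : ∀ i, c i ∈ N := by
      intro i
      fin_cases i
      · exact N.sub_mem (hPQ _ (hq 1) _ (hr 2)) (hPQ _ (hq 2) _ (hr 1))
      · exact N.sub_mem (hPQ _ (hq 2) _ (hr 0)) (hPQ _ (hq 0) _ (hr 2))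
      · exact N.sub_mem (hPQ _ (hq 0) _ (hr 1)) (hPQ _ (hq 1) _ (hr 0))
    have h3 : ∑ i, p i * c i = 0 := by
      have h4 : z j * ∑ i, p i * c i = 0 := by
        rw [Fin.sum_univ_three]
        have g0 := hcz 0 j
        have g1 := hcz 1 j
        have g2 := hcz 2 j
        linear_combination p 0 * g0 + p 1 * g1 + p 2 * g2 + c j * ep
      exact (mul_eq_zero.1 h4).resolve_left hj
    have h4 := functional h1 p c hp hcN h3 f
    have hzl : ∀ i, z i * c l = c i * z l := fun i => by
      rw [mul_comm]
      exact (hcz i l).symm ▸ rfl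
    have h5 : c l * ∑ i, algebraMap k F (f (p i)) * z i = 0 := by
      rw [Fin.sum_univ_three] at h4 ⊢
      have g0 := hcz 0 l
      have g1 := hcz 1 l
      have g2 := hcz 2 l
      linear_combination z l * h4 - algebraMap k F (f (p 0)) * g0 -
        algebraMap k F (f (p 1)) * g1 - algebraMap k F (f (p 2)) * g2
    exact hf (hz (fun i => f (p i)) ((mul_eq_zero.1 h5).resolve_left hl) i0)

/-- **Two relations.** -/
theorem two_rel_frac {M N : Submodule k F} (h : M.LinearDisjoint N) {s : ℕ} (q y z : Fin s → F)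
    {y₀ : F} (hy₀ : y₀ ≠ 0) (hq : ∀ j, q j ∈ M) (hy : ∀ j, y j ∈ N) (e : ∀ j, y₀ * z j = y j)
    (hz : ∀ v : Fin s → k, ∑ i, algebraMap k F (v i) * z i = 0 → ∀ i, v i = 0)
    (hrel : ∑ j, q j * z j = 0) (j0 : Fin s) : q j0 = 0 := by
  rw [← Module.forall_dual_apply_eq_zero_iff k (q j0)]
  intro f
  have g1 := functional h q y hq hy (by
    have e3 : ∑ j, q j * y j = y₀ * ∑ j, q j * z j := by
      rw [Finset.mul_sum]
      refine Finset.sum_congr rfl fun j _ => ?_
      rw [← e j]
      ring
    rw [e3, hrel, mul_zero]) f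
  refine hz (fun j => f (q j)) ?_ j0
  have e4 : y₀ * ∑ j, algebraMap k F (f (q j)) * z j = 0 := by
    rw [Finset.mul_sum, ← g1]
    refine Finset.sum_congr rfl fun j _ => ?_
    rw [← e j]
    ring
  exact (mul_eq_zero.1 e4).resolve_left hy₀

end rel

section frac2

variable {R F : Type} [CommRing R] [IsDomain R] [Field F] [Algebra R F] [FaithfulSMul R F]
variable (k : Type) [Field k] [Algebra R k] [IsFractionRing R k] [Algebra k F] [IsScalarTower R k F]

/-- independence over the fraction field -/
lemma indep_frac {s : ℕ} {x : Fin s → F}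
    (hx : ∀ c : Fin s → R, ∑ j, algebraMap R F (c j) * x j = 0 → ∀ j, c j = 0)
    (v : Fin s → k) (h : ∑ j, algebraMap k F (v j) * x j = 0) (j0 : Fin s) : v j0 = 0 := by
  obtain ⟨d, hd⟩ := IsLocalization.exist_integer_multiples_of_finite (nonZeroDivisors R) v
  choose c hc using hd
  have hd0 : algebraMap R k (d : R) ≠ 0 := by
    intro h0
    exact nonZeroDivisors.ne_zero d.2 ((IsFractionRing.injective R k) (by rw [h0, map_zero]))
  have h1 := hx c (by
    have h3 : ∀ j, algebraMap R F (c j) * x j =
        algebraMap R F (d : R) * (algebraMap k F (v j) * x j) := by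
      intro j
      have h5 : algebraMap R F (c j) = algebraMap R F (d : R) * algebraMap k F (v j) := by
        rw [IsScalarTower.algebraMap_apply R k F, hc j, Algebra.smul_def, map_mul,
          ← IsScalarTower.algebraMap_apply R k F]
      rw [h5]
      ring
    rw [Finset.sum_congr rfl fun j _ => h3 j, ← Finset.mul_sum, h, mul_zero]) j0
  have h4 := hc j0
  rw [h1, map_zero] at h4
  have h6 : algebraMap R k (d : R) * v j0 = 0 := by
    rw [← Algebra.smul_def]
    exact h4.symm
  exact (mul_eq_zero.1 h6).resolve_left hd0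

end frac2

end Pool.Agent.Run7.h103.UN
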