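import Mathlib
import Pool.Agent.Run7.h103.UN.Near
import Pool.Agent.Run7.h103.UN.Three

set_option autoImplicit false
set_option linter.unusedSectionVars false

/-!
# Linear relations over the predictable numbers in two or three groups of bases
-/

namespace Pool.Agent.Run7.h103.UN

open Filter Topology Pool.Agent.TH932.Abs Pool.Agent.TH932.Germs Pool.Agent.TH932.Chi
open Pool.Agent.TH932.Words Pool.Agent.TH932.Scale Finset
open Pool.Agent.TH796.AL Pool.Agent.TH796.AL.TwoB Pool.Agent.TH796.AL.Ai Pool.Agent.TH796.AL.Grp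
open Pool.Agent.TH796.AL.Final Pool.Agent.TH796.AL.Alg Pool.Agent.Run7.h103.PF
open Pool.Agent.TH796.AL.AlgA Pool.Agent.TH796.AL.Nv

/-- a measure of linear independence over `ℚ`, polynomial in the size of the coefficients -/
def LinearMeasure {s : ℕ} (z : Fin s → ℝ) : Prop :=
  ∃ w Q : ℕ, ∀ a : Fin s → ℤ, a ≠ 0 → ∀ H : ℕ, Q ≤ H → (∀ j, |a j| ≤ H) →
    1 < |∑ j, (a j : ℝ) * z j| * (H : ℝ) ^ w

section germs

variable {m : ℕ} {B : Base m} {L : ℕ → ℝ} {hL : Tendsto L atTop atTop}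

/-- numbers with a linear independence measure are linearly independent over the bounded germs -/
lemma indep_RG {s : ℕ} {z : Fin s → ℝ} (hz : LinearMeasure z) (c : Fin s → RG hL B)
    (h : ∑ j, algebraMap (RG hL B) (FF hL) (c j) * kst hL (z j) = 0) (j0 : Fin s) : c j0 = 0 := by
  by_contra hc0
  obtain ⟨w, Q, hwQ⟩ := hz
  have hrel : ∑ j, phi hL B (c j) * kst hL (z j) = 0 := h
  obtain ⟨H, cc, g1, g2, g3⟩ := clearH (B := B) (hL := hL) c (fun j _ => z j) j0 hc0 (by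
    have h1 := (rel_zero_iff hL B c z).1 hrel
    intro E
    exact h1 E)
  set X : ℝ := |H| + 1 with hX
  have hX0 := abs_nonneg H
  have g2' : ∀ᶠ n in (UU : Filter ℕ), ∀ j, |(cc j n : ℝ)| ≤ Real.exp (H * L n) := by
    rw [Filter.eventually_all]
    exact g2
  obtain ⟨n, k1, k2, k3, k4⟩ := (g1.and (g2'.and ((g3 (X * w + 1)).and
    (ev_of_atTop (hL.eventually_ge_atTop ((Q : ℝ) + 1)))))).exists
  have hL0 : 0 ≤ L n := by
    have : (0 : ℝ) ≤ Q := Nat.cast_nonneg _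
    linarith
  set T : ℕ := ⌊Real.exp (X * L n)⌋₊ with hT
  have hTle : (T : ℝ) ≤ Real.exp (X * L n) := Nat.floor_le (Real.exp_pos _).le
  have hQT : Q ≤ T := by
    rw [hT]
    refine Nat.le_floor ?_
    have h1 := Real.add_one_le_exp (X * L n)
    have h2 : L n ≤ X * L n := by nlinarith
    linarith
  have hcT : ∀ j, |cc j n| ≤ T := by
    intro j
    have h1 : ((|cc j n|.toNat : ℕ) : ℝ) ≤ Real.exp (X * L n) := by
      have h2 : ((|cc j n|.toNat : ℤ) : ℝ) = |(cc j n : ℝ)| := by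
        rw [Int.toNat_of_nonneg (abs_nonneg _), Int.cast_abs]
      have h3 : ((|cc j n|.toNat : ℕ) : ℝ) = ((|cc j n|.toNat : ℤ) : ℝ) := by norm_cast
      rw [h3, h2]
      refine (k2 j).trans (Real.exp_le_exp.2 ?_)
      have := le_abs_self H
      nlinarith
    have h4 : |cc j n|.toNat ≤ T := Nat.le_floor h1
    have h5 : (|cc j n|.toNat : ℤ) = |cc j n| := Int.toNat_of_nonneg (abs_nonneg _)
    rw [← h5]
    exact_mod_cast h4
  have h1 := hwQ (fun j => cc j n) (fun h0 => k1 (congrFun h0 j0)) T hQT hcT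
  have h2 : |∑ j, (cc j n : ℝ) * z j| * (T : ℝ) ^ w ≤
      Real.exp (-((X * w + 1) * L n)) * Real.exp (X * L n) ^ w := by
    gcongr
  rw [← Real.exp_nat_mul, ← Real.exp_add] at h2
  have h3 : Real.exp (-((X * w + 1) * L n) + w * (X * L n)) ≤ 1 := by
    rw [Real.exp_le_one_iff]
    have : -((X * w + 1) * L n) + w * (X * L n) = -L n := by ring
    rw [this]
    linarith
  linarith

/-- the same over the fraction field -/
lemma indep_k {s : ℕ} {z : Fin s → ℝ} (hz : LinearMeasure z) (k : Type) [Field k]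
    [Algebra (RG hL B) k] [IsFractionRing (RG hL B) k] [Algebra k (FF hL)]
    [IsScalarTower (RG hL B) k (FF hL)] (v : Fin s → k)
    (h : ∑ j, algebraMap k (FF hL) (v j) * kst hL (z j) = 0) (j0 : Fin s) : v j0 = 0 :=
  indep_frac (R := RG hL B) k (fun c h j => indep_RG hz c h j) v h j0

end germs

/-- a relation with coefficients which are polynomials in predictable numbers -/
def NearRel {κ : Type} [Fintype κ] [DecidableEq κ] {s : ℕ} (b : κ → ℕ) (u : κ → ℕ → ℤ) (d : ℕ)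
    (A ε : ℝ) (M K : ℕ) (z : Fin s → ℝ) : Prop :=
  ∃ (x : κ → ℝ) (a : Fin s → (κ → Fin (d + 1)) → ℤ), (∀ i, |x i| ≤ Real.exp (A * (K + 1))) ∧
    (∀ i, Good (b i) (u i) (x i) M K (A * Real.log (M / (K + 1)))) ∧
    (∀ j e, |(a j e : ℝ)| ≤ Real.exp (A * (K + 1))) ∧
    (∃ j, Real.exp (-(A * (K + 1))) ≤ |pv (a j) x|) ∧
    |∑ j, pv (a j) x * z j| ≤ Real.exp (-(ε * M))

/-- the numbers are quotients of polynomials in predictable numbers -/
def NearFrac {κ : Type} [Fintype κ] [DecidableEq κ] {s : ℕ} (b : κ → ℕ) (u : κ → ℕ → ℤ) (d : ℕ)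
    (A ε : ℝ) (M K : ℕ) (z : Fin s → ℝ) : Prop :=
  ∃ (x : κ → ℝ) (a₀ : (κ → Fin (d + 1)) → ℤ) (a : Fin s → (κ → Fin (d + 1)) → ℤ),
    (∀ i, |x i| ≤ Real.exp (A * (K + 1))) ∧
    (∀ i, Good (b i) (u i) (x i) M K (A * Real.log (M / (K + 1)))) ∧
    (∀ e, |(a₀ e : ℝ)| ≤ Real.exp (A * (K + 1))) ∧
    (∀ j e, |(a j e : ℝ)| ≤ Real.exp (A * (K + 1))) ∧
    Real.exp (-(A * (K + 1))) ≤ |pv a₀ x| ∧
    ∀ j, |pv a₀ x * z j - pv (a j) x| ≤ Real.exp (-(ε * M))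

/-- relations in the residue field -/
lemma rel_of {κ : Type} [Fintype κ] [DecidableEq κ] {m : ℕ} {B : Base m} {N M K : ℕ → ℕ}
    {hL : Tendsto (fun n => (N n : ℝ)) atTop atTop} {V : Submodule ℝ (Fin m → ℝ)}
    (hM : ∀ n, 2 ^ n * N n ≤ M n) (hK : ∀ n : ℕ, (n : ℝ) * K n ≤ N n) (hN : ∀ n, n ≤ N n)
    {s : ℕ} {z : Fin s → ℝ} {d : ℕ} {A ε : ℝ} (hε : 0 < ε) (x : ℕ → κ → ℝ)
    (hx : ∀ i, RepH B hL V (gr fun n => x n i)) (hxA : ∀ n i, |x n i| ≤ Real.exp (A * (K n + 1)))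
    (a : ℕ → Fin s → (κ → Fin (d + 1)) → ℤ)
    (ha : ∀ n j e, |(a n j e : ℝ)| ≤ Real.exp (A * (K n + 1)))
    (hlow : ∀ n, ∃ j, Real.exp (-(A * (K n + 1))) ≤ |pv (a n j) (x n)|)
    (hsmall : ∀ n, |∑ j, pv (a n j) (x n) * z j| ≤ Real.exp (-(ε * M n))) :
    ∃ y : Fin s → FF hL, (∀ j, y j ∈ UR B hL V) ∧ (∃ j, y j ≠ 0) ∧
      ∑ j, y j * kst hL (z j) = 0 := by
  classical
  have hp : ∀ j, (fun n => pv (a n j) (x n)) ∈ SQ B hL V := fun j =>
    pv_SQ (K := K) hK hN x hx hxA (fun n => a n j) fun n => ha n j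
  set y : Fin s → OO hL := fun j => ⟨gr fun n => pv (a n j) (x n), (mem_SQ.1 (hp j)).2⟩ with hy
  refine ⟨fun j => res hL (y j), fun j => mem_UR.2 ⟨y j, (mem_SQ.1 (hp j)).1, rfl⟩, ?_, ?_⟩
  · by_contra hcon
    push Not at hcon
    exact not_negl hN hK A hlow fun j => (res_eq_zero hL).1 (hcon j) 1
  · have h1 : ∑ j, res hL (y j) * kst hL (z j) = res hL (∑ j, y j * kst0 hL (z j)) := by
      rw [map_sum]
      exact Finset.sum_congr rfl fun j _ => by rw [map_mul]; rfl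
    rw [h1, res_eq_zero]
    have h2 : ((∑ j, y j * kst0 hL (z j) : OO hL) : HR) =
        gr fun n => ∑ j, pv (a n j) (x n) * z j := by
      have h3 : (fun n => ∑ j, pv (a n j) (x n) * z j) =
          ∑ j : Fin s, (fun n => pv (a n j) (x n)) * (fun _ => z j) := by
        funext n
        simp [Finset.sum_apply]
      have h4 : gr (fun n => ∑ j, pv (a n j) (x n) * z j) =
          grh (fun n => ∑ j, pv (a n j) (x n) * z j) := rfl
      rw [h4, h3, map_sum, AddSubmonoidClass.coe_finsetSum]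
      refine Finset.sum_congr rfl fun j _ => ?_
      rw [map_mul]
      rfl
    rw [h2]
    exact small_of_M hM hε hsmall

/-- the spans of the rings -/
lemma mul_mem_span {k F : Type} [Field k] [Field F] [Algebra k F] {U V W : Submonoid F}
    (hU : U ≤ W) (hV : V ≤ W) {x y : F} (hx : x ∈ Submodule.span k (U : Set F))
    (hy : y ∈ Submodule.span k (V : Set F)) : x * y ∈ Submodule.span k (W : Set F) := by
  have h1 := Submodule.mul_mem_mul hx hy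
  rw [Submodule.span_mul_span] at h1
  refine Submodule.span_mono ?_ h1
  rintro _ ⟨a, ha, b, hb, rfl⟩
  exact W.mul_mem (hU ha) (hV hb)

lemma UR_mono {m : ℕ} {B : Base m} {L : ℕ → ℝ} {hL : Tendsto L atTop atTop}
    {V W : Submodule ℝ (Fin m → ℝ)} (h : V ≤ W) : UR B hL V ≤ UR B hL W := by
  intro x hx
  obtain ⟨y, hy, rfl⟩ := mem_UR.1 hx
  exact mem_UR.2 ⟨y, RepH.mono h hy, rfl⟩

lemma GA_range {κ : Type} (b : κ → ℕ) (i : κ) : GA {b i} ≤ GA (Set.range b) := by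
  refine Subgroup.closure_mono ?_
  rintro u ⟨c, hc, hu⟩
  exact ⟨c, by rw [Set.mem_singleton_iff.1 hc]; exact ⟨i, rfl⟩, hu⟩

/-- **Three groups of bases.** -/
theorem three_groups {κ₁ κ₂ κ₃ : Type} [Fintype κ₁] [DecidableEq κ₁] [Fintype κ₂] [DecidableEq κ₂]
    [Fintype κ₃] [DecidableEq κ₃] (b₁ : κ₁ → ℕ) (b₂ : κ₂ → ℕ) (b₃ : κ₃ → ℕ) (hb₁ : ∀ i, 2 ≤ b₁ i)
    (hb₂ : ∀ i, 2 ≤ b₂ i) (hb₃ : ∀ i, 2 ≤ b₃ i)
    (hG : GA (Set.range b₁) ⊓ (GA (Set.range b₂) ⊔ GA (Set.range b₃)) = ⊥)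
    (hG' : GA (Set.range b₂) ⊓ GA (Set.range b₃) = ⊥) (u₁ : κ₁ → ℕ → ℤ) (u₂ : κ₂ → ℕ → ℤ)
    (u₃ : κ₃ → ℕ → ℤ) {C : ℝ} (hu₁ : ∀ i, Simple (b₁ i) C (u₁ i))
    (hu₂ : ∀ i, Simple (b₂ i) C (u₂ i)) (hu₃ : ∀ i, Simple (b₃ i) C (u₃ i)) {z : Fin 3 → ℝ}
    (hz : LinearMeasure z) (d : ℕ) (A : ℝ) {ε : ℝ} (hε : 0 < ε) :
    ∃ R : ℕ, ∀ M K : ℕ, R * (K + 1) ≤ M → NearRel b₁ u₁ d A ε M K z →
      NearRel b₂ u₂ d A ε M K z → NearRel b₃ u₃ d A ε M K z → False := by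
  classical
  by_contra hcon
  push Not at hcon
  obtain ⟨m, B, N, hL, M, K, x, h1, h2, h3, h4, h5, h6⟩ := keyS (ι := κ₁ ⊕ (κ₂ ⊕ κ₃))
    (Sum.elim b₁ (Sum.elim b₂ b₃)) (by rintro (i | i | i); exacts [hb₁ i, hb₂ i, hb₃ i])
    (Sum.elim u₁ (Sum.elim u₂ u₃))
    (C := C) (by rintro (i | i | i); exacts [hu₁ i, hu₂ i, hu₃ i]) A
    (fun M K x => (∃ a : Fin 3 → (κ₁ → Fin (d + 1)) → ℤ,
      (∀ j e, |(a j e : ℝ)| ≤ Real.exp (A * (K + 1))) ∧
      (∃ j, Real.exp (-(A * (K + 1))) ≤ |pv (a j) (fun i => x (Sum.inl i))|) ∧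
      |∑ j, pv (a j) (fun i => x (Sum.inl i)) * z j| ≤ Real.exp (-(ε * M))) ∧
      (∃ a : Fin 3 → (κ₂ → Fin (d + 1)) → ℤ,
      (∀ j e, |(a j e : ℝ)| ≤ Real.exp (A * (K + 1))) ∧
      (∃ j, Real.exp (-(A * (K + 1))) ≤ |pv (a j) (fun i => x (Sum.inr (Sum.inl i)))|) ∧
      |∑ j, pv (a j) (fun i => x (Sum.inr (Sum.inl i))) * z j| ≤ Real.exp (-(ε * M))) ∧
      (∃ a : Fin 3 → (κ₃ → Fin (d + 1)) → ℤ,
      (∀ j e, |(a j e : ℝ)| ≤ Real.exp (A * (K + 1))) ∧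
      (∃ j, Real.exp (-(A * (K + 1))) ≤ |pv (a j) (fun i => x (Sum.inr (Sum.inr i)))|) ∧
      |∑ j, pv (a j) (fun i => x (Sum.inr (Sum.inr i))) * z j| ≤ Real.exp (-(ε * M)))) (by
      intro R
      obtain ⟨M, K, hMK, ⟨x1, a1, p1, q1, r1, s1, t1⟩, ⟨x2, a2, p2, q2, r2, s2, t2⟩,
        ⟨x3, a3, p3, q3, r3, s3, t3⟩, -⟩ := hcon R
      refine ⟨M, K, Sum.elim x1 (Sum.elim x2 x3), hMK, ?_, ?_, ⟨a1, r1, s1, t1⟩,
        ⟨a2, r2, s2, t2⟩, ⟨a3, r3, s3, t3⟩⟩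
      · rintro (i | i | i)
        exacts [q1 i, q2 i, q3 i]
      · rintro (i | i | i)
        exacts [p1 i, p2 i, p3 i])
  choose a1 r1 s1 t1 using fun n => (h5 n).1
  choose a2 r2 s2 t2 using fun n => (h5 n).2.1
  choose a3 r3 s3 t3 using fun n => (h5 n).2.2
  obtain ⟨p, p1, p2, p3⟩ := rel_of (B := B) (hL := hL) (V := VS B (GA (Set.range b₁))) h1 h2 h3 hε
    (fun n i => x n (Sum.inl i))
    (fun i => RepH.mono (VS_mono B (GA_range b₁ i)) (h6 (Sum.inl i))) (fun n i => h4 n _) a1 r1 s1 t1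
  obtain ⟨q, q1, q2, q3⟩ := rel_of (B := B) (hL := hL) (V := VS B (GA (Set.range b₂))) h1 h2 h3 hε
    (fun n i => x n (Sum.inr (Sum.inl i)))
    (fun i => RepH.mono (VS_mono B (GA_range b₂ i)) (h6 (Sum.inr (Sum.inl i))))
    (fun n i => h4 n _) a2 r2 s2 t2
  obtain ⟨r, r1', r2', r3'⟩ := rel_of (B := B) (hL := hL) (V := VS B (GA (Set.range b₃))) h1 h2 h3 hε
    (fun n i => x n (Sum.inr (Sum.inr i)))
    (fun i => RepH.mono (VS_mono B (GA_range b₃ i)) (h6 (Sum.inr (Sum.inr i))))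
    (fun n i => h4 n _) a3 r3 s3 t3
  let _ : Algebra (FractionRing (RG hL B)) (FF hL) := FractionRing.liftAlgebra (RG hL B) (FF hL)
  have : IsScalarTower (RG hL B) (FractionRing (RG hL B)) (FF hL) :=
    FractionRing.isScalarTower_liftAlgebra (RG hL B) (FF hL)
  exact three_rel (span_disjoint (FractionRing (RG hL B)) (ldH (B := B) (hL := hL) (disj B hG)))
    (span_disjoint (FractionRing (RG hL B)) (ldH (B := B) (hL := hL) (disj B hG')))
    (fun x hx y hy => mul_mem_span (UR_mono (VS_mono B le_sup_left))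
      (UR_mono (VS_mono B le_sup_right)) hx hy) p q r (fun j => kst hL (z j))
    (fun i => Submodule.subset_span (p1 i)) (fun i => Submodule.subset_span (q1 i))
    (fun i => Submodule.subset_span (r1' i)) p2 q2 r2'
    (fun v hv i => indep_k (B := B) (hL := hL) hz (FractionRing (RG hL B)) v hv i) p3 q3 r3'

/-- **Two groups of bases.** -/
theorem two_groups {κ₁ κ₂ : Type} [Fintype κ₁] [DecidableEq κ₁] [Fintype κ₂] [DecidableEq κ₂]
    (b₁ : κ₁ → ℕ) (b₂ : κ₂ → ℕ) (hb₁ : ∀ i, 2 ≤ b₁ i) (hb₂ : ∀ i, 2 ≤ b₂ i)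
    (hG : GA (Set.range b₁) ⊓ GA (Set.range b₂) = ⊥) (u₁ : κ₁ → ℕ → ℤ) (u₂ : κ₂ → ℕ → ℤ)
    {C : ℝ} (hu₁ : ∀ i, Simple (b₁ i) C (u₁ i)) (hu₂ : ∀ i, Simple (b₂ i) C (u₂ i)) {s : ℕ}
    {z : Fin s → ℝ} (hz : LinearMeasure z) (d : ℕ) (A : ℝ) {ε : ℝ} (hε : 0 < ε) :
    ∃ R : ℕ, ∀ M K : ℕ, R * (K + 1) ≤ M → NearFrac b₁ u₁ d A ε M K z →
      NearRel b₂ u₂ d A ε M K z → False := by
  classical
  by_contra hcon
  push Not at hcon
  obtain ⟨m, B, N, hL, M, K, x, h1, h2, h3, h4, h5, h6⟩ := keyS (ι := κ₁ ⊕ κ₂)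
    (Sum.elim b₁ b₂) (by rintro (i | i); exacts [hb₁ i, hb₂ i])
    (Sum.elim u₁ u₂) (C := C) (by rintro (i | i); exacts [hu₁ i, hu₂ i]) A
    (fun M K x => (∃ (a₀ : (κ₁ → Fin (d + 1)) → ℤ) (a : Fin s → (κ₁ → Fin (d + 1)) → ℤ),
      (∀ e, |(a₀ e : ℝ)| ≤ Real.exp (A * (K + 1))) ∧
      (∀ j e, |(a j e : ℝ)| ≤ Real.exp (A * (K + 1))) ∧
      Real.exp (-(A * (K + 1))) ≤ |pv a₀ (fun i => x (Sum.inl i))| ∧
      ∀ j, |pv a₀ (fun i => x (Sum.inl i)) * z j - pv (a j) (fun i => x (Sum.inl i))| ≤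
        Real.exp (-(ε * M))) ∧
      (∃ a : Fin s → (κ₂ → Fin (d + 1)) → ℤ,
      (∀ j e, |(a j e : ℝ)| ≤ Real.exp (A * (K + 1))) ∧
      (∃ j, Real.exp (-(A * (K + 1))) ≤ |pv (a j) (fun i => x (Sum.inr i))|) ∧
      |∑ j, pv (a j) (fun i => x (Sum.inr i)) * z j| ≤ Real.exp (-(ε * M)))) (by
      intro R
      obtain ⟨M, K, hMK, ⟨x1, a0, a1, p1, q1, r0, r1, s1, t1⟩, ⟨x2, a2, p2, q2, r2, s2, t2⟩, -⟩ :=
        hcon R
      refine ⟨M, K, Sum.elim x1 x2, hMK, ?_, ?_, ⟨a0, a1, r0, r1, s1, t1⟩, ⟨a2, r2, s2, t2⟩⟩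
      · rintro (i | i)
        exacts [q1 i, q2 i]
      · rintro (i | i)
        exacts [p1 i, p2 i])
  choose a0 a1 r0 r1 s1 t1 using fun n => (h5 n).1
  choose a2 r2 s2 t2 using fun n => (h5 n).2
  obtain ⟨q, q1, q2, q3⟩ := rel_of (B := B) (hL := hL) (V := VS B (GA (Set.range b₂))) h1 h2 h3 hε
    (fun n i => x n (Sum.inr i))
    (fun i => RepH.mono (VS_mono B (GA_range b₂ i)) (h6 (Sum.inr i)))
    (fun n i => h4 n _) a2 r2 s2 t2
  -- the fractions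
  have hx1 : ∀ i : κ₁, RepH B hL (VS B (GA (Set.range b₁))) (gr fun n => x n (Sum.inl i)) :=
    fun i => RepH.mono (VS_mono B (GA_range b₁ i)) (h6 (Sum.inl i))
  have hS0 : (fun n => pv (a0 n) (fun i => x n (Sum.inl i))) ∈
      SQ B hL (VS B (GA (Set.range b₁))) :=
    pv_SQ (K := K) h2 h3 (fun n i => x n (Sum.inl i)) hx1 (fun n i => h4 n _) a0 r0
  have hS1 : ∀ j, (fun n => pv (a1 n j) (fun i => x n (Sum.inl i))) ∈
      SQ B hL (VS B (GA (Set.range b₁))) := fun j =>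
    pv_SQ (K := K) h2 h3 (fun n i => x n (Sum.inl i)) hx1 (fun n i => h4 n _) (fun n => a1 n j)
      fun n => r1 n j
  set Y0 : OO hL := ⟨gr fun n => pv (a0 n) (fun i => x n (Sum.inl i)), (mem_SQ.1 hS0).2⟩ with hY0
  set Y : Fin s → OO hL := fun j =>
    ⟨gr fun n => pv (a1 n j) (fun i => x n (Sum.inl i)), (mem_SQ.1 (hS1 j)).2⟩ with hY
  have hY0n : res hL Y0 ≠ 0 := by
    intro h0
    refine not_negl (s := 1) (f := fun n _ => pv (a0 n) (fun i => x n (Sum.inl i))) h3 h2 A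
      (fun n => ⟨0, s1 n⟩) fun _ => (res_eq_zero hL).1 h0 1
  have hYe : ∀ j, res hL Y0 * kst hL (z j) = res hL (Y j) := by
    intro j
    rw [← sub_eq_zero]
    have e1 : res hL Y0 * kst hL (z j) - res hL (Y j) =
        res hL (Y0 * kst0 hL (z j) - Y j) := by
      rw [map_sub, map_mul]
      rfl
    rw [e1, res_eq_zero]
    have e2 : ((Y0 * kst0 hL (z j) - Y j : OO hL) : HR) =
        gr fun n => pv (a0 n) (fun i => x n (Sum.inl i)) * z j -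
          pv (a1 n j) (fun i => x n (Sum.inl i)) := rfl
    rw [e2]
    exact small_of_M h1 hε fun n => t1 n j
  let _ : Algebra (FractionRing (RG hL B)) (FF hL) := FractionRing.liftAlgebra (RG hL B) (FF hL)
  have : IsScalarTower (RG hL B) (FractionRing (RG hL B)) (FF hL) :=
    FractionRing.isScalarTower_liftAlgebra (RG hL B) (FF hL)
  obtain ⟨j0, hj0⟩ := q2
  exact hj0 (two_rel_frac (span_disjoint (FractionRing (RG hL B))
    (ldH (B := B) (hL := hL) (disj B hG))).symm q (fun j => res hL (Y j)) (fun j => kst hL (z j))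
    hY0n (fun j => Submodule.subset_span (q1 j))
    (fun j => Submodule.subset_span (mem_UR.2 ⟨Y j, (mem_SQ.1 (hS1 j)).1, rfl⟩)) hYe
    (fun v hv i => indep_k (B := B) (hL := hL) hz (FractionRing (RG hL B)) v hv i) q3 j0)

end Pool.Agent.Run7.h103.UN
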