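import Mathlib

set_option autoImplicit false

/-!
# Simultaneous rational approximations from relations of small rank
-/

namespace Pool.Agent.Run7.h103.UN

open Finset

/-- Dirichlet's theorem on simultaneous approximation -/
lemma dirichlet {J : Type} [Fintype J] (w : J → ℝ) (T : ℕ) (hT : 1 ≤ T) :
    ∃ q : ℕ, 1 ≤ q ∧ q ≤ T ^ Fintype.card J ∧ ∀ j, ∃ p : ℤ, |q * w j - p| ≤ 1 / T := by
  classical
  have hT0 : (0 : ℝ) < T := by exact_mod_cast hT
  set box : ℕ → J → Fin T := fun q j => ⟨⌊Int.fract (q * w j) * T⌋₊, by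
    have h1 := Int.fract_lt_one (q * w j)
    have h2 := Int.fract_nonneg (q * w j)
    rw [Nat.floor_lt (by positivity)]
    calc Int.fract (q * w j) * T < 1 * T := by gcongr
      _ = T := one_mul _⟩ with hbox
  have hcard : (Finset.univ : Finset (J → Fin T)).card <
      (Finset.range (T ^ Fintype.card J + 1)).card := by
    rw [Finset.card_range, Finset.card_univ, Fintype.card_fun, Fintype.card_fin]
    exact Nat.lt_succ_self _
  obtain ⟨x, hx, y, hy, hxy, he⟩ := Finset.exists_ne_map_eq_of_card_lt_of_maps_to hcard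
    (f := box) (fun _ _ => Finset.mem_univ _)
  wlog hlt : x < y generalizing x y
  · exact this y hy x hx hxy.symm he.symm (lt_of_le_of_ne (not_lt.1 hlt) hxy.symm)
  refine ⟨y - x, by omega, ?_, fun j => ⟨⌊y * w j⌋ - ⌊x * w j⌋, ?_⟩⟩
  · have := Finset.mem_range.1 hy
    omega
  · have h1 := congrFun he j
    rw [hbox] at h1
    simp only [Fin.mk.injEq] at h1
    have hfx := Int.fract_nonneg (x * w j)
    have hfy := Int.fract_nonneg (y * w j)
    have g1 := Nat.floor_le (mul_nonneg hfx hT0.le)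
    have g2 := Nat.floor_le (mul_nonneg hfy hT0.le)
    have g3 := Nat.lt_floor_add_one (Int.fract (x * w j) * T)
    have g4 := Nat.lt_floor_add_one (Int.fract (y * w j) * T)
    rw [h1] at g1 g3
    have e : ((y - x : ℕ) : ℝ) * w j - ((⌊y * w j⌋ - ⌊x * w j⌋ : ℤ) : ℝ) =
        Int.fract (y * w j) - Int.fract (x * w j) := by
      rw [Nat.cast_sub hlt.le]
      push_cast
      unfold Int.fract
      ring
    have e2 : |Int.fract (y * w j) - Int.fract (x * w j)| * (T : ℝ) =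
        |Int.fract (y * w j) * T - Int.fract (x * w j) * T| := by
      rw [← sub_mul, abs_mul, abs_of_pos hT0]
    rw [e, le_div_iff₀ hT0, e2, abs_le]
    constructor <;> linarith

/-- **Common denominators.** -/
theorem common_denominator {I : Type} [Fintype I] [DecidableEq I] (z : I → ℝ) (b : Finset I)
    {n : ℕ} (hb : b.card ≤ n) (X : ℝ) (hX : 0 ≤ X)
    (h : ∀ Y E : ℝ, ∃ L : ℝ, Y ≤ L ∧ ∀ i, ∃ (c d0 : ℤ) (d : b → ℤ), c ≠ 0 ∧
      |(c : ℝ)| ≤ Real.exp (X * L) ∧ (∀ j, |(d j : ℝ)| ≤ Real.exp (X * L)) ∧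
      |c * z i - (d0 + ∑ j, d j * z j)| ≤ Real.exp (-(E * L))) (q0 : ℕ) :
    ∃ q : ℕ, q0 ≤ q ∧ ∀ i, ∃ p : ℤ, |q * z i - p| < (q : ℝ) ^ (-(1 / ((n + 1 : ℕ) : ℝ))) := by
  classical
  set N : ℝ := (n : ℝ) + 1 with hN
  set I0 : ℝ := (Fintype.card I : ℝ) with hI0
  have hI00 : 0 ≤ I0 := Nat.cast_nonneg _
  have hn0 : (0 : ℝ) ≤ n := Nat.cast_nonneg n
  set τ : ℝ := N * ((I0 + 1) * X) + I0 * X + 1 with hτ
  set E : ℝ := n * τ + τ with hE
  have hτ0 : 0 ≤ τ := by positivity
  set C1 : ℝ := (q0 + 1) * (n + 2 ^ n) with hC1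
  set C2 : ℝ := (q0 + 1) * 2 ^ n with hC2
  have hC10 : 0 ≤ C1 := by positivity
  have hC20 : 0 ≤ C2 := by positivity
  obtain ⟨L, hL, hrel⟩ := h (max 0 (C1 ^ (n + 1) * C2)) E
  have hL0 : 0 ≤ L := (le_max_left _ _).trans hL
  have hL1 : C1 ^ (n + 1) * C2 ≤ L := (le_max_right _ _).trans hL
  choose c d0 d hc0 hc hd hsm using hrel
  -- the parameters
  set T : ℕ := ⌈Real.exp (τ * L)⌉₊ with hT
  have hTe : Real.exp (τ * L) ≤ T := Nat.le_ceil _
  have hexp1 : 1 ≤ Real.exp (τ * L) := Real.one_le_exp (by positivity)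
  have hT2 : (T : ℝ) ≤ 2 * Real.exp (τ * L) := by
    have := (Nat.ceil_lt_add_one (Real.exp_pos (τ * L)).le).le
    linarith
  have hT1 : 1 ≤ T := by exact_mod_cast hexp1.trans hTe
  obtain ⟨q', hq1, hq2, hq3⟩ := dirichlet (fun j : b => z j) T hT1
  rw [Fintype.card_coe] at hq2
  choose a ha using hq3
  have hq2' : (q' : ℝ) ≤ (2 * Real.exp (τ * L)) ^ n := by
    have h1 : (q' : ℝ) ≤ (T : ℝ) ^ n := by
      exact_mod_cast hq2.trans (Nat.pow_le_pow_right hT1 hb)
    exact h1.trans (pow_le_pow_left₀ (Nat.cast_nonneg _) hT2 n)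
  set Q : ℕ := ∏ i, (c i).natAbs with hQ
  have hQ1 : 1 ≤ Q := Nat.one_le_iff_ne_zero.2 (Finset.prod_ne_zero_iff.2 fun i _ =>
    Int.natAbs_ne_zero.2 (hc0 i))
  set q : ℕ := (q0 + 1) * Q * q' with hq
  have hqq0 : q0 + 1 ≤ q := by
    rw [hq, mul_assoc]
    exact Nat.le_mul_of_pos_right _ (Nat.mul_pos hQ1 hq1)
  refine ⟨q, by omega, fun i => ?_⟩
  -- the product of the other coefficients
  set Qi : ℕ := ∏ j ∈ Finset.univ.erase i, (c j).natAbs with hQi
  have hQQ : Q = (c i).natAbs * Qi := (Finset.mul_prod_erase _ _ (Finset.mem_univ i)).symm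
  have hprod : ∀ s : Finset I, ((∏ j ∈ s, (c j).natAbs : ℕ) : ℝ) ≤ Real.exp (I0 * X * L) := by
    intro s
    push_cast
    calc (∏ j ∈ s, (((c j).natAbs : ℕ) : ℝ)) ≤ ∏ _j ∈ s, Real.exp (X * L) := by
          refine Finset.prod_le_prod (fun _ _ => Nat.cast_nonneg _) fun j _ => ?_
          rw [Nat.cast_natAbs, Int.cast_abs]
          exact hc j
      _ = Real.exp (X * L) ^ s.card := Finset.prod_const _
      _ ≤ Real.exp (X * L) ^ Fintype.card I := by
          refine pow_le_pow_right₀ (Real.one_le_exp (by positivity)) (Finset.card_le_univ s)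
      _ = _ := by
          rw [← Real.exp_nat_mul]
          congr 1
          rw [hI0]
          ring
  have hQiR : (Qi : ℝ) ≤ Real.exp (I0 * X * L) := hprod _
  have hQR : (Q : ℝ) ≤ Real.exp (I0 * X * L) := hprod _
  -- the sign
  set s : ℤ := (c i).sign with hs
  have hsc : ((c i).natAbs : ℤ) = s * c i := by
    rw [hs, Int.sign_mul_self_eq_natAbs]
  have hsabs : |(s : ℝ)| = 1 := by
    have h1 : |s| = 1 := by
      rw [hs, Int.abs_sign_of_ne_zero (hc0 i)]
    exact_mod_cast h1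
  set err : ℝ := c i * z i - (d0 i + ∑ j, d i j * z j) with herr
  have herr' : |err| ≤ Real.exp (-(E * L)) := hsm i
  set P : ℤ := (q0 + 1) * Qi * s * (d0 i * q' + ∑ j, d i j * a j) with hP
  refine ⟨P, ?_⟩
  have hid : (q : ℝ) * z i - P = (q0 + 1) * Qi * s *
      (q' * err + ∑ j, d i j * (q' * z j - a j)) := by
    have h1 : (q : ℝ) = (q0 + 1) * (((c i).natAbs : ℤ) : ℝ) * Qi * q' := by
      rw [hq, hQQ]
      push_cast
      rw [Nat.cast_natAbs]
      push_cast
      ring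
    have h2 : ∑ j, (d i j : ℝ) * (q' * z j - a j) =
        q' * ∑ j, (d i j : ℝ) * z j - ∑ j, (d i j : ℝ) * a j := by
      rw [Finset.mul_sum, ← Finset.sum_sub_distrib]
      exact Finset.sum_congr rfl fun j _ => by ring
    rw [h1, hsc, h2, hP, herr]
    push_cast
    ring
  have hq'0 : (0 : ℝ) ≤ q' := Nat.cast_nonneg _
  have hTinv : 1 / (T : ℝ) ≤ Real.exp (-(τ * L)) := by
    rw [Real.exp_neg, ← one_div]
    exact one_div_le_one_div_of_le (Real.exp_pos _) hTe
  have hsum : |∑ j, (d i j : ℝ) * (q' * z j - a j)| ≤ n * (Real.exp (X * L) * Real.exp (-(τ * L))) := by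
    calc |∑ j, (d i j : ℝ) * (q' * z j - a j)| ≤ ∑ j, |(d i j : ℝ) * (q' * z j - a j)| :=
          Finset.abs_sum_le_sum_abs _ _
      _ ≤ ∑ _j : b, Real.exp (X * L) * Real.exp (-(τ * L)) := by
          refine Finset.sum_le_sum fun j _ => ?_
          rw [abs_mul]
          exact mul_le_mul (hd i j) ((ha j).trans hTinv) (abs_nonneg _) (Real.exp_pos _).le
      _ = b.card * (Real.exp (X * L) * Real.exp (-(τ * L))) := by
          rw [Finset.sum_const, Finset.card_univ, Fintype.card_coe, nsmul_eq_mul]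
      _ ≤ _ := by gcongr
  have herr2 : |(q' : ℝ) * err| ≤ 2 ^ n * Real.exp (-(τ * L)) := by
    rw [abs_mul, abs_of_nonneg hq'0]
    calc (q' : ℝ) * |err| ≤ (2 * Real.exp (τ * L)) ^ n * Real.exp (-(E * L)) :=
          mul_le_mul hq2' herr' (abs_nonneg _) (by positivity)
      _ = 2 ^ n * Real.exp (-(τ * L)) := by
          rw [mul_pow, ← Real.exp_nat_mul, mul_assoc, ← Real.exp_add]
          congr 2
          rw [hE]
          ring
  have hmain : |(q : ℝ) * z i - P| ≤ C1 * Real.exp ((I0 + 1) * X * L - τ * L) := by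
    rw [hid, abs_mul, abs_mul, hsabs, mul_one, abs_of_nonneg (by positivity)]
    have h1 : |(q' : ℝ) * err + ∑ j, d i j * (q' * z j - a j)| ≤
        (n + 2 ^ n) * (Real.exp (X * L) * Real.exp (-(τ * L))) := by
      refine (abs_add_le _ _).trans ?_
      have h2 : Real.exp (-(τ * L)) ≤ Real.exp (X * L) * Real.exp (-(τ * L)) :=
        le_mul_of_one_le_left (Real.exp_pos _).le (Real.one_le_exp (by positivity))
      have h3 : (2 : ℝ) ^ n * Real.exp (-(τ * L)) ≤
          2 ^ n * (Real.exp (X * L) * Real.exp (-(τ * L))) := by gcongr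
      linarith
    calc (q0 + 1) * (Qi : ℝ) * |(q' : ℝ) * err + ∑ j, d i j * (q' * z j - a j)|
        ≤ (q0 + 1) * Real.exp (I0 * X * L) *
          ((n + 2 ^ n) * (Real.exp (X * L) * Real.exp (-(τ * L)))) := by gcongr
      _ = C1 * (Real.exp (I0 * X * L) * (Real.exp (X * L) * Real.exp (-(τ * L)))) := by
          rw [hC1]
          ring
      _ = _ := by
          rw [← Real.exp_add, ← Real.exp_add]
          congr 2
          ring
  have hqle : (q : ℝ) ≤ C2 * Real.exp (I0 * X * L + n * (τ * L)) := by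
    rw [hq]
    push_cast
    calc ((q0 : ℝ) + 1) * Q * q' ≤ (q0 + 1) * Real.exp (I0 * X * L) *
          (2 * Real.exp (τ * L)) ^ n := by gcongr
      _ = _ := by
          rw [mul_pow, ← Real.exp_nat_mul, Real.exp_add, hC2]
          ring
  have hq0' : (0 : ℝ) < q := by
    have : 0 < q := by omega
    exact_mod_cast this
  -- the final comparison
  have hfin : |(q : ℝ) * z i - P| ^ (n + 1) * q < 1 := by
    calc |(q : ℝ) * z i - P| ^ (n + 1) * q
        ≤ (C1 * Real.exp ((I0 + 1) * X * L - τ * L)) ^ (n + 1) *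
          (C2 * Real.exp (I0 * X * L + n * (τ * L))) := by gcongr
      _ = C1 ^ (n + 1) * C2 * Real.exp (-L) := by
          rw [mul_pow, ← Real.exp_nat_mul]
          have e1 : C1 ^ (n + 1) * Real.exp (((n + 1 : ℕ) : ℝ) * ((I0 + 1) * X * L - τ * L)) *
              (C2 * Real.exp (I0 * X * L + n * (τ * L))) = C1 ^ (n + 1) * C2 *
              (Real.exp (((n + 1 : ℕ) : ℝ) * ((I0 + 1) * X * L - τ * L)) *
              Real.exp (I0 * X * L + n * (τ * L))) := by ring
          rw [e1, ← Real.exp_add]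
          congr 2
          rw [hτ, hN]
          push_cast
          ring
      _ ≤ L * Real.exp (-L) := by gcongr
      _ < 1 := by
          have h1 := Real.add_one_le_exp L
          rw [Real.exp_neg, ← div_eq_mul_inv, div_lt_one (Real.exp_pos _)]
          linarith
  -- roots
  have hx0 := abs_nonneg ((q : ℝ) * z i - P)
  by_contra hcon
  push Not at hcon
  have h1 : ((q : ℝ) ^ (-(1 / ((n + 1 : ℕ) : ℝ)))) ^ (n + 1) ≤ |(q : ℝ) * z i - P| ^ (n + 1) :=
    pow_le_pow_left₀ (by positivity) hcon _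
  have h2 : ((q : ℝ) ^ (-(1 / ((n + 1 : ℕ) : ℝ)))) ^ (n + 1) = (q : ℝ)⁻¹ := by
    rw [← Real.rpow_natCast, ← Real.rpow_mul hq0'.le, ← Real.rpow_neg_one]
    congr 1
    have : ((n + 1 : ℕ) : ℝ) ≠ 0 := by positivity
    field_simp
  rw [h2] at h1
  have h3 : (q : ℝ)⁻¹ * q = 1 := inv_mul_cancel₀ hq0'.ne'
  have h4 : (q : ℝ)⁻¹ * q ≤ |(q : ℝ) * z i - P| ^ (n + 1) * q := by gcongr
  linarith

end Pool.Agent.Run7.h103.UN
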