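import Mathlib
import Pool.Agent.Run7.h103.UN.Rank

set_option autoImplicit false
set_option linter.unusedSectionVars false

/-!
# Relations between elements of two linearly disjoint spaces, modulo spaces of small dimension
-/

namespace Pool.Agent.Run7.h103.UN

open Pool.Agent.TH796.AL.AlgA

variable {R F : Type} [CommRing R] [IsDomain R] [Field F] [Algebra R F] [FaithfulSMul R F]

/-- coefficients over the ring -/
lemma mem_span_ring (k : Type) [Field k] [Algebra R k] [IsFractionRing R k] [Algebra k F]
    [IsScalarTower R k F] {ι : Type} [Fintype ι] (v : ι → F) {z : F}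
    (h : z ∈ Submodule.span k (Set.range v)) :
    ∃ (c : R) (d : ι → R), c ≠ 0 ∧ algebraMap R F c * z = ∑ j, algebraMap R F (d j) * v j := by
  classical
  obtain ⟨l, hl⟩ := (Submodule.mem_span_range_iff_exists_fun k).1 h
  obtain ⟨c, hc⟩ := IsLocalization.exist_integer_multiples_of_finite (nonZeroDivisors R) l
  choose d hd using hc
  refine ⟨c, d, nonZeroDivisors.ne_zero c.2, ?_⟩
  rw [← hl, Finset.mul_sum]
  refine Finset.sum_congr rfl fun j _ => ?_
  have h5 : algebraMap R F (d j) = algebraMap R F (c : R) * algebraMap k F (l j) := by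
    rw [IsScalarTower.algebraMap_apply R k F, hd j, Algebra.smul_def, map_mul,
      ← IsScalarTower.algebraMap_apply R k F]
  rw [h5, Algebra.smul_def]
  ring

/-- **Relations.** -/
theorem rank_rel {U W : Submonoid F} (h : LD R U W) {I : Type} [Fintype I] [DecidableEq I]
    (ζ : I → F) {D : ℕ}
    (t t' : Fin D → F) (m m' : I → R) (hm : ∀ i, m i ≠ 0) (hm' : ∀ i, m' i ≠ 0)
    (n n' : I → Fin D → R)
    (hU : ∀ i, algebraMap R F (m i) * ζ i + ∑ j, algebraMap R F (n i j) * t j ∈ U)
    (hW : ∀ i, algebraMap R F (m' i) * ζ i + ∑ j, algebraMap R F (n' i j) * t' j ∈ W) :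
    ∃ b : Finset I, b.card ≤ 2 * D ∧ ∀ i, ∃ (c d0 : R) (d : b → R), c ≠ 0 ∧
      algebraMap R F c * ζ i = algebraMap R F d0 + ∑ j : b, algebraMap R F (d j) * ζ j := by
  classical
  let _ : Algebra (FractionRing R) F := FractionRing.liftAlgebra R F
  have : IsScalarTower R (FractionRing R) F := FractionRing.isScalarTower_liftAlgebra R F
  set k := FractionRing R with hk
  set v : Option I → F := fun o => o.elim 1 ζ with hv
  have key : ∀ (X : Submonoid F) (τ : Fin D → F) (μ : I → R) (ν : I → Fin D → R),
      (∀ i, μ i ≠ 0) → (∀ i, algebraMap R F (μ i) * ζ i + ∑ j, algebraMap R F (ν i j) * τ j ∈ X) →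
      Submodule.span k (Set.range v) ≤ Submodule.span k (X : Set F) ⊔
        Submodule.span k (Set.range τ) := by
    intro X τ μ ν hμ hX
    rw [Submodule.span_le]
    rintro _ ⟨o, rfl⟩
    cases o with
    | none => exact Submodule.mem_sup_left (Submodule.subset_span X.one_mem)
    | some i =>
      have h1 : algebraMap R F (μ i) * ζ i ∈ Submodule.span k (X : Set F) ⊔
          Submodule.span k (Set.range τ) := by
        have e : algebraMap R F (μ i) * ζ i =
            (algebraMap R F (μ i) * ζ i + ∑ j, algebraMap R F (ν i j) * τ j) -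
              ∑ j, algebraMap R F (ν i j) * τ j := by ring
        rw [e]
        refine Submodule.sub_mem _ (Submodule.mem_sup_left (Submodule.subset_span (hX i)))
          (Submodule.mem_sup_right (Submodule.sum_mem _ fun j _ => ?_))
        have e2 : algebraMap R F (ν i j) * τ j = algebraMap R k (ν i j) • τ j := by
          rw [Algebra.smul_def, ← IsScalarTower.algebraMap_apply R k F]
        rw [e2]
        exact Submodule.smul_mem _ _ (Submodule.subset_span ⟨j, rfl⟩)
      have hμ0 : algebraMap R k (μ i) ≠ 0 := by
        intro h0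
        exact hμ i ((IsFractionRing.injective R k) (by rw [h0, map_zero]))
      have e3 : v (some i) = (algebraMap R k (μ i))⁻¹ • (algebraMap R F (μ i) * ζ i) := by
        have e4 : algebraMap R F (μ i) * ζ i = algebraMap R k (μ i) • ζ i := by
          rw [Algebra.smul_def, ← IsScalarTower.algebraMap_apply R k F]
        rw [e4, inv_smul_smul₀ hμ0]
        rfl
      rw [e3]
      exact Submodule.smul_mem _ _ h1
  have hT : ∀ τ : Fin D → F, Module.finrank k (Submodule.span k (Set.range τ)) ≤ D := by
    intro τ
    have := finrank_range_le_card (R := k) τ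
    rwa [Fintype.card_fin] at this
  have hP : Module.finrank k (Submodule.span k ({1} : Set F)) ≤ 1 := by
    have := finrank_span_le_card (R := k) ({1} : Set F)
    simpa using this
  have hfin : ∀ {ι : Type} [Finite ι] (w : ι → F), FiniteDimensional k (Submodule.span k (Set.range w)) :=
    fun w => FiniteDimensional.span_of_finite k (Set.finite_range w)
  have := hfin v
  have := hfin t
  have := hfin t'
  have : FiniteDimensional k (Submodule.span k ({1} : Set F)) :=
    FiniteDimensional.span_of_finite k (Set.finite_singleton 1)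
  have hrank := finrank_le_two (inf_span k h) hP (key U t m n hm hU) (key W t' m' n' hm' hW)
    (hT t) (hT t')
  -- a basis
  obtain ⟨b, -, h2, h3, h4⟩ := exists_linearIndepOn_extension (K := k) (v := v) (s := {none})
    (t := Set.univ) (LinearIndepOn.singleton (one_ne_zero (α := F))) (Set.subset_univ _)
  have hnone : none ∈ b := h2 rfl
  have hcard : b.ncard ≤ 2 * D + 1 := by
    have h5 := h4.linearIndependent_restrict
    have h6 : Submodule.span k (Set.range (b.domRestrict v)) ≤ Submodule.span k (Set.range v) := by
      refine Submodule.span_mono ?_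
      rintro _ ⟨x, rfl⟩
      exact ⟨x, rfl⟩
    have h7 := Submodule.finrank_mono h6
    rw [finrank_span_eq_card h5] at h7
    rw [Set.ncard_eq_toFinset_card' b, Set.toFinset_card]
    exact h7.trans hrank
  refine ⟨Finset.univ.filter fun i => some i ∈ b, ?_, fun i => ?_⟩
  · have h5 : ((Finset.univ.filter fun i : I => some i ∈ b).map Function.Embedding.some) ⊂
        b.toFinset := by
      rw [Finset.ssubset_iff_of_subset]
      · exact ⟨none, Set.mem_toFinset.2 hnone, by simp⟩
      · intro o ho
        obtain ⟨i, hi, rfl⟩ := Finset.mem_map.1 ho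
        exact Set.mem_toFinset.2 (Finset.mem_filter.1 hi).2
    have h6 := Finset.card_lt_card h5
    rw [Finset.card_map] at h6
    rw [Set.ncard_eq_toFinset_card' b] at hcard
    omega
  · have h5 : ζ i ∈ Submodule.span k (Set.range fun o : Option
        (Finset.univ.filter fun i : I => some i ∈ b) => v (o.map Subtype.val)) := by
      have h6 : v (some i) ∈ Submodule.span k (v '' b) := h3 ⟨some i, Set.mem_univ _, rfl⟩
      refine (Submodule.span_le.2 ?_) h6
      rintro _ ⟨o, ho, rfl⟩
      cases o with
      | none => exact Submodule.subset_span ⟨none, rfl⟩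
      | some j => exact Submodule.subset_span ⟨some ⟨j, by simpa using ho⟩, rfl⟩
    obtain ⟨c, d, hc, hd⟩ := mem_span_ring (R := R) k _ h5
    refine ⟨c, d none, fun j => d (some j), hc, ?_⟩
    rw [hd, Fintype.sum_option]
    simp [hv]

end Pool.Agent.Run7.h103.UN
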