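import Mathlib
import Pool.Agent.Run7.h103.UN.Near
import Pool.Agent.Run7.h103.UN.RankRel
import Pool.Agent.Run7.h103.UN.Dir

set_option autoImplicit false
set_option linter.unusedSectionVars false

/-!
# Predictable linear forms in fixed and arbitrary real numbers, in two bases
-/

namespace Pool.Agent.Run7.h103.UN

open Filter Topology Pool.Agent.TH932.Abs Pool.Agent.TH932.Germs Pool.Agent.TH932.Chi
open Pool.Agent.TH932.Words Pool.Agent.TH932.Scale Finset
open Pool.Agent.TH796.AL Pool.Agent.TH796.AL.TwoB Pool.Agent.TH796.AL.Ai Pool.Agent.TH796.AL.Grp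
open Pool.Agent.TH796.AL.Final Pool.Agent.TH796.AL.Alg Pool.Agent.Run7.h103.PF
open Pool.Agent.TH796.AL.AlgA Pool.Agent.TH796.AL.Nv

/-- some number `m z + ∑ n_j t_j + l` with `m ≠ 0` is a polynomial in predictable numbers, up to a
small error -/
def FormNear (b : ℕ) {r : ℕ} (u : Fin r → ℕ → ℤ) (d : ℕ) (A ε : ℝ) (M K : ℕ) (z : ℝ) {D : ℕ}
    (t : Fin D → ℝ) : Prop :=
  ∃ (m l : ℤ) (n : Fin D → ℤ) (x : Fin r → ℝ) (a : (Fin r → Fin (d + 1)) → ℤ), m ≠ 0 ∧
    |(m : ℝ)| ≤ Real.exp (A * (K + 1)) ∧ (∀ j, |(n j : ℝ)| ≤ Real.exp (A * (K + 1))) ∧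
    (∀ s, |x s| ≤ Real.exp (A * (K + 1))) ∧
    (∀ s, Good b (u s) (x s) M K (A * Real.log (M / (K + 1)))) ∧
    (∀ e, |(a e : ℝ)| ≤ Real.exp (A * (K + 1))) ∧
    |pv a x - (m * z + ∑ j, n j * t j + l)| ≤ Real.exp (-(ε * M))

/-- bounds for polynomials -/
lemma pv_le (r d : ℕ) (A : ℝ) : ∃ A₂ : ℝ, 0 ≤ A₂ ∧ ∀ (K : ℕ) (a : (Fin r → Fin (d + 1)) → ℤ)
    (x : Fin r → ℝ), (∀ e, |(a e : ℝ)| ≤ Real.exp (A * (K + 1))) →
    (∀ s, |x s| ≤ Real.exp (A * (K + 1))) → |pv a x| ≤ Real.exp (A₂ * (K + 1)) := by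
  classical
  set N : ℝ := (Fintype.card (Fin r → Fin (d + 1)) : ℝ) with hN
  have hA0 := abs_nonneg A
  refine ⟨(1 + d * r) * |A| + |N|, by positivity, fun K a x ha hx => ?_⟩
  set X := Real.exp (|A| * (K + 1)) with hX
  have hX1 : 1 ≤ X := Real.one_le_exp (by positivity)
  have hAe : Real.exp (A * (K + 1)) ≤ X := exp_mono (le_abs_self A) K
  have h1 : ∀ e : Fin r → Fin (d + 1), |∏ i, x i ^ (e i : ℕ)| ≤ X ^ (d * r) := by
    intro e
    rw [Finset.abs_prod]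
    calc ∏ i, |x i ^ (e i : ℕ)| ≤ ∏ _i : Fin r, X ^ d := by
          refine Finset.prod_le_prod (fun _ _ => abs_nonneg _) fun i _ => ?_
          rw [abs_pow]
          calc |x i| ^ (e i : ℕ) ≤ X ^ (e i : ℕ) :=
                pow_le_pow_left₀ (abs_nonneg _) ((hx i).trans hAe) _
            _ ≤ X ^ d := pow_le_pow_right₀ hX1 (by have := (e i).isLt; omega)
      _ = X ^ (d * r) := by
          rw [Finset.prod_const, Finset.card_univ, Fintype.card_fin, ← pow_mul]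
  calc |pv a x| ≤ ∑ e, |(a e : ℝ) * ∏ i, x i ^ (e i : ℕ)| := Finset.abs_sum_le_sum_abs _ _
    _ ≤ ∑ _e : Fin r → Fin (d + 1), X * X ^ (d * r) := by
        refine Finset.sum_le_sum fun e _ => ?_
        rw [abs_mul]
        exact mul_le_mul ((ha e).trans hAe) (h1 e) (abs_nonneg _) (by positivity)
    _ = N * Real.exp (((1 + d * r) * |A|) * (K + 1)) := by
        rw [Finset.sum_const, Finset.card_univ, nsmul_eq_mul, hN, hX, ← Real.exp_nat_mul,
          ← Real.exp_add]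
        congr 2
        push_cast
        ring
    _ ≤ _ := exp_const _ _

section

variable {m : ℕ} {B : Base m} {L : ℕ → ℝ} {hL : Tendsto L atTop atTop}

/-- integers of negligible size as bounded germs -/
lemma int_RG (a : ℕ → ℤ) (ha : Negl L a) : ∃ μ : RG hL B, rho (μ : GG) = gr (fun n => (a n : ℝ)) ∧
    ((∀ n, a n ≠ 0) → μ ≠ 0) := by
  have h1 : gm (fun n => (a n : ℚ)) ∈ KK L hL := ⟨a, fun _ => 1, ha, Negl.one hL,
    Eventually.of_forall fun n => one_ne_zero, by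
    congr 1; funext n; simp⟩
  have h2 := Bd.ev (B := B) (hL := hL) (AddMonoidAlgebra.single 0
    (⟨gm (fun n => (a n : ℚ)), h1⟩ : KK L hL))
  rw [ev_single, ch_zero, mul_one] at h2
  refine ⟨⟨gm (fun n => (a n : ℚ)), h2⟩, ?_, fun h3 h4 => ?_⟩
  · change rho (gm (fun n => (a n : ℚ))) = _
    rw [rho_gm]
    simp only [Rat.cast_intCast]
  · have h5 : gm (fun n => (a n : ℚ)) = 0 := congrArg Subtype.val h4
    have h6 : gm (fun n => (a n : ℚ)) ≠ 0 := gm_ne_zero.2 (Eventually.of_forall fun n => by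
      exact_mod_cast h3 n)
    exact h6 h5

/-- clearing denominators in a relation between constants -/
lemma clearC {I : Type} [Fintype I] [DecidableEq I] (z : I → ℝ) (b : Finset I) (i : I)
    (h : ∃ (c d0 : RG hL B) (d : b → RG hL B), c ≠ 0 ∧
      algebraMap (RG hL B) (FF hL) c * kst hL (z i) = algebraMap (RG hL B) (FF hL) d0 +
        ∑ j : b, algebraMap (RG hL B) (FF hL) (d j) * kst hL (z j)) :
    ∃ (X : ℝ), 0 ≤ X ∧ ∀ E : ℝ, ∀ᶠ n in (UU : Filter ℕ), ∃ (c d0 : ℤ) (d : b → ℤ), c ≠ 0 ∧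
      |(c : ℝ)| ≤ Real.exp (X * L n) ∧ (∀ j, |(d j : ℝ)| ≤ Real.exp (X * L n)) ∧
      |c * z i - (d0 + ∑ j, d j * z j)| ≤ Real.exp (-(E * L n)) := by
  classical
  obtain ⟨c, d0, d, hc0, hrel⟩ := h
  set e := (Fintype.equivFin b) with he
  set v : Fin (Fintype.card b + 2) → RG hL B := Fin.cons (-c) (Fin.cons d0 fun j => d (e.symm j))
    with hv
  set x : Fin (Fintype.card b + 2) → ℝ := Fin.cons (z i) (Fin.cons 1 fun j => z (e.symm j)) with hx
  have hrel2 : ∑ j, phi hL B (v j) * kst hL (x j) = 0 := by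
    rw [Fin.sum_univ_succ, Fin.sum_univ_succ]
    simp only [hv, hx, Fin.cons_zero, Fin.cons_succ, map_one, mul_one, map_neg, neg_mul]
    have h1 : ∑ j, phi hL B (d (e.symm j)) * kst hL (z (e.symm j)) =
        ∑ j : b, phi hL B (d j) * kst hL (z j) :=
      e.symm.sum_comp fun j => phi hL B (d j) * kst hL (z j)
    rw [h1]
    have h2 := hrel
    simp only [algebraMap_eq] at h2
    rw [h2]
    ring
  obtain ⟨H, cc, g1, g2, g3⟩ := clearH (B := B) (hL := hL) v (fun j _ => x j) 0 (by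
    rw [hv, Fin.cons_zero]
    exact neg_ne_zero.2 hc0) (by
    have h1 := (rel_zero_iff hL B v x).1 hrel2
    intro E
    exact h1 E)
  refine ⟨|H|, abs_nonneg _, fun E => ?_⟩
  have g2' : ∀ᶠ n in (UU : Filter ℕ), ∀ j, |(cc j n : ℝ)| ≤ Real.exp (H * L n) := by
    rw [Filter.eventually_all]
    exact g2
  filter_upwards [g1, g2', g3 E, L_nonneg hL] with n k1 k2 k3 k4
  have hHe : Real.exp (H * L n) ≤ Real.exp (|H| * L n) :=
    Real.exp_le_exp.2 (mul_le_mul_of_nonneg_right (le_abs_self H) k4)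
  refine ⟨cc 0 n, -cc 1 n, fun j => -cc (e j).succ.succ n, k1, (k2 0).trans hHe, fun j => ?_, ?_⟩
  · push_cast
    rw [abs_neg]
    exact (k2 _).trans hHe
  · rw [Fin.sum_univ_succ, Fin.sum_univ_succ] at k3
    simp only [hx, Fin.cons_zero, Fin.cons_succ, mul_one] at k3
    have h1 : ∑ j, (cc (Fin.succ (Fin.succ j)) n : ℝ) * z (e.symm j) =
        ∑ j : b, (cc (Fin.succ (Fin.succ (e j))) n : ℝ) * z j := by
      rw [← e.sum_comp fun j => (cc (Fin.succ (Fin.succ j)) n : ℝ) * z (e.symm j)]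
      simp
    rw [h1] at k3
    push_cast
    have h2 : (cc 0 n : ℝ) * z i - (-(cc 1 n : ℝ) + ∑ j : b, -(cc (e j).succ.succ n : ℝ) * z j) =
        cc 0 n * z i + (cc (Fin.succ 0) n + ∑ j : b, (cc (Fin.succ (Fin.succ (e j))) n : ℝ) * z j) := by
      simp only [neg_mul, Finset.sum_neg_distrib]
      have : (Fin.succ 0 : Fin (Fintype.card b + 2)) = 1 := rfl
      rw [this]
      ring
    rw [h2]
    exact k3

end

/-- **Linear forms in two bases.** -/
theorem pair_mod {W : Type} [Fintype W] [DecidableEq W] (z : W → ℝ) {b c : ℕ} (hb : 2 ≤ b)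
    (hc : 2 ≤ c) (hbc : GA {b} ⊓ GA {c} = ⊥) {r : ℕ} (u v : W → Fin r → ℕ → ℤ) {C : ℝ}
    (hu : ∀ i s, Simple b C (u i s)) (hv : ∀ i s, Simple c C (v i s)) (d D q0 : ℕ) (k : ℝ)
    (hk : ∀ q : ℕ, q0 ≤ q → k ≤ (Set.ncard {i : W | ∀ p : ℤ,
      (q : ℝ) ^ (-(1 / ((2 * D + 1 : ℕ) : ℝ))) ≤ |(q : ℝ) * z i - p|} : ℝ))
    (I : Finset W) (hI : ((Finset.univ \ I).card : ℝ) < k) (A : ℝ) {ε : ℝ} (hε : 0 < ε) :
    ∃ R : ℕ, ∀ M K : ℕ, R * (K + 1) ≤ M → ∀ t t' : Fin D → ℝ,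
      (∀ i ∈ I, FormNear b (u i) d A ε M K (z i) t) →
      (∀ i ∈ I, FormNear c (v i) d A ε M K (z i) t') → False := by
  classical
  by_contra hcon
  push Not at hcon
  set Z : ℝ := ∑ i, |z i| + D with hZ
  have hZ0 : 0 ≤ ∑ i, |z i| := Finset.sum_nonneg fun _ _ => abs_nonneg _
  have hZi : ∀ i, |z i| ≤ ∑ i, |z i| := fun i =>
    Finset.single_le_sum (f := fun i => |z i|) (fun _ _ => abs_nonneg _) (Finset.mem_univ i)
  have hZ1 : 0 ≤ Z := by positivity
  obtain ⟨A₂, hA₂, hpv⟩ := pv_le r d A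
  set A₃ : ℝ := |A| + A₂ with hA₃
  set A' : ℝ := A₃ + |Z + 2| with hA'
  have hAA := le_abs_self A
  have hA0 := abs_nonneg A
  have hZa := abs_nonneg (Z + 2)
  have hAA' : A ≤ A' := by linarith
  -- normalisation
  have norm : ∀ (B : ℕ) (w : Fin r → ℕ → ℤ) (M K : ℕ) (i : W) (t : Fin D → ℝ), 1 * (K + 1) ≤ M →
      FormNear B w d A ε M K (z i) t → ∃ (m l : ℤ) (n : Fin D → ℤ) (x : Fin r → ℝ)
        (a : (Fin r → Fin (d + 1)) → ℤ), m ≠ 0 ∧
        |(m : ℝ)| ≤ Real.exp (A' * (K + 1)) ∧ (∀ j, |(n j : ℝ)| ≤ Real.exp (A' * (K + 1))) ∧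
        |(l : ℝ)| ≤ Real.exp (A' * (K + 1)) ∧ (∀ s, |x s| ≤ Real.exp (A' * (K + 1))) ∧
        (∀ s, Good B (w s) (x s) M K (A' * Real.log (M / (K + 1)))) ∧
        (∀ e, |(a e : ℝ)| ≤ Real.exp (A' * (K + 1))) ∧
        |pv a x - (m * z i + ∑ j, n j * Int.fract (t j) + l)| ≤ Real.exp (-(ε * M)) := by
    intro B w M K i t hMK h
    obtain ⟨m, l, n, x, a, h1, h2, h3, h4, h5, h6, h7⟩ := h
    have hlog := log_nonneg_of le_rfl hMK
    have hAe : Real.exp (A * (K + 1)) ≤ Real.exp (A₃ * (K + 1)) := exp_mono (by linarith) K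
    have hA2e : Real.exp (A₂ * (K + 1)) ≤ Real.exp (A₃ * (K + 1)) := exp_mono (by linarith) K
    have hone : (1 : ℝ) ≤ Real.exp (A₃ * (K + 1)) := Real.one_le_exp (by positivity)
    have e : pv a x - (m * z i + ∑ j, n j * Int.fract (t j) + ((l + ∑ j, n j * ⌊t j⌋ : ℤ) : ℝ)) =
        pv a x - (m * z i + ∑ j, n j * t j + l) := by
      have e2 : ∑ j, (n j : ℝ) * t j = ∑ j, (n j : ℝ) * Int.fract (t j) +
          ∑ j, (n j : ℝ) * (⌊t j⌋ : ℤ) := by
        rw [← Finset.sum_add_distrib]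
        refine Finset.sum_congr rfl fun j _ => ?_
        rw [← mul_add, Int.fract_add_floor]
      push_cast
      rw [e2]
      ring
    rw [← e] at h7
    refine ⟨m, l + ∑ j, n j * ⌊t j⌋, n, x, a, h1, h2.trans (exp_mono hAA' K),
      fun j => (h3 j).trans (exp_mono hAA' K), ?_, fun s => (h4 s).trans (exp_mono hAA' K),
      fun s => good_monoE (mul_le_mul_of_nonneg_right hAA' hlog) (h5 s),
      fun e => (h6 e).trans (exp_mono hAA' K), h7⟩
    have g1 : |∑ j, (n j : ℝ) * Int.fract (t j)| ≤ D * Real.exp (A₃ * (K + 1)) := by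
      calc |∑ j, (n j : ℝ) * Int.fract (t j)| ≤ ∑ j, |(n j : ℝ) * Int.fract (t j)| :=
            Finset.abs_sum_le_sum_abs _ _
        _ ≤ ∑ _j : Fin D, Real.exp (A₃ * (K + 1)) := by
            refine Finset.sum_le_sum fun j _ => ?_
            rw [abs_mul, Int.abs_fract]
            calc |(n j : ℝ)| * Int.fract (t j) ≤ |(n j : ℝ)| * 1 := by
                  gcongr
                  exact (Int.fract_lt_one _).le
              _ ≤ _ := by
                  rw [mul_one]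
                  exact (h3 j).trans hAe
        _ = _ := by rw [Finset.sum_const, Finset.card_univ, Fintype.card_fin, nsmul_eq_mul]
    have g2 : |(m : ℝ) * z i| ≤ (∑ i, |z i|) * Real.exp (A₃ * (K + 1)) := by
      rw [abs_mul, mul_comm]
      exact mul_le_mul (hZi i) (h2.trans hAe) (abs_nonneg _) hZ0
    have g3 : |pv a x| ≤ Real.exp (A₃ * (K + 1)) := (hpv K a x h6 h4).trans hA2e
    have g4 : |pv a x - (m * z i + ∑ j, n j * Int.fract (t j) + ((l + ∑ j, n j * ⌊t j⌋ : ℤ) : ℝ))| ≤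
        Real.exp (A₃ * (K + 1)) := by
      refine (h7.trans ?_).trans hone
      rw [Real.exp_le_one_iff]
      have : 0 ≤ ε * M := by positivity
      linarith
    have e3 : (((l + ∑ j, n j * ⌊t j⌋ : ℤ) : ℝ)) = pv a x - (m * z i) -
        ∑ j, (n j : ℝ) * Int.fract (t j) -
        (pv a x - (m * z i + ∑ j, n j * Int.fract (t j) + ((l + ∑ j, n j * ⌊t j⌋ : ℤ) : ℝ))) := by
      ring
    rw [e3]
    refine (abs_sub _ _).trans ?_
    have g5 := abs_sub (pv a x - (m * z i)) (∑ j, (n j : ℝ) * Int.fract (t j))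
    have g6 := abs_sub (pv a x) (m * z i)
    have g7 : (Z + 2) * Real.exp (A₃ * (K + 1)) ≤ Real.exp (A' * (K + 1)) := exp_const _ _
    have g8 : (Z + 2) * Real.exp (A₃ * (K + 1)) = (∑ i, |z i|) * Real.exp (A₃ * (K + 1)) +
        D * Real.exp (A₃ * (K + 1)) + Real.exp (A₃ * (K + 1)) + Real.exp (A₃ * (K + 1)) := by
      rw [hZ]
      ring
    linarith
  obtain ⟨m, B, N, hL, M, K, x, h1, h2, h3, h4, h5, h6⟩ := keyS (ι := (I × Fin r) ⊕ (I × Fin r))
    (Sum.elim (fun _ => b) fun _ => c) (by rintro (i | i); exacts [hb, hc])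
    (Sum.elim (fun p => u p.1 p.2) fun p => v p.1 p.2)
    (C := C) (by rintro (i | i); exacts [hu _ _, hv _ _]) A'
    (fun M K x => ∃ (t t' : Fin D → ℝ) (m m' l l' : I → ℤ) (n n' : I → Fin D → ℤ)
      (a a' : I → (Fin r → Fin (d + 1)) → ℤ),
      ((∀ j, |t j| ≤ Real.exp (A' * (K + 1))) ∧ (∀ i, m i ≠ 0) ∧
      (∀ i, |(m i : ℝ)| ≤ Real.exp (A' * (K + 1))) ∧
      (∀ i, |(l i : ℝ)| ≤ Real.exp (A' * (K + 1))) ∧
      (∀ i j, |(n i j : ℝ)| ≤ Real.exp (A' * (K + 1))) ∧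
      (∀ i e, |(a i e : ℝ)| ≤ Real.exp (A' * (K + 1))) ∧
      (∀ i, |pv (a i) (fun s => x (Sum.inl (i, s))) - (m i * z i + ∑ j, n i j * t j + l i)| ≤
        Real.exp (-(ε * M)))) ∧
      ((∀ j, |t' j| ≤ Real.exp (A' * (K + 1))) ∧ (∀ i, m' i ≠ 0) ∧
      (∀ i, |(m' i : ℝ)| ≤ Real.exp (A' * (K + 1))) ∧
      (∀ i, |(l' i : ℝ)| ≤ Real.exp (A' * (K + 1))) ∧
      (∀ i j, |(n' i j : ℝ)| ≤ Real.exp (A' * (K + 1))) ∧
      (∀ i e, |(a' i e : ℝ)| ≤ Real.exp (A' * (K + 1))) ∧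
      (∀ i, |pv (a' i) (fun s => x (Sum.inr (i, s))) - (m' i * z i + ∑ j, n' i j * t' j + l' i)| ≤
        Real.exp (-(ε * M))))) (by
      intro R
      obtain ⟨M, K, hMK, t, t', g1, g2, -⟩ := hcon (R + 1)
      have hMK1 : 1 * (K + 1) ≤ M :=
        le_trans (Nat.mul_le_mul_right _ (Nat.le_add_left 1 R)) hMK
      choose m l n x a k1 k2 k3 k4 k5 k6 k7 k8 using
        fun i : I => norm b (u i) M K i t hMK1 (g1 i i.2)
      choose m' l' n' x' a' k1' k2' k3' k4' k5' k6' k7' k8' using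
        fun i : I => norm c (v i) M K i t' hMK1 (g2 i i.2)
      have hfr : ∀ s : ℝ, |Int.fract s| ≤ Real.exp (A' * (K + 1)) := by
        intro s
        rw [Int.abs_fract]
        exact (Int.fract_lt_one s).le.trans (Real.one_le_exp (by positivity))
      refine ⟨M, K, Sum.elim (fun p => x p.1 p.2) (fun p => x' p.1 p.2),
        le_trans (Nat.mul_le_mul_right _ (Nat.le_succ R)) hMK, ?_, ?_,
        fun j => Int.fract (t j), fun j => Int.fract (t' j), m, m', l, l', n, n', a, a',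
        ⟨fun j => hfr _, k1, k2, k4, k3, k7, k8⟩, ⟨fun j => hfr _, k1', k2', k4', k3', k7', k8'⟩⟩
      · rintro (p | p)
        · exact k6 p.1 p.2
        · exact k6' p.1 p.2
      · rintro (p | p)
        · exact k5 p.1 p.2
        · exact k5' p.1 p.2)
  choose t t' mm mm' ll ll' nn nn' aa aa' a1 a2 using h5
  -- bounded germs
  have hbd : ∀ f : ℕ → ℝ, (∀ n, |f n| ≤ Real.exp (A' * (K n + 1))) → gr f ∈ OO hL :=
    fun f hf => ⟨0, bdd_of_small h3 h2 A' hf⟩
  have key : ∀ (b : ℕ) (y : ℕ → I → Fin r → ℝ) (m l : ℕ → I → ℤ) (n : ℕ → I → Fin D → ℤ)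
      (a : ℕ → I → (Fin r → Fin (d + 1)) → ℤ) (t : ℕ → Fin D → ℝ),
      (∀ i s, RepH B hL (VS B (GA {b})) (gr fun n => y n i s)) →
      (∀ n i s, |y n i s| ≤ Real.exp (A' * (K n + 1))) →
      (∀ s, (∀ j, |t s j| ≤ Real.exp (A' * (K s + 1))) ∧ (∀ i, m s i ≠ 0) ∧
      (∀ i, |(m s i : ℝ)| ≤ Real.exp (A' * (K s + 1))) ∧
      (∀ i, |(l s i : ℝ)| ≤ Real.exp (A' * (K s + 1))) ∧
      (∀ i j, |(n s i j : ℝ)| ≤ Real.exp (A' * (K s + 1))) ∧
      (∀ i e, |(a s i e : ℝ)| ≤ Real.exp (A' * (K s + 1))) ∧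
      (∀ i, |pv (a s i) (y s i) - (m s i * z i + ∑ j, n s i j * t s j + l s i)| ≤
        Real.exp (-(ε * M s)))) →
      ∃ (τ : Fin D → FF hL) (μ : I → RG hL B) (ν : I → Fin D → RG hL B), (∀ i, μ i ≠ 0) ∧
        ∀ i, algebraMap (RG hL B) (FF hL) (μ i) * kst hL (z i) +
          ∑ j, algebraMap (RG hL B) (FF hL) (ν i j) * τ j ∈ UR B hL (VS B (GA {b})) := by
    intro b y m l n a t y1 y2 hall
    choose t1 m1 m2 l1 n1 c1 e1 using hall
    choose μ hμ1 hμ2 using fun i => int_RG (B := B) (hL := hL) (fun s => m s i)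
      (negl_of_small h3 h2 A' fun s => m2 s i)
    choose ν hν1 hν2 using fun i j => int_RG (B := B) (hL := hL) (fun s => n s i j)
      (negl_of_small h3 h2 A' fun s => n1 s i j)
    -- the represented germs
    have hpS : ∀ i, (fun s => pv (a s i) (y s i)) ∈ SQ B hL (VS B (GA {b})) := fun i =>
      pv_SQ (K := K) h2 h3 (fun s => y s i) (fun j => y1 i j) (fun s j => y2 s i j)
        (fun s => a s i) fun s => c1 s i
    have hlS : ∀ i, (fun s => (l s i : ℝ)) ∈ SQ B hL (VS B (GA {b})) := fun i => by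
      refine mem_SQ.2 ⟨?_, 0, bdd_of_small h3 h2 A' fun s => l1 s i⟩
      have := repH_int B hL (VS B (GA {b})) (q := fun s => (l s i : ℚ)) (d := fun _ => 1)
        (Negl.one hL) (fun s => l s i) (negl_of_small h3 h2 A' fun s => l1 s i)
        (fun s => one_ne_zero) (fun s => by simp)
      simpa using this
    have hw : ∀ i, RepH B hL (VS B (GA {b})) (gr fun s => m s i * z i + ∑ j, n s i j * t s j) ∧
        (gr fun s => m s i * z i + ∑ j, n s i j * t s j) ∈ OO hL := by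
      intro i
      obtain ⟨g1, C1, g2⟩ := mem_SQ.1 (sub_mem (hpS i) (hlS i))
      have g3 : ∀ E : ℝ, (gr fun s => m s i * z i + ∑ j, n s i j * t s j) -
          gr ((fun s => pv (a s i) (y s i)) - fun s => (l s i : ℝ)) ∈
            SR (fun n => (N n : ℝ)) E := by
        intro E
        rw [gr_sub]
        refine small_of_M h1 hε (fun s => ?_) E
        rw [abs_sub_comm]
        refine le_trans (le_of_eq ?_) (e1 s i)
        congr 1
        simp only [Pi.sub_apply]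
        ring
      refine ⟨g1.congr g3, ?_⟩
      have e : (gr fun s => m s i * z i + ∑ j, n s i j * t s j) =
          ((gr fun s => m s i * z i + ∑ j, n s i j * t s j) -
          gr ((fun s => pv (a s i) (y s i)) - fun s => (l s i : ℝ))) +
          gr ((fun s => pv (a s i) (y s i)) - fun s => (l s i : ℝ)) := by ring
      rw [e]
      exact (OO hL).add_mem ⟨0, g3 0⟩ ⟨C1, g2⟩
    refine ⟨fun j => res hL ⟨gr fun s => t s j, hbd _ fun s => t1 s j⟩, μ, ν,
      fun i => hμ2 i fun s => m1 s i, fun i => ?_⟩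
    rw [mem_UR]
    refine ⟨⟨_, (hw i).2⟩, (hw i).1, ?_⟩
    have e2 : (⟨_, (hw i).2⟩ : OO hL) = phi0 hL B (μ i) * kst0 hL (z i) +
        ∑ j, phi0 hL B (ν i j) * ⟨gr fun s => t s j, hbd _ fun s => t1 s j⟩ := by
      apply Subtype.ext
      rw [Subring.coe_add, Subring.coe_mul, AddSubmonoidClass.coe_finsetSum]
      change (gr fun s => m s i * z i + ∑ j, n s i j * t s j) = rho (μ i : GG) * gr (fun _ => z i) +
        ∑ j, rho (ν i j : GG) * gr fun s => t s j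
      rw [hμ1 i]
      simp only [hν1 i]
      have e3 : (fun s => m s i * z i + ∑ j, n s i j * t s j) =
          (fun s => (m s i : ℝ)) * (fun _ => z i) +
          ∑ j : Fin D, (fun s => (n s i j : ℝ)) * (fun s => t s j) := by
        funext s
        simp [Finset.sum_apply]
      have e4 : (gr fun s => m s i * z i + ∑ j, n s i j * t s j) =
        grh (fun s => m s i * z i + ∑ j, n s i j * t s j) := rfl
      rw [e4, e3, map_add, map_mul, map_sum]
      rfl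
    rw [e2, map_add, map_mul, map_sum]
    rfl
  obtain ⟨τ, μ, ν, hμ, hτ⟩ := key b (fun n i s => x n (Sum.inl (i, s))) mm ll nn aa t
    (fun i s => h6 (Sum.inl (i, s))) (fun n i s => h4 n _) a1
  obtain ⟨τ', μ', ν', hμ', hτ'⟩ := key c (fun n i s => x n (Sum.inr (i, s))) mm' ll' nn' aa' t'
    (fun i s => h6 (Sum.inr (i, s))) (fun n i s => h4 n _) a2
  obtain ⟨s, hs, hrel⟩ := rank_rel (ldH (B := B) (hL := hL) (disj B hbc))
    (fun i : I => kst hL (z i)) τ τ' μ μ' hμ hμ' ν ν' hτ hτ'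
  choose X hX0 hX using fun i : I => clearC (B := B) (hL := hL) (fun i : I => z i) s i (hrel i)
  set Y0 : ℝ := ∑ i, X i with hY0
  have hXY : ∀ i, X i ≤ Y0 := fun i =>
    Finset.single_le_sum (f := X) (fun i _ => hX0 i) (Finset.mem_univ i)
  obtain ⟨q, hq, hqz⟩ := common_denominator (fun i : I => z i) s hs Y0
    (Finset.sum_nonneg fun i _ => hX0 i) (by
      intro Y E
      have g1 : ∀ᶠ n in (UU : Filter ℕ), ∀ i : I, ∃ (c d0 : ℤ) (d : s → ℤ), c ≠ 0 ∧
          |(c : ℝ)| ≤ Real.exp (X i * N n) ∧ (∀ j, |(d j : ℝ)| ≤ Real.exp (X i * N n)) ∧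
          |c * z i - (d0 + ∑ j, d j * z j)| ≤ Real.exp (-(E * N n)) := by
        rw [Filter.eventually_all]
        exact fun i => hX i E
      obtain ⟨n, k1, k2, k3⟩ := (g1.and ((ev_of_atTop (hL.eventually_ge_atTop Y)).and
        (L_nonneg hL))).exists
      refine ⟨N n, k2, fun i => ?_⟩
      obtain ⟨c, d0, d, j1, j2, j3, j4⟩ := k1 i
      have hle : Real.exp (X i * N n) ≤ Real.exp (Y0 * N n) :=
        Real.exp_le_exp.2 (mul_le_mul_of_nonneg_right (hXY i) k3)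
      exact ⟨c, d0, d, j1, j2.trans hle, fun j => (j3 j).trans hle, j4⟩) q0
  have hsub : {i : W | ∀ p : ℤ, (q : ℝ) ^ (-(1 / ((2 * D + 1 : ℕ) : ℝ))) ≤ |(q : ℝ) * z i - p|} ⊆
      ((Finset.univ \ I : Finset W) : Set W) := by
    intro i hi
    rw [Finset.mem_coe, Finset.mem_sdiff]
    refine ⟨Finset.mem_univ _, fun hiI => ?_⟩
    obtain ⟨p, hp⟩ := hqz ⟨i, hiI⟩
    exact absurd (hi p) (not_le.2 hp)
  have h7 := Set.ncard_le_ncard hsub (Set.toFinite _)
  rw [Set.ncard_coe_finset] at h7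
  have h8 : (Set.ncard {i : W | ∀ p : ℤ, (q : ℝ) ^ (-(1 / ((2 * D + 1 : ℕ) : ℝ))) ≤
      |(q : ℝ) * z i - p|} : ℝ) ≤ ((Finset.univ \ I).card : ℝ) := by exact_mod_cast h7
  linarith [hk q hq]

end Pool.Agent.Run7.h103.UN
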