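import Mathlib
import Pool.Agent.Run7.h103.UN.Span
import Pool.Agent.Run7.h103.UN.Groups

set_option autoImplicit false
set_option linter.unusedSectionVars false

/-!
# Relations with algebraic coefficients between quotients of predictable numbers
-/

namespace Pool.Agent.Run7.h103.UN

open Filter Topology Pool.Agent.TH932.Abs Pool.Agent.TH932.Germs Pool.Agent.TH932.Chi
open Pool.Agent.TH932.Words Pool.Agent.TH932.Scale Finset
open Pool.Agent.TH796.AL Pool.Agent.TH796.AL.TwoB Pool.Agent.TH796.AL.Ai Pool.Agent.TH796.AL.Grp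
open Pool.Agent.TH796.AL.Final Pool.Agent.TH796.AL.Alg Pool.Agent.Run7.h103.PF
open Pool.Agent.TH796.AL.AlgA Pool.Agent.TH796.AL.Nv

/-- the numbers are quotients of polynomials in numbers with predictable multiples -/
def NearFracN {κ : Type} [Fintype κ] [DecidableEq κ] {s : ℕ} (b : κ → ℕ) (u : κ → ℕ → ℤ) (d : ℕ)
    (A ε : ℝ) (M K : ℕ) (z : Fin s → ℝ) : Prop :=
  ∃ (x : κ → ℝ) (a₀ : (κ → Fin (d + 1)) → ℤ) (a : Fin s → (κ → Fin (d + 1)) → ℤ),
    (∀ i, |x i| ≤ Real.exp (A * (K + 1))) ∧ (∀ i, Near (b i) (u i) A ε M K (x i)) ∧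
    (∀ e, |(a₀ e : ℝ)| ≤ Real.exp (A * (K + 1))) ∧
    (∀ j e, |(a j e : ℝ)| ≤ Real.exp (A * (K + 1))) ∧
    Real.exp (-(A * (K + 1))) ≤ |pv a₀ x| ∧
    ∀ j, |pv a₀ x * z j - pv (a j) x| ≤ Real.exp (-(ε * M))

/-- cancelling a nonzero element -/
lemma cancel_rel {F : Type} [Field F] {s : ℕ} (c y z : Fin s → F) {y₀ : F} (hy₀ : y₀ ≠ 0)
    (e : ∀ j, y₀ * z j = y j) (h : ∑ j, c j * y j = 0) : ∑ j, c j * z j = 0 := by
  have e4 : y₀ * ∑ j, c j * z j = 0 := by
    rw [Finset.mul_sum, ← h]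
    refine Finset.sum_congr rfl fun j _ => ?_
    rw [← e j]
    ring
  exact (mul_eq_zero.1 e4).resolve_left hy₀

/-- **Relations with algebraic coefficients.** -/
theorem alg_rel_fixed {l s : ℕ} (β : Fin l → ℝ) (halg : ∀ i, IsAlgebraic ℚ (β i))
    (hβ : LinearIndependent ℚ β) {z : Fin s → ℝ} (hz : LinearMeasure z) {κ : Type} [Fintype κ]
    [DecidableEq κ] (b : κ → ℕ) (hb : ∀ i, 2 ≤ b i) (u : κ → ℕ → ℤ) {C : ℝ}
    (hu : ∀ i, Simple (b i) C (u i)) (d : ℕ) (A : ℝ) {ε : ℝ} (hε : 0 < ε) (i0 : Fin l)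
    (j0 : Fin s) :
    ∃ R : ℕ, ∀ M K : ℕ, R * (K + 1) ≤ M → NearFracN b u d A ε M K z → ∀ c : Fin l → Fin s → ℤ,
      c i0 j0 ≠ 0 → (∀ i j, |(c i j : ℝ)| ≤ Real.exp (A * (K + 1))) →
      Real.exp (-(ε * M)) < |∑ i, β i * ∑ j, (c i j : ℝ) * z j| := by
  classical
  by_contra hcon
  push Not at hcon
  obtain ⟨m, B, N, hL, M, K, x, h1, h2, h3, h4, h5, h6⟩ := keyN b hb u hu A hε
    (fun M K x => ∃ (a₀ : (κ → Fin (d + 1)) → ℤ) (a : Fin s → (κ → Fin (d + 1)) → ℤ)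
      (c : Fin l → Fin s → ℤ), (∀ e, |(a₀ e : ℝ)| ≤ Real.exp (A * (K + 1))) ∧
      (∀ j e, |(a j e : ℝ)| ≤ Real.exp (A * (K + 1))) ∧
      Real.exp (-(A * (K + 1))) ≤ |pv a₀ x| ∧
      (∀ j, |pv a₀ x * z j - pv (a j) x| ≤ Real.exp (-(ε * M))) ∧ c i0 j0 ≠ 0 ∧
      (∀ i j, |(c i j : ℝ)| ≤ Real.exp (A * (K + 1))) ∧
      |∑ i, β i * ∑ j, (c i j : ℝ) * z j| ≤ Real.exp (-(ε * M))) (by
      intro R
      obtain ⟨M, K, hMK, ⟨x, a₀, a, p1, p2, p3, p4, p5, p6⟩, c, q1, q2, q3⟩ := hcon R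
      exact ⟨M, K, x, hMK, p2, p1, a₀, a, c, p3, p4, p5, p6, q1, q2, q3⟩)
  choose a0 a1 c r0 r1 s1 t1 q1 q2 q3 using h5
  have hx1 : ∀ i, RepH B hL (⊤ : Submodule ℝ (Fin m → ℝ)) (gr fun n => x n i) := fun i =>
    RepH.mono le_top (h6 i)
  have hS0 : (fun n => pv (a0 n) (x n)) ∈ SQ B hL (⊤ : Submodule ℝ (Fin m → ℝ)) :=
    pv_SQ (K := K) h2 h3 x hx1 h4 a0 r0
  have hS1 : ∀ j, (fun n => pv (a1 n j) (x n)) ∈ SQ B hL (⊤ : Submodule ℝ (Fin m → ℝ)) :=
    fun j => pv_SQ (K := K) h2 h3 x hx1 h4 (fun n => a1 n j) fun n => r1 n j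
  set Y0 : OO hL := ⟨gr fun n => pv (a0 n) (x n), (mem_SQ.1 hS0).2⟩ with hY0
  set Y : Fin s → OO hL := fun j => ⟨gr fun n => pv (a1 n j) (x n), (mem_SQ.1 (hS1 j)).2⟩ with hY
  have hY0n : res hL Y0 ≠ 0 := by
    intro h0
    refine not_negl (s := 1) (f := fun n _ => pv (a0 n) (x n)) h3 h2 A
      (fun n => ⟨0, s1 n⟩) fun _ => (res_eq_zero hL).1 h0 1
  have hYd : ∀ j, ∀ E : ℝ, gr (fun n => pv (a0 n) (x n) * z j - pv (a1 n j) (x n)) ∈
      SR (fun n => (N n : ℝ)) E := fun j E => small_of_M h1 hε (fun n => t1 n j) E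
  have hYe : ∀ j, res hL Y0 * kst hL (z j) = res hL (Y j) := by
    intro j
    rw [← sub_eq_zero]
    have e1 : res hL Y0 * kst hL (z j) - res hL (Y j) =
        res hL (Y0 * kst0 hL (z j) - Y j) := by
      rw [map_sub, map_mul]
      rfl
    rw [e1, res_eq_zero]
    exact hYd j
  -- the integer germs
  choose μ hμ1 hμ2 using fun i j => int_RG (B := B) (hL := hL) (fun n => c n i j)
    (negl_of_small h3 h2 A fun n => q2 n i j)
  have hcS : ∀ i j, (fun n => (c n i j : ℝ)) ∈ SQ B hL (⊤ : Submodule ℝ (Fin m → ℝ)) :=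
    fun i j => by
      refine mem_SQ.2 ⟨?_, 0, bdd_of_small h3 h2 A fun n => q2 n i j⟩
      have := repH_int B hL (⊤ : Submodule ℝ (Fin m → ℝ)) (q := fun n => (c n i j : ℚ))
        (d := fun _ => 1) (Negl.one hL) (fun n => c n i j)
        (negl_of_small h3 h2 A fun n => q2 n i j) (fun n => one_ne_zero) (fun n => by simp)
      simpa using this
  set f : Fin l → ℕ → ℝ := fun i => ∑ j, (fun n => (c n i j : ℝ)) * fun n => pv (a1 n j) (x n)
    with hf
  have hfS : ∀ i, f i ∈ SQ B hL (⊤ : Submodule ℝ (Fin m → ℝ)) := fun i =>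
    sum_mem fun j _ => mul_mem (hcS i j) (hS1 j)
  -- the relation
  have hsmall : ∀ E : ℝ, ∑ i, algebraMap ℝ HR (β i) * gr (f i) ∈ SR (fun n => (N n : ℝ)) E := by
    intro E
    have e1 : ∑ i, algebraMap ℝ HR (β i) * gr (f i) =
        gr (fun n => pv (a0 n) (x n)) * gr (fun n => ∑ i, β i * ∑ j, (c n i j : ℝ) * z j) -
        ∑ i, ∑ j, algebraMap ℝ HR (β i) * gr (fun n => (c n i j : ℝ)) *
          gr (fun n => pv (a0 n) (x n) * z j - pv (a1 n j) (x n)) := by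
      have e2 : ∀ i, algebraMap ℝ HR (β i) * gr (f i) = grh ((fun _ => β i) * f i) := fun i => by
        rw [map_mul]
        rfl
      have e3 : ∀ i j, algebraMap ℝ HR (β i) * gr (fun n => (c n i j : ℝ)) *
          gr (fun n => pv (a0 n) (x n) * z j - pv (a1 n j) (x n)) =
          grh ((fun _ => β i) * (fun n => (c n i j : ℝ)) *
            fun n => pv (a0 n) (x n) * z j - pv (a1 n j) (x n)) := fun i j => by
        rw [map_mul, map_mul]
        rfl
      have e4 : gr (fun n => pv (a0 n) (x n)) *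
          gr (fun n => ∑ i, β i * ∑ j, (c n i j : ℝ) * z j) =
          grh ((fun n => pv (a0 n) (x n)) * fun n => ∑ i, β i * ∑ j, (c n i j : ℝ) * z j) := by
        rw [map_mul]
        rfl
      rw [Finset.sum_congr rfl fun i _ => e2 i, e4,
        Finset.sum_congr rfl fun i _ => Finset.sum_congr rfl fun j _ => e3 i j]
      simp only [← map_sum]
      rw [← map_sub]
      congr 1
      funext n
      simp only [hf, Finset.sum_apply, Pi.mul_apply, Pi.sub_apply]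
      rw [Finset.mul_sum, ← Finset.sum_sub_distrib]
      refine Finset.sum_congr rfl fun i _ => ?_
      rw [Finset.mul_sum, Finset.mul_sum, Finset.mul_sum, ← Finset.sum_sub_distrib]
      exact Finset.sum_congr rfl fun j _ => by ring
    rw [e1]
    rw [sub_eq_add_neg]
    refine SR_add hL ?_ (SR_neg hL ?_)
    · obtain ⟨C0, hC0⟩ := (mem_SQ.1 hS0).2
      have g1 := SR_mul hL hC0 (small_of_M h1 hε q3 (E - C0))
      rwa [add_sub_cancel] at g1
    · refine SR_sum hL _ _ fun i _ => SR_sum hL _ _ fun j _ => ?_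
      have g1 := SR_mul hL (SR_mul hL (SR_cst hL (β i))
        (bdd_of_small h3 h2 A fun n => q2 n i j)) (hYd j E)
      rwa [add_zero, zero_add] at g1
  have hzero : ∀ i, ∑ j, algebraMap (RG hL B) (FF hL) (μ i j) * res hL (Y j) = 0 := by
    intro i
    have g1 := lindisjH halg hβ (fun i => gr (f i)) (fun i => (mem_SQ.1 (hfS i)).1) hsmall i
    have e1 : ∑ j, algebraMap (RG hL B) (FF hL) (μ i j) * res hL (Y j) =
        res hL (∑ j, phi0 hL B (μ i j) * Y j) := by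
      rw [map_sum]
      exact Finset.sum_congr rfl fun j _ => by rw [map_mul]; rfl
    rw [e1, res_eq_zero]
    intro E
    have e2 : ((∑ j, phi0 hL B (μ i j) * Y j : OO hL) : HR) = gr (f i) := by
      rw [AddSubmonoidClass.coe_finsetSum]
      have e3 : gr (f i) = grh (f i) := rfl
      rw [e3, hf]
      simp only []
      rw [map_sum]
      refine Finset.sum_congr rfl fun j _ => ?_
      rw [map_mul]
      change rho (μ i j : GG) * _ = _
      rw [hμ1 i j]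
      rfl
    rw [e2]
    exact g1 E
  have h7 := cancel_rel (fun j => algebraMap (RG hL B) (FF hL) (μ i0 j)) (fun j => res hL (Y j))
    (fun j => kst hL (z j)) hY0n hYe (hzero i0)
  exact hμ2 i0 j0 q1 (indep_RG hz (μ i0) h7 j0)

end Pool.Agent.Run7.h103.UN
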