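import Mathlib
import Pool.Agent.Run7.h103.UN.AlgRel

set_option autoImplicit false
set_option linter.unusedSectionVars false

/-!
# Two groups of bases: predictable multiples, and one real number in all bases but one
-/

namespace Pool.Agent.Run7.h103.UN

open Filter Topology Pool.Agent.TH932.Abs Pool.Agent.TH932.Germs Pool.Agent.TH932.Chi
open Pool.Agent.TH932.Words Pool.Agent.TH932.Scale Finset
open Pool.Agent.TH796.AL Pool.Agent.TH796.AL.TwoB Pool.Agent.TH796.AL.Ai Pool.Agent.TH796.AL.Grp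
open Pool.Agent.TH796.AL.Final Pool.Agent.TH796.AL.Alg Pool.Agent.Run7.h103.PF
open Pool.Agent.TH796.AL.AlgA Pool.Agent.TH796.AL.Nv

/-- a relation with coefficients which are polynomials in numbers with predictable multiples -/
def NearRelN {κ : Type} [Fintype κ] [DecidableEq κ] {s : ℕ} (b : κ → ℕ) (u : κ → ℕ → ℤ) (d : ℕ)
    (A ε : ℝ) (M K : ℕ) (z : Fin s → ℝ) : Prop :=
  ∃ (x : κ → ℝ) (a : Fin s → (κ → Fin (d + 1)) → ℤ), (∀ i, |x i| ≤ Real.exp (A * (K + 1))) ∧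
    (∀ i, Near (b i) (u i) A ε M K (x i)) ∧
    (∀ j e, |(a j e : ℝ)| ≤ Real.exp (A * (K + 1))) ∧
    (∃ j, Real.exp (-(A * (K + 1))) ≤ |pv (a j) x|) ∧
    |∑ j, pv (a j) x * z j| ≤ Real.exp (-(ε * M))

/-- **Two groups of bases**, for numbers with predictable multiples. -/
theorem two_groupsN {κ₁ κ₂ : Type} [Fintype κ₁] [DecidableEq κ₁] [Fintype κ₂] [DecidableEq κ₂]
    (b₁ : κ₁ → ℕ) (b₂ : κ₂ → ℕ) (hb₁ : ∀ i, 2 ≤ b₁ i) (hb₂ : ∀ i, 2 ≤ b₂ i)
    (hG : GA (Set.range b₁) ⊓ GA (Set.range b₂) = ⊥) (u₁ : κ₁ → ℕ → ℤ) (u₂ : κ₂ → ℕ → ℤ)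
    {C : ℝ} (hu₁ : ∀ i, Simple (b₁ i) C (u₁ i)) (hu₂ : ∀ i, Simple (b₂ i) C (u₂ i)) {s : ℕ}
    {z : Fin s → ℝ} (hz : LinearMeasure z) (d : ℕ) (A : ℝ) {ε : ℝ} (hε : 0 < ε) :
    ∃ R : ℕ, ∀ M K : ℕ, R * (K + 1) ≤ M → NearFracN b₁ u₁ d A ε M K z →
      NearRelN b₂ u₂ d A ε M K z → False := by
  classical
  by_contra hcon
  push Not at hcon
  obtain ⟨m, B, N, hL, M, K, x, h1, h2, h3, h4, h5, h6⟩ := keyN (ι := κ₁ ⊕ κ₂)
    (Sum.elim b₁ b₂) (by rintro (i | i); exacts [hb₁ i, hb₂ i])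
    (Sum.elim u₁ u₂) (C := C) (by rintro (i | i); exacts [hu₁ i, hu₂ i]) A hε
    (fun M K x => (∃ (a₀ : (κ₁ → Fin (d + 1)) → ℤ) (a : Fin s → (κ₁ → Fin (d + 1)) → ℤ),
      (∀ e, |(a₀ e : ℝ)| ≤ Real.exp (A * (K + 1))) ∧
      (∀ j e, |(a j e : ℝ)| ≤ Real.exp (A * (K + 1))) ∧
      Real.exp (-(A * (K + 1))) ≤ |pv a₀ (fun i => x (Sum.inl i))| ∧
      ∀ j, |pv a₀ (fun i => x (Sum.inl i)) * z j - pv (a j) (fun i => x (Sum.inl i))| ≤
        Real.exp (-(ε * M))) ∧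
      (∃ a : Fin s → (κ₂ → Fin (d + 1)) → ℤ,
      (∀ j e, |(a j e : ℝ)| ≤ Real.exp (A * (K + 1))) ∧
      (∃ j, Real.exp (-(A * (K + 1))) ≤ |pv (a j) (fun i => x (Sum.inr i))|) ∧
      |∑ j, pv (a j) (fun i => x (Sum.inr i)) * z j| ≤ Real.exp (-(ε * M)))) (by
      intro R
      obtain ⟨M, K, hMK, ⟨x1, a0, a1, p1, q1, r0, r1, s1, t1⟩, ⟨x2, a2, p2, q2, r2, s2, t2⟩, -⟩ :=
        hcon R
      refine ⟨M, K, Sum.elim x1 x2, hMK, ?_, ?_, ⟨a0, a1, r0, r1, s1, t1⟩, ⟨a2, r2, s2, t2⟩⟩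
      · rintro (i | i)
        exacts [q1 i, q2 i]
      · rintro (i | i)
        exacts [p1 i, p2 i])
  choose a0 a1 r0 r1 s1 t1 using fun n => (h5 n).1
  choose a2 r2 s2 t2 using fun n => (h5 n).2
  obtain ⟨q, q1, q2, q3⟩ := rel_of (B := B) (hL := hL) (V := VS B (GA (Set.range b₂))) h1 h2 h3 hε
    (fun n i => x n (Sum.inr i))
    (fun i => RepH.mono (VS_mono B (GA_range b₂ i)) (h6 (Sum.inr i)))
    (fun n i => h4 n _) a2 r2 s2 t2
  -- the fractions
  have hx1 : ∀ i : κ₁, RepH B hL (VS B (GA (Set.range b₁))) (gr fun n => x n (Sum.inl i)) :=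
    fun i => RepH.mono (VS_mono B (GA_range b₁ i)) (h6 (Sum.inl i))
  have hS0 : (fun n => pv (a0 n) (fun i => x n (Sum.inl i))) ∈
      SQ B hL (VS B (GA (Set.range b₁))) :=
    pv_SQ (K := K) h2 h3 (fun n i => x n (Sum.inl i)) hx1 (fun n i => h4 n _) a0 r0
  have hS1 : ∀ j, (fun n => pv (a1 n j) (fun i => x n (Sum.inl i))) ∈
      SQ B hL (VS B (GA (Set.range b₁))) := fun j =>
    pv_SQ (K := K) h2 h3 (fun n i => x n (Sum.inl i)) hx1 (fun n i => h4 n _) (fun n => a1 n j)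
      fun n => r1 n j
  set Y0 : OO hL := ⟨gr fun n => pv (a0 n) (fun i => x n (Sum.inl i)), (mem_SQ.1 hS0).2⟩ with hY0
  set Y : Fin s → OO hL := fun j =>
    ⟨gr fun n => pv (a1 n j) (fun i => x n (Sum.inl i)), (mem_SQ.1 (hS1 j)).2⟩ with hY
  have hY0n : res hL Y0 ≠ 0 := by
    intro h0
    refine not_negl (s := 1) (f := fun n _ => pv (a0 n) (fun i => x n (Sum.inl i))) h3 h2 A
      (fun n => ⟨0, s1 n⟩) fun _ => (res_eq_zero hL).1 h0 1
  have hYe : ∀ j, res hL Y0 * kst hL (z j) = res hL (Y j) := by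
    intro j
    rw [← sub_eq_zero]
    have e1 : res hL Y0 * kst hL (z j) - res hL (Y j) =
        res hL (Y0 * kst0 hL (z j) - Y j) := by
      rw [map_sub, map_mul]
      rfl
    rw [e1, res_eq_zero]
    have e2 : ((Y0 * kst0 hL (z j) - Y j : OO hL) : HR) =
        gr fun n => pv (a0 n) (fun i => x n (Sum.inl i)) * z j -
          pv (a1 n j) (fun i => x n (Sum.inl i)) := rfl
    rw [e2]
    exact small_of_M h1 hε fun n => t1 n j
  let _ : Algebra (FractionRing (RG hL B)) (FF hL) := FractionRing.liftAlgebra (RG hL B) (FF hL)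
  have : IsScalarTower (RG hL B) (FractionRing (RG hL B)) (FF hL) :=
    FractionRing.isScalarTower_liftAlgebra (RG hL B) (FF hL)
  obtain ⟨j0, hj0⟩ := q2
  exact hj0 (two_rel_frac (span_disjoint (FractionRing (RG hL B))
    (ldH (B := B) (hL := hL) (disj B hG))).symm q (fun j => res hL (Y j)) (fun j => kst hL (z j))
    hY0n (fun j => Submodule.subset_span (q1 j))
    (fun j => Submodule.subset_span (mem_UR.2 ⟨Y j, (mem_SQ.1 (hS1 j)).1, rfl⟩)) hYe
    (fun v hv i => indep_k (B := B) (hL := hL) hz (FractionRing (RG hL B)) v hv i) q3 j0)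

/-- **One real number with an irrationality measure, over the numbers with predictable multiples, in
all bases but one.** -/
theorem one_real (F : Finset ℕ) (hF2 : ∀ b ∈ F, 2 ≤ b)
    (hF : ∀ b ∈ F, ∀ c ∈ F, b ≠ c → Independent b c) {k : ℕ} (u : ℕ → Fin k → ℕ → ℤ) {C : ℝ}
    (hu : ∀ b ∈ F, ∀ i, SimpleWord b C (u b i)) {z : ℝ} (hz : LinearMeasure ![1, z]) (d : ℕ)
    (A : ℝ) {ε : ℝ} (hε : 0 < ε) :
    ∃ R : ℕ, 1 ≤ R ∧ ∀ M K : ℕ, R * (K + 1) ≤ M → ∃ c : ℕ, ∀ b ∈ F, b ≠ c →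
      ∀ (x : Fin k → ℝ) (p₀ p₁ : (Fin k → Fin (d + 1)) → ℤ),
        (∀ i, PredictableMultiple b (u b i) A ε M K (x i)) →
        (∀ i, |x i| ≤ Real.exp (A * (K + 1))) → SmallCoeff A K p₀ → SmallCoeff A K p₁ →
        Real.exp (-(A * (K + 1))) ≤ max |value p₀ x| |value p₁ x| →
        Real.exp (-(ε * M)) < |value p₀ x + value p₁ x * z| := by
  classical
  set A' : ℝ := |A| + |2 * (|z| + 1)| with hA'
  have hz0 := abs_nonneg z
  have hAA' : A ≤ A' := by
    have := le_abs_self A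
    have := abs_nonneg (2 * (|z| + 1))
    linarith
  have hG : ∀ b : ℕ, GA (Set.range fun _ : Fin k => b) ≤ GA {b} := by
    intro b
    refine Subgroup.closure_mono ?_
    rintro v ⟨c, ⟨_, rfl⟩, hv⟩
    exact ⟨_, rfl, hv⟩
  have h1 : ∀ p : F × F, ∃ R : ℕ, (p.1 : ℕ) ≠ p.2 → ∀ M K : ℕ, R * (K + 1) ≤ M →
      NearFracN (fun _ : Fin k => (p.1 : ℕ)) (u p.1) d A' ε M K ![1, z] →
      NearRelN (fun _ : Fin k => (p.2 : ℕ)) (u p.2) d A' ε M K ![1, z] → False := by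
    intro p
    by_cases hp : (p.1 : ℕ) = p.2
    · exact ⟨0, fun h => absurd hp h⟩
    · obtain ⟨R, hR⟩ := two_groupsN (fun _ : Fin k => (p.1 : ℕ)) (fun _ : Fin k => (p.2 : ℕ))
        (fun _ => hF2 _ p.1.2) (fun _ => hF2 _ p.2.2)
        (le_bot_iff.1 ((inf_le_inf (hG _) (hG _)).trans
          (Pool.Agent.TH796.AL.Ai.group_inf (hF2 _ p.1.2) (hF2 _ p.2.2)
            (hF _ p.1.2 _ p.2.2 hp)).le))
        (u p.1) (u p.2) (fun i => simple_of (hu _ p.1.2 i)) (fun i => simple_of (hu _ p.2.2 i))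
        hz d A' hε
      exact ⟨R, fun _ => hR⟩
  choose R hR using h1
  obtain ⟨R0, hR0⟩ := exists_nat_ge ((|A| + 1) / ε)
  refine ⟨∑ p, R p + (R0 + 1), by omega, fun M K hMK => ?_⟩
  have hRp : ∀ p, R p * (K + 1) ≤ M := fun p => le_trans (Nat.mul_le_mul_right _
    ((Finset.single_le_sum (f := R) (fun _ _ => Nat.zero_le _) (Finset.mem_univ p)).trans
      (Nat.le_add_right _ _))) hMK
  have hlog := log_nonneg_of (by omega : 1 ≤ ∑ p, R p + (R0 + 1)) hMK
  have hMK0 : R0 * (K + 1) ≤ M := le_trans (Nat.mul_le_mul_right _ (by omega)) hMK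
  have hsm : Real.exp (-(ε * M)) ≤ Real.exp (-(A * (K + 1))) / 2 := by
    have h2 : (R0 : ℝ) * (K + 1) ≤ M := by exact_mod_cast hMK0
    have h3 : |A| + 1 ≤ ε * R0 := by
      rw [div_le_iff₀ hε] at hR0
      linarith
    have h4 : (|A| + 1) * ((K : ℝ) + 1) ≤ ε * M := by
      calc (|A| + 1) * ((K : ℝ) + 1) ≤ ε * R0 * (K + 1) := by gcongr
        _ = ε * (R0 * (K + 1)) := by ring
        _ ≤ ε * M := by gcongr
    have h5 : A * ((K : ℝ) + 1) + 1 ≤ ε * M := by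
      have g1 : A * ((K : ℝ) + 1) ≤ |A| * (K + 1) := by
        gcongr
        exact le_abs_self A
      have g2 : (0 : ℝ) ≤ K := Nat.cast_nonneg K
      nlinarith
    have h6 : Real.exp (-(ε * M)) ≤ Real.exp (-(A * (K + 1))) * Real.exp (-1) := by
      rw [← Real.exp_add, Real.exp_le_exp]
      linarith
    have h7 : Real.exp (-1) ≤ 1 / 2 := by
      rw [Real.exp_neg, ← one_div]
      exact one_div_le_one_div_of_le (by norm_num) (by
        have := Real.add_one_le_exp (1 : ℝ)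
        linarith)
    have h8 := (Real.exp_pos (-(A * ((K : ℝ) + 1)))).le
    nlinarith
  set Bad : ℕ → Prop := fun b => ∃ (x : Fin k → ℝ) (p₀ p₁ : (Fin k → Fin (d + 1)) → ℤ),
    (∀ i, PredictableMultiple b (u b i) A ε M K (x i)) ∧
    (∀ i, |x i| ≤ Real.exp (A * (K + 1))) ∧ SmallCoeff A K p₀ ∧ SmallCoeff A K p₁ ∧
    Real.exp (-(A * (K + 1))) ≤ max |value p₀ x| |value p₁ x| ∧
    |value p₀ x + value p₁ x * z| ≤ Real.exp (-(ε * M)) with hBad
  have hup := exp_mono hAA' K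
  have hdown : Real.exp (-(A' * (K + 1))) ≤ Real.exp (-(A * (K + 1))) := by
    rw [Real.exp_le_exp]
    have : A * ((K : ℝ) + 1) ≤ A' * (K + 1) := by gcongr
    linarith
  have bad_rel : ∀ b, Bad b → NearRelN (fun _ : Fin k => b) (u b) d A' ε M K ![1, z] := by
    rintro b ⟨x, p₀, p₁, g1, g2, g3, g4, g5, g6⟩
    refine ⟨x, ![p₀, p₁], fun i => (g2 i).trans hup, fun i => near_of ((g1 i).mono_A hAA' hlog),
      fun j => ?_, ?_, ?_⟩
    · fin_cases j
      · exact fun e => (g3 e).trans hup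
      · exact fun e => (g4 e).trans hup
    · rcases le_max_iff.1 g5 with h | h
      · exact ⟨0, hdown.trans h⟩
      · exact ⟨1, hdown.trans h⟩
    · rw [Fin.sum_univ_two]
      change |value p₀ x * 1 + value p₁ x * z| ≤ _
      rwa [mul_one]
  have bad_frac : ∀ b, Bad b → NearFracN (fun _ : Fin k => b) (u b) d A' ε M K ![1, z] := by
    rintro b ⟨x, p₀, p₁, g1, g2, g3, g4, g5, g6⟩
    refine ⟨x, p₁, ![p₁, -p₀], fun i => (g2 i).trans hup,
      fun i => near_of ((g1 i).mono_A hAA' hlog), fun e => (g4 e).trans hup, fun j => ?_, ?_, ?_⟩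
    · fin_cases j
      · exact fun e => (g4 e).trans hup
      · intro e
        change |((-p₀ e : ℤ) : ℝ)| ≤ _
        rw [Int.cast_neg, abs_neg]
        exact (g3 e).trans hup
    · change _ ≤ |value p₁ x|
      have h2 : Real.exp (-(A * (K + 1))) / 2 ≤ |value p₁ x| * (|z| + 1) := by
        have h8 := (Real.exp_pos (-(A * ((K : ℝ) + 1)))).le
        have h9 := abs_nonneg (value p₁ x)
        rcases le_max_iff.1 g5 with h | h
        · have h3 : |value p₀ x| ≤ |value p₀ x + value p₁ x * z| + |value p₁ x| * |z| := by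
            rw [← abs_mul]
            have := abs_sub (value p₀ x + value p₁ x * z) (value p₁ x * z)
            rwa [add_sub_cancel_right] at this
          nlinarith
        · nlinarith
      have h3 := exp_const (c := 2 * (|z| + 1)) |A| K
      have h4 : (0 : ℝ) < 2 * (|z| + 1) := by positivity
      have h5 : Real.exp (A * (K + 1)) ≤ Real.exp (|A| * (K + 1)) := exp_mono (le_abs_self A) K
      have h6 : 2 * (|z| + 1) * Real.exp (A * (K + 1)) ≤ Real.exp (A' * (K + 1)) :=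
        (mul_le_mul_of_nonneg_left h5 h4.le).trans h3
      rw [Real.exp_neg]
      rw [Real.exp_neg] at h2
      have h7 : (Real.exp (A' * (K + 1)))⁻¹ ≤ (2 * (|z| + 1) * Real.exp (A * (K + 1)))⁻¹ :=
        inv_anti₀ (by positivity) h6
      refine h7.trans ?_
      rw [mul_inv, mul_inv]
      have h8 : (0 : ℝ) < |z| + 1 := by positivity
      have h9 : (|z| + 1)⁻¹ * ((Real.exp (A * (K + 1)))⁻¹ / 2) ≤
          (|z| + 1)⁻¹ * (|value p₁ x| * (|z| + 1)) := by gcongr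
      have e1 : (|z| + 1)⁻¹ * (|value p₁ x| * (|z| + 1)) = |value p₁ x| := by
        field_simp
      rw [e1] at h9
      refine le_trans (le_of_eq ?_) h9
      ring
    · intro j
      fin_cases j
      · change |value p₁ x * 1 - value p₁ x| ≤ _
        rw [mul_one, sub_self, abs_zero]
        exact (Real.exp_pos _).le
      · change |value p₁ x * z - value (-p₀) x| ≤ _
        have e1 : value (-p₀) x = -value p₀ x := by
          have := value_add (-p₀) p₀ x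
          rw [neg_add_cancel, value_zero] at this
          linarith
        rw [e1, sub_neg_eq_add, add_comm]
        exact g6
  by_cases hex : ∃ c ∈ F, Bad c
  · obtain ⟨c, hc, hcb⟩ := hex
    refine ⟨c, fun b hb hbc x p₀ p₁ g1 g2 g3 g4 g5 => ?_⟩
    by_contra hcon
    exact hR (⟨b, hb⟩, ⟨c, hc⟩) hbc M K (hRp _)
      (bad_frac b ⟨x, p₀, p₁, g1, g2, g3, g4, g5, not_lt.1 hcon⟩) (bad_rel c hcb)
  · refine ⟨0, fun b hb _ x p₀ p₁ g1 g2 g3 g4 g5 => ?_⟩
    by_contra hcon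
    exact hex ⟨b, hb, x, p₀, p₁, g1, g2, g3, g4, g5, not_lt.1 hcon⟩

end Pool.Agent.Run7.h103.UN
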