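import Mathlib
import Pool.Agent.Run7.h103.UN.Groups
import Pool.Agent.Run7.h103.PF.Meas

set_option autoImplicit false

/-!
# A measure of linear independence for `1, π² / 6, π⁴ / 36`
-/

namespace Pool.Agent.Run7.h103.UN

open Polynomial Pool.Agent.Run7.h103.PF

/-- `1, π² / 6, π⁴ / 36` -/
theorem measure_pi_pow {z : ℝ} (hz : z = Real.pi ^ 2 / 6) : LinearMeasure ![1, z, z ^ 2] := by
  obtain ⟨w, c, hc, h⟩ := poly_meas (z := Real.pi) (Or.inr (Or.inl rfl)) 4
  obtain ⟨Q, hQ⟩ := exists_nat_ge (36 / c + 1)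
  refine ⟨2 * w + 1, max Q 36, fun a ha H hH haH => ?_⟩
  have hH36 : (36 : ℝ) ≤ H := by exact_mod_cast (le_max_right _ _).trans hH
  have hHQ : 36 / c + 1 ≤ (H : ℝ) := hQ.trans (by exact_mod_cast (le_max_left _ _).trans hH)
  have hcH : 36 < c * H := by
    have h1 : 36 / c < H := by linarith
    rw [div_lt_iff₀ hc] at h1
    linarith
  have hab : ∀ j, |(a j : ℝ)| ≤ H := fun j => by
    rw [← Int.cast_abs]
    exact_mod_cast haH j
  have b0 : |((36 * a 0 : ℤ) : ℝ)| ≤ 36 * H := by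
    push_cast
    rw [abs_mul, abs_of_pos (by norm_num : (0 : ℝ) < 36)]
    linarith [hab 0]
  have b1 : |((6 * a 1 : ℤ) : ℝ)| ≤ 36 * H := by
    push_cast
    rw [abs_mul, abs_of_pos (by norm_num : (0 : ℝ) < 6)]
    linarith [hab 1, abs_nonneg (a 1 : ℝ)]
  have b2 : |(a 2 : ℝ)| ≤ 36 * H := by linarith [hab 2, abs_nonneg (a 2 : ℝ)]
  have h1 := h (C (36 * a 0) + C (6 * a 1) * X ^ 2 + C (a 2) * X ^ 4) (by
    intro h0
    have e0 := congrArg (fun P : ℤ[X] => P.coeff 0) h0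
    have e2 := congrArg (fun P : ℤ[X] => P.coeff 2) h0
    have e4 := congrArg (fun P : ℤ[X] => P.coeff 4) h0
    simp only [coeff_add, coeff_C, coeff_C_mul, coeff_X_pow, coeff_zero] at e0 e2 e4
    norm_num at e0 e2 e4
    apply ha
    funext j
    fin_cases j
    · exact e0
    · exact e2
    · exact e4) (by compute_degree) (36 * H) (by linarith) (by
    intro j
    simp only [coeff_add, coeff_C, coeff_C_mul, coeff_X_pow]
    rcases j with _ | _ | _ | _ | _ | j
    · simpa using b0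
    · simp
    · simpa using b1
    · simp
    · simpa using b2
    · simp)
  have h2 : aeval Real.pi (C (36 * a 0) + C (6 * a 1) * X ^ 2 + C (a 2) * X ^ 4 : ℤ[X]) =
      36 * ∑ j, (a j : ℝ) * (![1, z, z ^ 2] : Fin 3 → ℝ) j := by
    rw [Fin.sum_univ_three]
    simp only [Matrix.cons_val_zero, Matrix.cons_val_one, Matrix.cons_val, mul_one, hz]
    simp only [map_add, map_mul, map_pow, aeval_X, eq_intCast, map_intCast]
    push_cast
    ring
  rw [h2, abs_mul, abs_of_pos (by norm_num : (0 : ℝ) < 36)] at h1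
  set T : ℝ := |∑ j, (a j : ℝ) * (![1, z, z ^ 2] : Fin 3 → ℝ) j| with hT
  have hT0 : 0 ≤ T := abs_nonneg _
  have h3 : (36 * (H : ℝ)) ^ w ≤ (H : ℝ) ^ (2 * w) := by
    rw [pow_mul]
    have : 36 * (H : ℝ) ≤ (H : ℝ) ^ 2 := by nlinarith
    gcongr
  have h4 : c ≤ 36 * (T * (H : ℝ) ^ (2 * w)) := by
    refine h1.trans ?_
    have : (36 * (H : ℝ)) ^ w * (36 * T) ≤ (H : ℝ) ^ (2 * w) * (36 * T) := by gcongr
    linarith
  have h5 : c * H ≤ 36 * (T * (H : ℝ) ^ (2 * w + 1)) := by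
    rw [pow_succ]
    have := mul_le_mul_of_nonneg_right h4 (by linarith : (0 : ℝ) ≤ H)
    linarith
  linarith

end Pool.Agent.Run7.h103.UN
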