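import Mathlib
import Pool.Agent.Run7.h103.UN.Near

set_option autoImplicit false
set_option linter.unusedSectionVars false

/-!
# Algebraic numbers over the numbers with predictable multiples
-/

namespace Pool.Agent.Run7.h103.UN

open Filter Topology Pool.Agent.TH932.Abs Pool.Agent.TH932.Germs Pool.Agent.TH932.Chi
open Pool.Agent.TH932.Words Pool.Agent.TH932.Scale Finset
open Pool.Agent.TH796.AL Pool.Agent.TH796.AL.TwoB Pool.Agent.TH796.AL.Ai Pool.Agent.TH796.AL.Grp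
open Pool.Agent.TH796.AL.Final Pool.Agent.TH796.AL.Alg Pool.Agent.Run7.h103.PF
open Pool.Agent.TH796.AL.AlgA

/-- **Combinations of algebraic numbers with coefficients in numbers with predictable multiples.** -/
theorem rothN {s : ℕ} (β : Fin s → ℝ) (halg : ∀ l, IsAlgebraic ℚ (β l))
    (hβ : LinearIndependent ℚ β) {κ : Type} [Fintype κ] [DecidableEq κ] (b : κ → ℕ)
    (hb : ∀ i, 2 ≤ b i) (u : κ → ℕ → ℤ) {C : ℝ} (hu : ∀ i, Simple (b i) C (u i))
    (d : ℕ) (A : ℝ) {ε : ℝ} (hε : 0 < ε) :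
    ∃ R : ℕ, ∀ M K : ℕ, R * (K + 1) ≤ M → ∀ (x : κ → ℝ) (a : Fin s → (κ → Fin (d + 1)) → ℤ),
      (∀ i, Near (b i) (u i) A ε M K (x i)) →
      (∀ i, |x i| ≤ Real.exp (A * (K + 1))) → (∀ l e, |(a l e : ℝ)| ≤ Real.exp (A * (K + 1))) →
      (∃ l, Real.exp (-(A * (K + 1))) ≤ |pv (a l) x|) →
      Real.exp (-(ε * M)) < |∑ l, β l * pv (a l) x| := by
  by_contra hcon
  push Not at hcon
  obtain ⟨m, B, N, hL, M, K, x, h1, h2, h3, h4, h5, h6⟩ := keyN b hb u hu A hε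
    (fun M K x => ∃ a : Fin s → (κ → Fin (d + 1)) → ℤ,
      (∀ l e, |(a l e : ℝ)| ≤ Real.exp (A * (K + 1))) ∧
      (∃ l, Real.exp (-(A * (K + 1))) ≤ |pv (a l) x|) ∧
      |∑ l, β l * pv (a l) x| ≤ Real.exp (-(ε * M))) (by
      intro R
      obtain ⟨M, K, hMK, x, a, g1, g2, g3, g4, g5⟩ := hcon R
      exact ⟨M, K, x, hMK, g1, g2, a, g3, g4, g5⟩)
  choose a a1 a2 a3 using h5
  have hS : ∀ l, (fun n => pv (a n l) (x n)) ∈ SQ B hL (⊤ : Submodule ℝ (Fin m → ℝ)) := fun l =>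
    pv_SQ (K := K) h2 h3 x (fun i => RepH.mono le_top (h6 i)) h4 (fun n => a n l) fun n => a1 n l
  refine not_negl h3 h2 A a2 fun l => ?_
  refine lindisjH halg hβ (fun l => gr fun n => pv (a n l) (x n)) (fun l => (mem_SQ.1 (hS l)).1)
    (fun E => ?_) l 1
  have e1 : ∑ l, algebraMap ℝ HR (β l) * gr (fun n => pv (a n l) (x n)) =
      gr fun n => ∑ l, β l * pv (a n l) (x n) := by
    have e2 : (fun n => ∑ l, β l * pv (a n l) (x n)) =
        ∑ l : Fin s, (fun _ => β l) * (fun n => pv (a n l) (x n)) := by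
      funext n
      simp [Finset.sum_apply]
    have e3 : gr (fun n => ∑ l, β l * pv (a n l) (x n)) =
        grh (fun n => ∑ l, β l * pv (a n l) (x n)) := rfl
    rw [e3, e2, map_sum]
    exact Finset.sum_congr rfl fun l _ => by rw [map_mul]; rfl
  rw [e1]
  exact small_of_M h1 hε a3 E

/-- the same in the words of the statements -/
theorem roth_all {s : ℕ} (β : Fin s → ℝ) (halg : ∀ l, IsAlgebraic ℚ (β l))
    (hβ : LinearIndependent ℚ β) {k : ℕ} (b : Fin k → ℕ)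
    (hb : ∀ i, 2 ≤ b i) (u : Fin k → ℕ → ℤ) {C : ℝ} (hu : ∀ i, SimpleWord (b i) C (u i))
    (d : ℕ) (A : ℝ) {ε : ℝ} (hε : 0 < ε) :
    ∃ R : ℕ, 1 ≤ R ∧ ∀ M K : ℕ, R * (K + 1) ≤ M →
      ∀ (x : Fin k → ℝ) (a : Fin s → (Fin k → Fin (d + 1)) → ℤ),
      (∀ i, PredictableMultiple (b i) (u i) A ε M K (x i)) →
      (∀ i, |x i| ≤ Real.exp (A * (K + 1))) → (∀ l, SmallCoeff A K (a l)) →
      (∃ l, Real.exp (-(A * (K + 1))) ≤ |value (a l) x|) →
      Real.exp (-(ε * M)) < |∑ l, β l * value (a l) x| := by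
  obtain ⟨R, hR⟩ := rothN β halg hβ b hb u (fun i => simple_of (hu i)) d A hε
  exact ⟨R + 1, by omega, fun M K hMK x a g1 g2 g3 g4 =>
    hR M K (le_trans (Nat.mul_le_mul_right _ (Nat.le_succ R)) hMK) x a (fun i => near_of (g1 i)) g2
      g3 g4⟩

end Pool.Agent.Run7.h103.UN
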