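import Mathlib
import Pool.Agent.Run7.h103.UN.RothN

set_option autoImplicit false

/-!
# Sums and products of predictable numbers and algebraic numbers
-/

namespace Pool.Agent.Run7.h103.UN

open Pool.Agent.Run7.h103.PF

/-- The number `γ` is equal to `(∑ m_j β_j + l) / q` with integers `m_j`, not all of which are zero,
`l` and `q ≥ 1` of absolute value at most `e ^ (A (K + 1))`. -/
def SmallCombination {s : ℕ} (β : Fin s → ℝ) (A : ℝ) (K : ℕ) (γ : ℝ) : Prop :=
  ∃ (m : Fin s → ℤ) (l q : ℤ), (∃ j, m j ≠ 0) ∧ (∀ j, |(m j : ℝ)| ≤ Real.exp (A * (K + 1))) ∧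
    |(l : ℝ)| ≤ Real.exp (A * (K + 1)) ∧ 1 ≤ q ∧ (q : ℝ) ≤ Real.exp (A * (K + 1)) ∧
    q * γ = ∑ j, m j * β j + l

/-- relations which are linear in two numbers -/
theorem two_rel {s : ℕ} (β : Fin s → ℝ) (halg : ∀ l, IsAlgebraic ℚ (β l))
    (hβ : LinearIndependent ℚ β) {b c : ℕ} (hb : 2 ≤ b) (hc : 2 ≤ c) (u v : ℕ → ℤ) {C : ℝ}
    (hu : SimpleWord b C u) (hv : SimpleWord c C v) (A : ℝ) {ε : ℝ} (hε : 0 < ε) :
    ∃ R : ℕ, 1 ≤ R ∧ ∀ M K : ℕ, R * (K + 1) ≤ M → ∀ (x y : ℝ) (α p r : Fin s → ℤ),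
      PredictableMultiple b u A ε M K x → PredictableMultiple c v A ε M K y →
      |x| ≤ Real.exp (A * (K + 1)) → |y| ≤ Real.exp (A * (K + 1)) →
      (∀ l, |(α l : ℝ)| ≤ Real.exp (A * (K + 1))) → (∀ l, |(p l : ℝ)| ≤ Real.exp (A * (K + 1))) →
      (∀ l, |(r l : ℝ)| ≤ Real.exp (A * (K + 1))) →
      (∃ l, Real.exp (-(A * (K + 1))) ≤ |α l + p l * x + r l * y|) →
      ∑ l, β l * (α l + p l * x + r l * y) ≠ 0 := by
  obtain ⟨R, hR1, hR⟩ := roth_all β halg hβ (k := 2) ![b, c] (by
    intro i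
    fin_cases i
    · exact hb
    · exact hc) ![u, v] (C := C) (by
    intro i
    fin_cases i
    · exact hu
    · exact hv) 2 (A + 2 + 2) hε
  refine ⟨R, hR1, fun M K hMK x y α p r hx hy hxA hyA hα hp hr hlow hsum => ?_⟩
  have hlog := log_nonneg_of hR1 hMK
  have hAB : A ≤ A + 2 + 2 := by linarith
  have hAB' : A ≤ A + 2 := by linarith
  set a : Fin s → (Fin 2 → Fin 3) → ℤ := fun l =>
    mono 0 (α l) + mono (Pi.single 0 1) (p l) + mono (Pi.single 1 1) (r l) with ha
  have hval : ∀ l, value (d := 2) (a l) ![x, y] = α l + p l * x + r l * y := by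
    intro l
    rw [ha]
    simp only []
    rw [value_add, value_add, value_const, value_X (d := 1), value_X (d := 1)]
    simp
  have h1 := hR M K hMK ![x, y] a (by
    intro i
    fin_cases i
    · exact hx.mono_A hAB hlog
    · exact hy.mono_A hAB hlog) (by
    intro i
    fin_cases i
    · exact hxA.trans (exp_mono hAB K)
    · exact hyA.trans (exp_mono hAB K))
    (fun l => small_add (small_add (small_mono (hα l)) (small_mono (hp l)))
      ((small_mono (hr l)).mono_A hAB')) (by
    obtain ⟨l, hl⟩ := hlow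
    refine ⟨l, ?_⟩
    rw [hval]
    refine le_trans (Real.exp_le_exp.2 ?_) hl
    have : (0 : ℝ) ≤ K := Nat.cast_nonneg K
    nlinarith)
  simp only [hval] at h1
  rw [hsum, abs_zero] at h1
  exact absurd h1 (not_lt.2 (Real.exp_pos _).le)

/-- **Sums and products.** -/
theorem sums_products {s : ℕ} (β : Fin s → ℝ) (halg : ∀ l, IsAlgebraic ℚ (β l))
    (hβ : LinearIndependent ℚ (Fin.cons 1 β : Fin (s + 1) → ℝ)) {b c : ℕ} (hb : 2 ≤ b)
    (hc : 2 ≤ c) (u v : ℕ → ℤ) {C : ℝ} (hu : SimpleWord b C u) (hv : SimpleWord c C v) (A : ℝ)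
    {ε : ℝ} (hε : 0 < ε) :
    ∃ R : ℕ, ∀ M K : ℕ, R * (K + 1) ≤ M → ∀ γ : ℝ, SmallCombination β A K γ →
      ¬ PredictableMultiple b u A ε M K γ ∧
      ∀ t : ℝ, |t| ≤ Real.exp (A * (K + 1)) →
        (¬ PredictableMultiple b u A ε M K t ∨ ¬ PredictableMultiple c v A ε M K (t + γ)) ∧
        (Real.exp (-(A * (K + 1))) ≤ |t| →
          ¬ PredictableMultiple b u A ε M K t ∨ ¬ PredictableMultiple c v A ε M K (t * γ)) := by
  set S : ℝ := ∑ j, |β j| + 2 with hS
  have hS0 : 0 ≤ ∑ j, |β j| := Finset.sum_nonneg fun j _ => abs_nonneg _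
  set A' : ℝ := |A| + |A| + |S| with hA'
  have hAA := le_abs_self A
  have hA0 := abs_nonneg A
  have hSS := le_abs_self S
  have hS1 := abs_nonneg S
  have hAA' : A ≤ A' := by linarith
  have halg' : ∀ l, IsAlgebraic ℚ ((Fin.cons 1 β : Fin (s + 1) → ℝ) l) := by
    intro l
    refine Fin.cases ?_ (fun j => ?_) l
    · exact isAlgebraic_one
    · exact halg j
  obtain ⟨R1, hR1, h1⟩ := two_rel _ halg' hβ hb hb u u hu hu A' hε
  obtain ⟨R2, hR2, h2⟩ := two_rel _ halg' hβ hb hc u v hu hv A' hε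
  refine ⟨R1 + R2, fun M K hMK γ hγ => ?_⟩
  have hMK1 : R1 * (K + 1) ≤ M := le_trans (Nat.mul_le_mul_right _ (Nat.le_add_right _ _)) hMK
  have hMK2 : R2 * (K + 1) ≤ M := le_trans (Nat.mul_le_mul_right _ (Nat.le_add_left _ _)) hMK
  have hlog := log_nonneg_of hR1 hMK1
  obtain ⟨m, l, q, ⟨j0, hj0⟩, hm, hl, hq, hq', e⟩ := hγ
  have hq1 : (1 : ℝ) ≤ q := by exact_mod_cast hq
  have hK0 : (0 : ℝ) ≤ K := Nat.cast_nonneg K
  have hone : (1 : ℝ) ≤ Real.exp (|A| * (K + 1)) := Real.one_le_exp (by positivity)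
  have hAe : Real.exp (A * (K + 1)) ≤ Real.exp (|A| * (K + 1)) := exp_mono hAA K
  have hbig : ∀ x : ℝ, |x| ≤ Real.exp (A * (K + 1)) → |x| ≤ Real.exp (A' * (K + 1)) :=
    fun x hx => hx.trans (exp_mono hAA' K)
  have hj1 : (1 : ℝ) ≤ |(m j0 : ℝ)| := by exact_mod_cast Int.one_le_abs hj0
  have hA'0 : 0 ≤ A' := by linarith
  have hexp1 : Real.exp (-(A' * (K + 1))) ≤ 1 := by
    rw [Real.exp_le_one_iff]
    have : 0 ≤ A' * ((K : ℝ) + 1) := by positivity
    linarith
  -- the size of `γ`
  have hγ1 : |γ| ≤ (S - 1) * Real.exp (|A| * (K + 1)) := by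
    have g1 : |γ| ≤ |(q : ℝ) * γ| := by
      rw [abs_mul]
      have : (1 : ℝ) ≤ |(q : ℝ)| := hq1.trans (le_abs_self _)
      nlinarith [abs_nonneg γ]
    rw [e] at g1
    have g2 : |∑ j, (m j : ℝ) * β j| ≤ ∑ j, Real.exp (|A| * (K + 1)) * |β j| := by
      refine (Finset.abs_sum_le_sum_abs _ _).trans (Finset.sum_le_sum fun j _ => ?_)
      rw [abs_mul]
      exact mul_le_mul_of_nonneg_right ((hm j).trans hAe) (abs_nonneg _)
    rw [← Finset.mul_sum] at g2
    have g3 := abs_add_le (∑ j, (m j : ℝ) * β j) (l : ℝ)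
    have g4 := hl.trans hAe
    rw [hS]
    nlinarith
  have hexpP : 0 < Real.exp (|A| * (K + 1)) := Real.exp_pos _
  have hSe := exp_const (c := S) (|A| + |A|) K
  have hee : Real.exp (|A| * (K + 1)) * Real.exp (|A| * (K + 1)) =
      Real.exp ((|A| + |A|) * (K + 1)) := by
    rw [← Real.exp_add]
    congr 1
    ring
  have hmid : S * Real.exp (|A| * (K + 1)) ≤ Real.exp (A' * (K + 1)) := by
    refine le_trans ?_ hSe
    rw [← hee]
    have : 0 ≤ S * Real.exp (|A| * (K + 1)) := by positivity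
    nlinarith
  have hγA : |γ| ≤ Real.exp (A' * (K + 1)) := by
    refine hγ1.trans (le_trans ?_ hmid)
    nlinarith
  have hzero : ∀ x : ℝ, x = 0 → |x| ≤ Real.exp (A' * (K + 1)) := by
    rintro x rfl
    simpa using (Real.exp_pos _).le
  refine ⟨fun hcon => ?_, fun t ht => ⟨?_, fun ht0 => ?_⟩⟩
  · -- `γ` itself
    refine h1 M K hMK1 γ γ (Fin.cons (-l) fun j => -m j) (Fin.cons q 0) 0
      (hcon.mono_A hAA' hlog) (hcon.mono_A hAA' hlog) hγA hγA ?_ ?_ ?_ ⟨j0.succ, ?_⟩ ?_
    · intro i
      refine Fin.cases ?_ (fun j => ?_) i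
      · simp only [Fin.cons_zero]
        push_cast
        rw [abs_neg]
        exact hbig _ hl
      · simp only [Fin.cons_succ]
        push_cast
        rw [abs_neg]
        exact hbig _ (hm j)
    · intro i
      refine Fin.cases ?_ (fun j => ?_) i
      · simp only [Fin.cons_zero]
        refine hbig _ ?_
        rw [abs_of_nonneg (by linarith)]
        exact hq'
      · exact hzero _ (by simp)
    · intro i
      exact hzero _ (by simp)
    · simp only [Fin.cons_succ, Pi.zero_apply]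
      push_cast
      simp only [zero_mul, add_zero, abs_neg]
      exact hexp1.trans hj1
    · rw [Fin.sum_univ_succ]
      simp only [Fin.cons_zero, Fin.cons_succ, Pi.zero_apply]
      push_cast
      have e2 : ∑ j, β j * (-(m j : ℝ) + 0 * γ + 0 * γ) = -∑ j, m j * β j := by
        rw [← Finset.sum_neg_distrib]
        exact Finset.sum_congr rfl fun j _ => by ring
      rw [e2]
      linarith
  · -- sums
    by_contra hcon
    push Not at hcon
    obtain ⟨g1, g2⟩ := hcon
    refine h2 M K hMK2 t (t + γ) (Fin.cons (-l) fun j => -m j) (Fin.cons (-q) 0) (Fin.cons q 0)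
      (g1.mono_A hAA' hlog) (g2.mono_A hAA' hlog) (hbig _ ht) ?_ ?_ ?_ ?_ ⟨j0.succ, ?_⟩ ?_
    · refine (abs_add_le t γ).trans (le_trans ?_ hmid)
      have g4 := ht.trans hAe
      have g5 : S * Real.exp (|A| * (K + 1)) =
        Real.exp (|A| * (K + 1)) + (S - 1) * Real.exp (|A| * (K + 1)) := by ring
      rw [g5]
      exact add_le_add g4 hγ1
    · intro i
      refine Fin.cases ?_ (fun j => ?_) i
      · simp only [Fin.cons_zero]
        push_cast
        rw [abs_neg]
        exact hbig _ hl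
      · simp only [Fin.cons_succ]
        push_cast
        rw [abs_neg]
        exact hbig _ (hm j)
    · intro i
      refine Fin.cases ?_ (fun j => ?_) i
      · simp only [Fin.cons_zero]
        push_cast
        rw [abs_neg]
        refine hbig _ ?_
        rw [abs_of_nonneg (by linarith)]
        exact hq'
      · exact hzero _ (by simp)
    · intro i
      refine Fin.cases ?_ (fun j => ?_) i
      · simp only [Fin.cons_zero]
        refine hbig _ ?_
        rw [abs_of_nonneg (by linarith)]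
        exact hq'
      · exact hzero _ (by simp)
    · simp only [Fin.cons_succ, Pi.zero_apply]
      push_cast
      simp only [zero_mul, add_zero, abs_neg]
      exact hexp1.trans hj1
    · rw [Fin.sum_univ_succ]
      simp only [Fin.cons_zero, Fin.cons_succ, Pi.zero_apply]
      push_cast
      have e2 : ∑ j, β j * (-(m j : ℝ) + 0 * t + 0 * (t + γ)) = -∑ j, m j * β j := by
        rw [← Finset.sum_neg_distrib]
        exact Finset.sum_congr rfl fun j _ => by ring
      rw [e2]
      linarith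
  · -- products
    by_contra hcon
    push Not at hcon
    obtain ⟨g1, g2⟩ := hcon
    refine h2 M K hMK2 t (t * γ) 0 (Fin.cons (-l) fun j => -m j) (Fin.cons q 0)
      (g1.mono_A hAA' hlog) (g2.mono_A hAA' hlog) (hbig _ ht) ?_ ?_ ?_ ?_ ⟨j0.succ, ?_⟩ ?_
    · rw [abs_mul]
      refine le_trans ?_ hSe
      rw [← hee]
      have g4 := ht.trans hAe
      have g5 := abs_nonneg t
      have g6 := abs_nonneg γ
      have g7 : |t| * |γ| ≤ Real.exp (|A| * (K + 1)) * ((S - 1) * Real.exp (|A| * (K + 1))) :=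
        mul_le_mul g4 hγ1 g6 hexpP.le
      refine g7.trans ?_
      have g8 : 0 ≤ Real.exp (|A| * (K + 1)) * Real.exp (|A| * (K + 1)) := by positivity
      have g9 : Real.exp (|A| * (K + 1)) * ((S - 1) * Real.exp (|A| * (K + 1))) =
        S * (Real.exp (|A| * (K + 1)) * Real.exp (|A| * (K + 1))) -
          Real.exp (|A| * (K + 1)) * Real.exp (|A| * (K + 1)) := by ring
      linarith
    · intro i
      exact hzero _ (by simp)
    · intro i
      refine Fin.cases ?_ (fun j => ?_) i
      · simp only [Fin.cons_zero]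
        push_cast
        rw [abs_neg]
        exact hbig _ hl
      · simp only [Fin.cons_succ]
        push_cast
        rw [abs_neg]
        exact hbig _ (hm j)
    · intro i
      refine Fin.cases ?_ (fun j => ?_) i
      · simp only [Fin.cons_zero]
        refine hbig _ ?_
        rw [abs_of_nonneg (by linarith)]
        exact hq'
      · exact hzero _ (by simp)
    · simp only [Fin.cons_succ, Pi.zero_apply]
      push_cast
      simp only [zero_mul, zero_add, add_zero, abs_mul, abs_neg]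
      have g3 : Real.exp (-(A' * (K + 1))) ≤ Real.exp (-(A * (K + 1))) := by
        refine Real.exp_le_exp.2 (neg_le_neg ?_)
        gcongr
      exact (g3.trans ht0).trans (le_mul_of_one_le_left (abs_nonneg t) hj1)
    · rw [Fin.sum_univ_succ]
      simp only [Fin.cons_zero, Fin.cons_succ, Pi.zero_apply]
      push_cast
      have e2 : ∑ j, β j * (0 + -(m j : ℝ) * t + 0 * (t * γ)) = -(∑ j, m j * β j) * t := by
        rw [neg_mul, Finset.sum_mul, ← Finset.sum_neg_distrib]
        exact Finset.sum_congr rfl fun j _ => by ring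
      rw [e2]
      have e3 : ∑ j, (m j : ℝ) * β j = q * γ - l := by linarith
      rw [e3]
      ring

end Pool.Agent.Run7.h103.UN
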