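import Mathlib
import Pool.Agent.Run7.h103.UN.Near

set_option autoImplicit false

/-!
# Relations between two numbers with predictable multiples
-/

namespace Pool.Agent.Run7.h103.UN

open Pool.Agent.Run7.h103.PF

/-- relations which are linear in the two numbers -/
theorem lin_rel (F : Finset ℕ) (hF2 : ∀ b ∈ F, 2 ≤ b)
    (hF : ∀ b ∈ F, ∀ c ∈ F, b ≠ c → Independent b c) {W : Type} [Finite W]
    (u : ℕ → W → ℕ → ℤ) {C : ℝ}
    (hu : ∀ b ∈ F, ∀ i, SimpleWord b C (u b i)) {z : ℝ} (hz : Transcendental ℚ z)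
    (hU : ¬ UNumber z) (A : ℝ) {ε : ℝ} (hε : 0 < ε) :
    ∃ R : ℕ, 1 ≤ R ∧ ∀ M K : ℕ, R * (K + 1) ≤ M → ∃ c : ℕ, ∀ b ∈ F, b ≠ c →
      ∀ (i j : W) (x y : ℝ) (α β γ : Fin 3 → ℤ), PredictableMultiple b (u b i) A ε M K x →
        PredictableMultiple b (u b j) A ε M K y → |x| ≤ Real.exp (A * (K + 1)) →
        |y| ≤ Real.exp (A * (K + 1)) → (∀ s, |α s| ≤ 2) → (∀ s, |β s| ≤ 2) → (∀ s, |γ s| ≤ 2) →
        ∑ s, (α s + β s * x + γ s * y) * z ^ (s : ℕ) = 0 →
        ∀ s, |α s + β s * x + γ s * y| < Real.exp (-(A * (K + 1))) := by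
  obtain ⟨R, hR1, hR⟩ := measure_allW F hF2 hF 2 u hu hz hU 2 (|A| + 2 + 2 + 2) hε
  refine ⟨R, hR1, fun M K hMK => ?_⟩
  have hlog := log_nonneg_of hR1 hMK
  obtain ⟨c, hc⟩ := hR M K hMK
  refine ⟨c, fun b hb hbc i j x y α β γ hx hy hxA hyA hα hβ hγ hsum s => ?_⟩
  by_contra hcon
  have hAA := le_abs_self A
  have hAB : A ≤ |A| + 2 + 2 + 2 := by linarith
  have htwo : (2 : ℝ) ≤ Real.exp ((|A| + 2) * (K + 1)) := by
    have h1 := Real.add_one_le_exp ((|A| + 2) * ((K : ℝ) + 1))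
    have h2 : 0 ≤ |A| := abs_nonneg A
    have h3 : (0 : ℝ) ≤ K := Nat.cast_nonneg K
    nlinarith
  have hsm : ∀ n : ℤ, |n| ≤ 2 → |(n : ℝ)| ≤ Real.exp ((|A| + 2) * (K + 1)) := by
    intro n hn
    refine le_trans ?_ htwo
    exact_mod_cast hn
  set a : Fin 3 → (Fin 2 → Fin 3) → ℤ := fun s =>
    mono 0 (α s) + mono (Pi.single 0 1) (β s) + mono (Pi.single 1 1) (γ s) with ha
  have hval : ∀ s, value (d := 2) (a s) ![x, y] = α s + β s * x + γ s * y := by
    intro s
    rw [ha]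
    simp only []
    rw [value_add, value_add, value_const, value_X (d := 1), value_X (d := 1)]
    simp
  have h1 := hc b hb hbc ![i, j] ![x, y] a (by
    intro s
    fin_cases s
    · exact hx.mono_A hAB hlog
    · exact hy.mono_A hAB hlog) (by
    intro s
    fin_cases s
    · exact hxA.trans (exp_mono hAB K)
    · exact hyA.trans (exp_mono hAB K)) (fun s => small_add (small_add (small_mono (hsm _ (hα s)))
      (small_mono (hsm _ (hβ s)))) ((small_mono (hsm _ (hγ s))).mono_A (by linarith)))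
    ⟨s, by
      rw [hval]
      refine le_trans (Real.exp_le_exp.2 ?_) (not_lt.1 hcon)
      have : (0 : ℝ) ≤ K := Nat.cast_nonneg K
      nlinarith⟩
  simp only [hval] at h1
  rw [hsum, abs_zero] at h1
  exact absurd h1 (not_lt.2 (Real.exp_pos _).le)

/-- the numbers `t + z`, `t - z`, `t z`, `t / z` -/
noncomputable def four (z t : ℝ) : Fin 4 → ℝ := ![t + z, t - z, t * z, t / z]

/-- **Three of the four numbers.** -/
theorem three_of_four (F : Finset ℕ) (hF2 : ∀ b ∈ F, 2 ≤ b)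
    (hF : ∀ b ∈ F, ∀ c ∈ F, b ≠ c → Independent b c) (u : ℕ → Fin 4 → ℕ → ℤ) {C : ℝ}
    (hu : ∀ b ∈ F, ∀ i, SimpleWord b C (u b i)) {z : ℝ} (hz : Transcendental ℚ z)
    (hU : ¬ UNumber z) (A : ℝ) {ε : ℝ} (hε : 0 < ε) :
    ∃ R : ℕ, ∀ M K : ℕ, R * (K + 1) ≤ M → ∃ c : ℕ, ∀ b ∈ F, b ≠ c →
      ∀ t : ℝ, |t| ≤ Real.exp (A * (K + 1)) → Real.exp (-(A * (K + 1))) ≤ |t| →
        Real.exp (-(A * (K + 1))) ≤ |t - z| → Real.exp (-(A * (K + 1))) ≤ |t + z| →
        ∃ s : Fin 4, ∀ i, i ≠ s → ¬ PredictableMultiple b (u b i) A ε M K (four z t i) := by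
  have hz0 : z ≠ 0 := by
    rintro rfl
    exact hz (isAlgebraic_zero)
  have hzp : 0 < |z| := abs_pos.2 hz0
  set w : ℝ := 1 + |z| + |z|⁻¹ with hw
  have hw1 : 1 ≤ w := by
    have : 0 < |z|⁻¹ := inv_pos.2 hzp
    rw [hw]
    linarith
  set B : ℝ := |A| + |w| with hB
  have hAA := le_abs_self A
  have hAB : A ≤ B := by
    have := abs_nonneg w
    rw [hB]
    linarith
  obtain ⟨R, hR1, hR⟩ := lin_rel F hF2 hF u hu hz hU B hε
  refine ⟨R, fun M K hMK => ?_⟩
  have hlog := log_nonneg_of hR1 hMK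
  obtain ⟨c, hc⟩ := hR M K hMK
  refine ⟨c, fun b hb hbc t ht ht0 ht1 ht2 => ?_⟩
  have hzi : 0 < |z|⁻¹ := inv_pos.2 hzp
  have hone : (1 : ℝ) ≤ Real.exp (|A| * (K + 1)) := Real.one_le_exp (by positivity)
  have hAe : Real.exp (A * (K + 1)) ≤ Real.exp (|A| * (K + 1)) := exp_mono hAA K
  have hwe := exp_const (c := w) |A| K
  have hlow : Real.exp (-(B * (K + 1))) ≤ Real.exp (-(A * (K + 1))) :=
    Real.exp_le_exp.2 (neg_le_neg (by gcongr))
  have ht' := ht.trans hAe
  -- bounds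
  have hbd : ∀ i, |four z t i| ≤ Real.exp (B * (K + 1)) := by
    intro i
    refine le_trans ?_ hwe
    fin_cases i
    · change |t + z| ≤ _
      refine (abs_add_le _ _).trans ?_
      nlinarith
    · change |t - z| ≤ _
      refine (abs_sub _ _).trans ?_
      nlinarith
    · change |t * z| ≤ _
      rw [abs_mul]
      nlinarith
    · change |t / z| ≤ _
      rw [abs_div, div_eq_mul_inv]
      nlinarith
  have htz : Real.exp (-(B * (K + 1))) ≤ |t * z| := by
    have h1 : Real.exp (-(|A| * (K + 1))) ≤ |t| := le_trans (Real.exp_le_exp.2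
      (neg_le_neg (by gcongr))) ht0
    have h2 : Real.exp (-(|w| * (K + 1))) ≤ |z| := by
      have h3 : w ≤ Real.exp (|w| * (K + 1)) := by
        have := exp_const (c := w) 0 K
        simpa using this
      rw [Real.exp_neg, inv_le_comm₀ (Real.exp_pos _) hzp]
      refine le_trans ?_ h3
      rw [hw]
      linarith
    rw [abs_mul]
    calc Real.exp (-(B * (K + 1))) = Real.exp (-(|A| * (K + 1))) * Real.exp (-(|w| * (K + 1))) := by
          rw [← Real.exp_add, hB]; ring_nf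
      _ ≤ _ := by gcongr
  -- the claim for pairs
  have claim : ∀ i j : Fin 4, i < j → PredictableMultiple b (u b i) A ε M K (four z t i) →
      PredictableMultiple b (u b j) A ε M K (four z t j) → False := by
    intro i j hij hi hj
    have g := fun α β γ => hc b hb hbc i j (four z t i) (four z t j) α β γ
      (hi.mono_A hAB hlog) (hj.mono_A hAB hlog) (hbd i) (hbd j)
    have hd : ∀ v : Fin 3 → ℤ, (∀ s, |v s| ≤ 2) ↔ |v 0| ≤ 2 ∧ |v 1| ≤ 2 ∧ |v 2| ≤ 2 := by
      intro v
      constructor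
      · exact fun h => ⟨h 0, h 1, h 2⟩
      · rintro ⟨h1, h2, h3⟩ s
        fin_cases s <;> assumption
    simp only [hd, Fin.sum_univ_three] at g
    have e2 : Real.exp (-(B * (K + 1))) ≤ 1 := by
      rw [Real.exp_le_one_iff]
      have : 0 ≤ B * ((K : ℝ) + 1) := by positivity
      linarith
    fin_cases i <;> fin_cases j <;> first | exact absurd hij (by decide) | skip
    · -- `t + z`, `t - z`
      have h1 := g ![0, -2, 0] ![1, 0, 0] ![-1, 0, 0] (by decide) (by decide) (by decide) (by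
        simp [four]
        ring) 1
      norm_num at h1
      linarith
    · -- `t + z`, `t z`
      have h1 := g ![0, 0, 1] ![0, -1, 0] ![1, 0, 0] (by decide) (by decide) (by decide) (by
        simp [four]
        ring) 2
      have e3 : |((![0, 0, 1] : Fin 3 → ℤ) 2 : ℝ) + ((![0, -1, 0] : Fin 3 → ℤ) 2 : ℝ) *
          four z t 0 + ((![1, 0, 0] : Fin 3 → ℤ) 2 : ℝ) * four z t 2| = 1 := by
        simp
      have h2 : 1 < Real.exp (-(B * (K + 1))) := lt_of_eq_of_lt e3.symm h1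
      linarith
    · -- `t + z`, `t / z`
      have h1 := g ![0, 1, 0] ![-1, 0, 0] ![0, 1, 0] (by decide) (by decide) (by decide) (by
        simp [four]
        field_simp
        ring) 0
      have e3 : |((![0, 1, 0] : Fin 3 → ℤ) 0 : ℝ) + ((![-1, 0, 0] : Fin 3 → ℤ) 0 : ℝ) *
          four z t 0 + ((![0, 1, 0] : Fin 3 → ℤ) 0 : ℝ) * four z t 3| = |t + z| := by
        simp [four]
        rw [← abs_neg]
        ring_nf
      have h2 : |t + z| < Real.exp (-(B * (K + 1))) := by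
        rw [← e3]
        exact h1
      linarith
    · -- `t - z`, `t z`
      have h1 := g ![0, 0, 1] ![0, 1, 0] ![-1, 0, 0] (by decide) (by decide) (by decide) (by
        simp [four]
        ring) 2
      have e3 : |((![0, 0, 1] : Fin 3 → ℤ) 2 : ℝ) + ((![0, 1, 0] : Fin 3 → ℤ) 2 : ℝ) *
          four z t 1 + ((![-1, 0, 0] : Fin 3 → ℤ) 2 : ℝ) * four z t 2| = 1 := by
        simp
      have h2 : 1 < Real.exp (-(B * (K + 1))) := lt_of_eq_of_lt e3.symm h1
      linarith
    · -- `t - z`, `t / z`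
      have h1 := g ![0, -1, 0] ![-1, 0, 0] ![0, 1, 0] (by decide) (by decide) (by decide) (by
        simp [four]
        field_simp
        ring) 0
      have e3 : |((![0, -1, 0] : Fin 3 → ℤ) 0 : ℝ) + ((![-1, 0, 0] : Fin 3 → ℤ) 0 : ℝ) *
          four z t 1 + ((![0, 1, 0] : Fin 3 → ℤ) 0 : ℝ) * four z t 3| = |t - z| := by
        simp [four]
        rw [← abs_neg]
        ring_nf
      have h2 : |t - z| < Real.exp (-(B * (K + 1))) := by
        rw [← e3]
        exact h1
      linarith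
    · -- `t z`, `t / z`
      have h1 := g ![0, 0, 0] ![-1, 0, 0] ![0, 0, 1] (by decide) (by decide) (by decide) (by
        simp [four]
        field_simp
        ring) 0
      have e3 : |((![0, 0, 0] : Fin 3 → ℤ) 0 : ℝ) + ((![-1, 0, 0] : Fin 3 → ℤ) 0 : ℝ) *
          four z t 2 + ((![0, 0, 1] : Fin 3 → ℤ) 0 : ℝ) * four z t 3| = |t * z| := by
        simp [four]
      have h2 : |t * z| < Real.exp (-(B * (K + 1))) := by
        rw [← e3]
        exact h1
      linarith
  by_cases hex : ∃ s, PredictableMultiple b (u b s) A ε M K (four z t s)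
  · obtain ⟨s, hs⟩ := hex
    refine ⟨s, fun i hi hp => ?_⟩
    rcases lt_or_gt_of_ne hi with h | h
    · exact claim i s h hp hs
    · exact claim s i h hs hp
  · push Not at hex
    exact ⟨0, fun i _ => hex i⟩

end Pool.Agent.Run7.h103.UN
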