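import Mathlib
import Pool.Agent.Run7.h103.UN.Span

set_option autoImplicit false

/-!
# Predictable linear forms in fixed and arbitrary real numbers, in all bases but one
-/

namespace Pool.Agent.Run7.h103.UN

open Pool.Agent.Run7.h103.PF

/-- Some number `m z + ∑ n_j t_j + l` with integers `m ≠ 0`, `n_j`, `l`, where `|m|` and `|n_j|` are at
most `e ^ (A (K + 1))`, is equal, up to `e ^ (-ε M)`, to the value of an integer polynomial in `r`
variables, of degree at most `d` in each variable and with coefficients at most `e ^ (A (K + 1))`, at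
numbers `x_1, ..., x_r` of absolute value at most `e ^ (A (K + 1))` with predictable digits: for each of
them some automaton with at most `K` states which reads the differences between the digits of `x_s` in
base `b` and the letters of `u_s` and predicts the next one makes at most `A log (M / (K + 1))` errors
among the first `M` places. -/
def PredictableModulo (b : ℕ) {r : ℕ} (u : Fin r → ℕ → ℤ) (d : ℕ) (A ε : ℝ) (M K : ℕ) {D : ℕ}
    (t : Fin D → ℝ) (z : ℝ) : Prop :=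
  ∃ (m l : ℤ) (n : Fin D → ℤ) (x : Fin r → ℝ) (a : (Fin r → Fin (d + 1)) → ℤ), m ≠ 0 ∧
    |(m : ℝ)| ≤ Real.exp (A * (K + 1)) ∧ (∀ j, |(n j : ℝ)| ≤ Real.exp (A * (K + 1))) ∧
    Predictable b u A M K x ∧ SmallCoeff A K a ∧
    |value a x - (m * z + ∑ j, n j * t j + l)| ≤ Real.exp (-(ε * M))

lemma formNear_of {b r : ℕ} {u : Fin r → ℕ → ℤ} {d : ℕ} {A ε : ℝ} {M K : ℕ} {D : ℕ} {t : Fin D → ℝ}
    {z : ℝ} (h : PredictableModulo b u d A ε M K t z) : FormNear b u d A ε M K z t := by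
  obtain ⟨m, l, n, x, a, h1, h2, h3, h4, h5, h6⟩ := h
  exact ⟨m, l, n, x, a, h1, h2, h3, fun s => (h4 s).1, fun s => good_of (h4 s).2, h5, h6⟩

/-- **All bases but one.** -/
theorem mod_all {W : Type} [Fintype W] (z : W → ℝ) (F : Finset ℕ) (hF2 : ∀ b ∈ F, 2 ≤ b)
    (hF : ∀ b ∈ F, ∀ c ∈ F, b ≠ c → Independent b c) {r : ℕ}
    (u : ℕ → W → Fin r → ℕ → ℤ) {C : ℝ}
    (hu : ∀ b ∈ F, ∀ i s, SimpleWord b C (u b i s)) (d D q0 : ℕ) (k : ℝ)
    (hk : ∀ q : ℕ, q0 ≤ q → k ≤ (Set.ncard {i : W | ∀ p : ℤ,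
      (q : ℝ) ^ (-(1 / ((2 * D + 1 : ℕ) : ℝ))) ≤ |(q : ℝ) * z i - p|} : ℝ))
    (A : ℝ) {ε : ℝ} (hε : 0 < ε) :
    ∃ R : ℕ, ∀ M K : ℕ, R * (K + 1) ≤ M → ∃ c : ℕ, ∀ b ∈ F, b ≠ c → ∀ t : Fin D → ℝ,
      k / 2 ≤ (Set.ncard {i : W | ¬ PredictableModulo b (u b i) d A ε M K t (z i)} : ℝ) := by
  classical
  have h1 : ∀ p : (F × F) × Finset W, ∃ R : ℕ, (p.1.1 : ℕ) ≠ p.1.2 →
      ((Finset.univ \ p.2).card : ℝ) < k → ∀ M K : ℕ, R * (K + 1) ≤ M → ∀ t t' : Fin D → ℝ,
      (∀ i ∈ p.2, FormNear p.1.1 (u p.1.1 i) d A ε M K (z i) t) →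
      (∀ i ∈ p.2, FormNear p.1.2 (u p.1.2 i) d A ε M K (z i) t') → False := by
    intro p
    by_cases hp : (p.1.1 : ℕ) = p.1.2
    · exact ⟨0, fun h => absurd hp h⟩
    by_cases hp2 : ((Finset.univ \ p.2).card : ℝ) < k
    · obtain ⟨R, hR⟩ := pair_mod z (hF2 _ p.1.1.2) (hF2 _ p.1.2.2)
        (Pool.Agent.TH796.AL.Ai.group_inf (hF2 _ p.1.1.2) (hF2 _ p.1.2.2)
          (hF _ p.1.1.2 _ p.1.2.2 hp))
        (u p.1.1) (u p.1.2) (fun i s => simple_of (hu _ p.1.1.2 i s))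
        (fun i s => simple_of (hu _ p.1.2.2 i s)) d D q0 k hk p.2 hp2 A hε
      exact ⟨R, fun _ _ => hR⟩
    · exact ⟨0, fun _ h => absurd h hp2⟩
  choose R hR using h1
  refine ⟨∑ p, R p, fun M K hMK => ?_⟩
  have hRp : ∀ p, R p * (K + 1) ≤ M := fun p => le_trans (Nat.mul_le_mul_right _
    (Finset.single_le_sum (f := R) (fun _ _ => Nat.zero_le _) (Finset.mem_univ p))) hMK
  by_cases hex : ∃ c ∈ F, ∃ t' : Fin D → ℝ,
      (Set.ncard {i : W | ¬ PredictableModulo c (u c i) d A ε M K t' (z i)} : ℝ) < k / 2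
  · obtain ⟨c, hc, t', hct⟩ := hex
    refine ⟨c, fun b hb hbc t => ?_⟩
    by_contra hcon
    rw [not_le] at hcon
    set I : Finset W := Finset.univ.filter fun i =>
      PredictableModulo b (u b i) d A ε M K t (z i) ∧ PredictableModulo c (u c i) d A ε M K t' (z i)
      with hI
    have hI1 : ((Finset.univ \ I).card : ℝ) < k := by
      have h2 : ((Finset.univ \ I : Finset W) : Set W) ⊆
          {i : W | ¬ PredictableModulo b (u b i) d A ε M K t (z i)} ∪
          {i : W | ¬ PredictableModulo c (u c i) d A ε M K t' (z i)} := by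
        intro i hi
        rw [Finset.mem_coe, Finset.mem_sdiff, hI, Finset.mem_filter] at hi
        by_contra h3
        rw [Set.mem_union, Set.mem_setOf_eq, Set.mem_setOf_eq] at h3
        push Not at h3
        exact hi.2 ⟨Finset.mem_univ _, h3⟩
      have h3 := (Set.ncard_le_ncard h2 (Set.toFinite _)).trans (Set.ncard_union_le _ _)
      rw [Set.ncard_coe_finset] at h3
      have h4 : ((Finset.univ \ I).card : ℝ) ≤
          (Set.ncard {i : W | ¬ PredictableModulo b (u b i) d A ε M K t (z i)} : ℝ) +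
          (Set.ncard {i : W | ¬ PredictableModulo c (u c i) d A ε M K t' (z i)} : ℝ) := by
        exact_mod_cast h3
      linarith
    exact hR ((⟨b, hb⟩, ⟨c, hc⟩), I) hbc hI1 M K (hRp _) t t'
      (fun i hi => formNear_of (Finset.mem_filter.1 hi).2.1)
      (fun i hi => formNear_of (Finset.mem_filter.1 hi).2.2)
  · refine ⟨0, fun b hb _ t => ?_⟩
    by_contra hcon
    rw [not_le] at hcon
    exact hex ⟨b, hb, t, hcon⟩

end Pool.Agent.Run7.h103.UN
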